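import Pool.Agent.H99.Spl.Fc

open PowerSeries Finset
open Pool.Agent.H99.Seif

namespace Pool.Agent.H99.Spl

private theorem amp_odd (k : ℕ) (x : ℝ) (hx : |x| < 1) :
    HasSum (fun l : ℕ => ((2 * l + 1 + 2 * k).choose (2 * k) : ℝ) * x ^ (2 * l + 1))
      ((1 / (1 - x) ^ (2 * k + 1) - 1 / (1 + x) ^ (2 * k + 1)) / 2) := by
  have h1 := hasSum_choose_mul_geometric_of_norm_lt_one (2 * k) (r := x)
    (by rw [Real.norm_eq_abs]; exact hx)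
  have h2 := hasSum_choose_mul_geometric_of_norm_lt_one (2 * k) (r := -x)
    (by rw [Real.norm_eq_abs, abs_neg]; exact hx)
  rw [sub_neg_eq_add] at h2
  have h3 := (h1.sub h2).div_const 2
  have hinj : Function.Injective (fun l : ℕ => 2 * l + 1) := by
    intro a b h
    have h' : 2 * a + 1 = 2 * b + 1 := h
    omega
  rw [← hinj.hasSum_iff] at h3
  · have e1 : (fun l : ℕ => ((2 * l + 1 + 2 * k).choose (2 * k) : ℝ) * x ^ (2 * l + 1)) =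
        ((fun n : ℕ => (((n + 2 * k).choose (2 * k) : ℝ) * x ^ n -
          ((n + 2 * k).choose (2 * k) : ℝ) * (-x) ^ n) / 2) ∘ fun l : ℕ => 2 * l + 1) := by
      funext l
      show _ = (((2 * l + 1 + 2 * k).choose (2 * k) : ℝ) * x ^ (2 * l + 1) -
          ((2 * l + 1 + 2 * k).choose (2 * k) : ℝ) * (-x) ^ (2 * l + 1)) / 2
      rw [Odd.neg_pow ⟨l, rfl⟩]
      ring
    rw [e1]
    exact h3
  · intro n hn
    have heven : Even n := by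
      by_contra hodd
      rw [Nat.not_even_iff_odd] at hodd
      obtain ⟨l, hl⟩ := hodd
      exact hn ⟨l, hl.symm⟩
    rw [heven.neg_pow, sub_self, zero_div]

/-- the terms of the double series -/
private noncomputable def ampT (c : ℕ → ℝ) (ρ : ℝ) (k : ℕ) (l m : ℕ) : ℝ :=
  c m * ((m : ℝ) + 1)⁻¹ ^ (2 * k + 2 * l + 2) * ρ ^ (2 * l + 1) *
    ((2 * l + 1 + 2 * k).choose (2 * k) : ℝ)

private theorem amp_summable {c : ℕ → ℝ} {B ρ : ℝ} (hc : ∀ m, |c m| ≤ B) (h0 : 0 < ρ) (h1 : ρ < 1)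
    (k : ℕ) : Summable (fun p : ℕ × ℕ => ampT c ρ k p.1 p.2) := by
  have hB : 0 ≤ B := (abs_nonneg _).trans (hc 0)
  have hs1 : Summable (fun l : ℕ => ((2 * l + 1 + 2 * k).choose (2 * k) : ℝ) * ρ ^ (2 * l + 1)) :=
    (amp_odd k ρ (by rw [abs_of_pos h0]; exact h1)).summable
  have hs2 : Summable (fun m : ℕ => B * ((m : ℝ) + 1)⁻¹ ^ 2) := by
    have h := (summable_nat_add_iff 1).2 (Real.summable_nat_pow_inv.2 (le_refl 2))
    apply Summable.mul_left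
    refine h.congr fun m => ?_
    push_cast
    rw [inv_pow]
  have hs := hs1.mul_of_nonneg hs2 (fun l => by positivity) (fun m => by positivity)
  refine Summable.of_norm_bounded hs ?_
  rintro ⟨l, m⟩
  show ‖c m * ((m : ℝ) + 1)⁻¹ ^ (2 * k + 2 * l + 2) * ρ ^ (2 * l + 1) *
    ((2 * l + 1 + 2 * k).choose (2 * k) : ℝ)‖ ≤
    ((2 * l + 1 + 2 * k).choose (2 * k) : ℝ) * ρ ^ (2 * l + 1) * (B * ((m : ℝ) + 1)⁻¹ ^ 2)
  have hμ0 : (0 : ℝ) ≤ ((m : ℝ) + 1)⁻¹ := by positivity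
  have hμ1 : ((m : ℝ) + 1)⁻¹ ≤ 1 := by
    apply inv_le_one_of_one_le₀
    have : (0 : ℝ) ≤ m := Nat.cast_nonneg m
    linarith
  have h2 : ((m : ℝ) + 1)⁻¹ ^ (2 * k + 2 * l + 2) ≤ ((m : ℝ) + 1)⁻¹ ^ 2 :=
    pow_le_pow_of_le_one hμ0 hμ1 (by omega)
  have h3 : (0 : ℝ) ≤ ρ ^ (2 * l + 1) * ((2 * l + 1 + 2 * k).choose (2 * k) : ℝ) := by positivity
  rw [Real.norm_eq_abs, abs_mul, abs_mul, abs_mul, abs_of_nonneg (pow_nonneg hμ0 _),
    abs_of_nonneg (pow_nonneg h0.le _), abs_of_nonneg (Nat.cast_nonneg (α := ℝ) _)]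
  calc |c m| * ((m : ℝ) + 1)⁻¹ ^ (2 * k + 2 * l + 2) * ρ ^ (2 * l + 1) *
        ((2 * l + 1 + 2 * k).choose (2 * k) : ℝ)
      = (|c m| * ((m : ℝ) + 1)⁻¹ ^ (2 * k + 2 * l + 2)) * (ρ ^ (2 * l + 1) *
        ((2 * l + 1 + 2 * k).choose (2 * k) : ℝ)) := by ring
    _ ≤ (B * ((m : ℝ) + 1)⁻¹ ^ 2) * (ρ ^ (2 * l + 1) *
        ((2 * l + 1 + 2 * k).choose (2 * k) : ℝ)) := by
        refine mul_le_mul_of_nonneg_right ?_ h3
        exact mul_le_mul (hc m) h2 (pow_nonneg hμ0 _) hB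
    _ = _ := by ring

private theorem amp_inner (c : ℕ → ℝ) {ρ : ℝ} (h0 : 0 < ρ) (h1 : ρ < 1) (k m : ℕ) :
    ∑' l : ℕ, ampT c ρ k l m = c m * (((m : ℝ) + 1 - ρ)⁻¹ ^ (2 * k + 1) -
      ((m : ℝ) + 1 + ρ)⁻¹ ^ (2 * k + 1)) / 2 := by
  obtain ⟨μ, hμ⟩ : ∃ μ : ℝ, μ = (m : ℝ) + 1 := ⟨_, rfl⟩
  have hμ1 : 1 ≤ μ := by
    rw [hμ]
    have : (0 : ℝ) ≤ m := Nat.cast_nonneg m
    linarith
  have hμ0 : 0 < μ := by linarith
  have hx : |ρ * μ⁻¹| < 1 := by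
    rw [abs_of_pos (by positivity), ← div_eq_mul_inv, div_lt_one hμ0]
    linarith
  have h2 := ((amp_odd k (ρ * μ⁻¹) hx).mul_left (c m * μ⁻¹ ^ (2 * k + 1))).tsum_eq
  have e1 : ∑' l : ℕ, ampT c ρ k l m = ∑' l : ℕ, c m * μ⁻¹ ^ (2 * k + 1) *
      (((2 * l + 1 + 2 * k).choose (2 * k) : ℝ) * (ρ * μ⁻¹) ^ (2 * l + 1)) := by
    congr 1
    funext l
    unfold ampT
    rw [← hμ, mul_pow, show 2 * k + 2 * l + 2 = (2 * k + 1) + (2 * l + 1) by ring, pow_add]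
    ring
  rw [e1, h2, ← hμ]
  have hne1 : μ - ρ ≠ 0 := by linarith
  have hne2 : μ + ρ ≠ 0 := by linarith
  have hμne : μ ≠ 0 := hμ0.ne'
  have e2 : μ⁻¹ ^ (2 * k + 1) * (1 / (1 - ρ * μ⁻¹) ^ (2 * k + 1)) = (μ - ρ)⁻¹ ^ (2 * k + 1) := by
    rw [one_div, ← inv_pow, ← mul_pow]
    congr 1
    rw [← mul_inv]
    congr 1
    field_simp
  have e3 : μ⁻¹ ^ (2 * k + 1) * (1 / (1 + ρ * μ⁻¹) ^ (2 * k + 1)) = (μ + ρ)⁻¹ ^ (2 * k + 1) := by
    rw [one_div, ← inv_pow, ← mul_pow]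
    congr 1
    rw [← mul_inv]
    congr 1
    field_simp
  rw [← e2, ← e3]
  ring

theorem amp_eval {c : ℕ → ℝ} {B ρ : ℝ} (hc : ∀ m, |c m| ≤ B) (h0 : 0 < ρ) (h1 : ρ < 1) (σ : ℝ)
    (k : ℕ) : 2 * ∑' l : ℕ, fc c (k + l) * (4 * Real.pi ^ 2) ^ l * Dk ρ σ k (k + l) =
      (4 * Real.pi ^ 2)⁻¹ * nu k * (σ / (4 * Real.pi ^ 2)) ^ k * S c ρ k := by
  obtain ⟨P, hP⟩ : ∃ P : ℝ, P = 4 * Real.pi ^ 2 := ⟨_, rfl⟩
  have hP0 : 0 < P := by
    rw [hP]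
    positivity
  have hPne : P ≠ 0 := hP0.ne'
  have hterm : ∀ l : ℕ, fc c (k + l) * P ^ l * Dk ρ σ k (k + l) =
      (σ ^ k * nu k * P⁻¹ ^ (k + 1)) * ∑' m : ℕ, ampT c ρ k l m := by
    intro l
    unfold fc Dk
    rw [← hP, ← tsum_mul_right, ← tsum_mul_right, ← tsum_mul_left]
    congr 1
    funext m
    unfold ampT nu
    have e0 : 2 * (k + l) + 1 - 2 * k = 2 * l + 1 := by omega
    have e1 : 2 * (k + l) + 1 = 2 * k + (2 * l + 1) := by ring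
    rw [e0, e1, show 2 * l + 1 + 2 * k = 2 * k + (2 * l + 1) by ring, Nat.cast_add_choose]
    have f1 : ((2 * k).factorial : ℝ) ≠ 0 := by exact_mod_cast Nat.factorial_ne_zero _
    have f2 : ((2 * l + 1).factorial : ℝ) ≠ 0 := by exact_mod_cast Nat.factorial_ne_zero _
    have f3 : (k.factorial : ℝ) ≠ 0 := by exact_mod_cast Nat.factorial_ne_zero _
    have e2 : (P * ((m : ℝ) + 1) ^ 2)⁻¹ ^ (k + l + 1) * P ^ l =
        P⁻¹ ^ (k + 1) * ((m : ℝ) + 1)⁻¹ ^ (2 * k + 2 * l + 2) := by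
      rw [mul_inv, mul_pow, ← inv_pow, ← pow_mul, show 2 * (k + l + 1) = 2 * k + 2 * l + 2 by ring,
        show k + l + 1 = (k + 1) + l by ring, pow_add, mul_right_comm, mul_assoc (P⁻¹ ^ (k + 1)),
        ← mul_pow, inv_mul_cancel₀ hPne, one_pow, mul_one]
    calc c m * (P * ((m : ℝ) + 1) ^ 2)⁻¹ ^ (k + l + 1) * P ^ l *
          (σ ^ k / (k.factorial : ℝ) * ρ ^ (2 * l + 1) *
            (((2 * k + (2 * l + 1)).factorial : ℝ) / ((2 * l + 1).factorial : ℝ)))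
        = c m * ((P * ((m : ℝ) + 1) ^ 2)⁻¹ ^ (k + l + 1) * P ^ l) *
          (σ ^ k / (k.factorial : ℝ) * ρ ^ (2 * l + 1) *
            (((2 * k + (2 * l + 1)).factorial : ℝ) / ((2 * l + 1).factorial : ℝ))) := by ring
      _ = _ := by
        rw [e2]
        field_simp
  have hsum := amp_summable hc h0 h1 k
  have hcomm : ∑' l : ℕ, ∑' m : ℕ, ampT c ρ k l m = ∑' m : ℕ, ∑' l : ℕ, ampT c ρ k l m :=
    (Summable.tsum_comm (f := fun l m => ampT c ρ k l m) hsum).symm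
  have hin : ∑' m : ℕ, ∑' l : ℕ, ampT c ρ k l m = S c ρ k / 2 := by
    unfold S
    rw [← tsum_div_const]
    congr 1
    funext m
    exact amp_inner c h0 h1 k m
  rw [← hP]
  have e3 : ∑' l : ℕ, fc c (k + l) * P ^ l * Dk ρ σ k (k + l) =
      (σ ^ k * nu k * P⁻¹ ^ (k + 1)) * (S c ρ k / 2) := by
    rw [← hin, ← hcomm, ← tsum_mul_left]
    congr 1
    funext l
    exact hterm l
  rw [e3, div_pow, pow_succ, inv_pow]
  field_simp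

end Pool.Agent.H99.Spl
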