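import Pool.Agent.H99.Spl.Defs

open PowerSeries Finset
open Pool.Agent.H99.Seif

namespace Pool.Agent.H99.Spl

private theorem two_ne : (2 : ℕ) ≠ 0 := two_ne_zero

/-- The generating function of the Bernoulli polynomials at `x`. -/
private noncomputable def genB (x : ℝ) : ℝ⟦X⟧ :=
  PowerSeries.mk fun n => Polynomial.aeval x
    ((1 / (n.factorial : ℚ) : ℚ) • Polynomial.bernoulli n)

private theorem expo_subk {k : ℕ} (hk : 1 ≤ k) :
    rescale (1 / (2 * k) : ℝ) (PowerSeries.exp ℝ) - rescale (-(1 / (2 * k)) : ℝ) (PowerSeries.exp ℝ) =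
      C ((k : ℝ)⁻¹) * (X * PowerSeries.expand 2 two_ne (E k)) := by
  have hk0 : (k : ℝ) ≠ 0 := by
    have : (0 : ℝ) < k := by exact_mod_cast hk
    exact this.ne'
  ext n
  rw [map_sub, coeff_rescale, coeff_rescale, PowerSeries.coeff_exp, PowerSeries.coeff_C_mul]
  cases n with
  | zero => simp
  | succ j =>
    rw [PowerSeries.coeff_succ_X_mul, PowerSeries.coeff_expand]
    by_cases h : 2 ∣ j
    · obtain ⟨m, rfl⟩ := h
      rw [if_pos (dvd_mul_right 2 m), Nat.mul_div_cancel_left m (by norm_num)]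
      unfold E
      rw [PowerSeries.coeff_mk]
      have h1 : (-(1 / (2 * k)) : ℝ) ^ (2 * m + 1) = -((1 / (2 * k) : ℝ) ^ (2 * m + 1)) := by
        rw [Odd.neg_pow ⟨m, rfl⟩]
      rw [h1]
      have h2 : (algebraMap ℚ ℝ) (1 / ((2 * m + 1).factorial : ℚ)) =
          1 / ((2 * m + 1).factorial : ℝ) := by
        simp
      rw [h2]
      have h3 : ((2 * m + 1).factorial : ℝ) ≠ 0 := by positivity
      have h4 : (1 / (2 * k) : ℝ) ^ (2 * m + 1) = 1 / ((2 * k) ^ (2 * m) * (2 * k)) := by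
        rw [one_div, inv_pow, pow_succ, one_div]
      rw [h4]
      have h5 : (2 * k : ℝ) ^ (2 * m) ≠ 0 := by positivity
      field_simp
      ring
    · rw [if_neg h]
      have hev : Even (j + 1) := by
        rcases Nat.even_or_odd j with hk | hk
        · exact absurd hk.two_dvd h
        · exact hk.add_one
      rw [hev.neg_pow]
      ring

private theorem genB_mul (y : ℝ) : genB (1 / 2 + y) * PowerSeries.expand 2 two_ne (E 1) =
    rescale y (PowerSeries.exp ℝ) := by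
  have h1 := Polynomial.bernoulli_generating_function (1 / 2 + y : ℝ)
  have h2 : genB (1 / 2 + y) * (PowerSeries.exp ℝ - 1) =
      X * rescale (1 / 2 + y : ℝ) (PowerSeries.exp ℝ) := h1
  have h0 := expo_subk (k := 1) le_rfl
  have h0' : rescale (1 / 2 : ℝ) (PowerSeries.exp ℝ) - rescale (-(1 / 2) : ℝ) (PowerSeries.exp ℝ) =
      X * PowerSeries.expand 2 two_ne (E 1) := by
    simpa using h0
  have h3 : (PowerSeries.exp ℝ - 1) * rescale (-(1 / 2) : ℝ) (PowerSeries.exp ℝ) =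
      X * PowerSeries.expand 2 two_ne (E 1) := by
    rw [← h0', sub_mul, one_mul]
    have h4 := PowerSeries.exp_mul_exp_eq_exp_add (1 : ℝ) (-(1 / 2) : ℝ)
    rw [PowerSeries.rescale_one, RingHom.id_apply] at h4
    rw [h4]
    norm_num
  have h5 : rescale (1 / 2 + y : ℝ) (PowerSeries.exp ℝ) *
      rescale (-(1 / 2) : ℝ) (PowerSeries.exp ℝ) = rescale y (PowerSeries.exp ℝ) := by
    rw [PowerSeries.exp_mul_exp_eq_exp_add]
    congr 2
    ring
  have h6 : X * (genB (1 / 2 + y) * PowerSeries.expand 2 two_ne (E 1)) =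
      X * rescale y (PowerSeries.exp ℝ) := by
    calc X * (genB (1 / 2 + y) * PowerSeries.expand 2 two_ne (E 1))
        = genB (1 / 2 + y) * (X * PowerSeries.expand 2 two_ne (E 1)) := by ring
      _ = (genB (1 / 2 + y) * (PowerSeries.exp ℝ - 1)) *
            rescale (-(1 / 2) : ℝ) (PowerSeries.exp ℝ) := by
          rw [← h3]; ring
      _ = X * (rescale (1 / 2 + y : ℝ) (PowerSeries.exp ℝ) *
            rescale (-(1 / 2) : ℝ) (PowerSeries.exp ℝ)) := by rw [h2]; ring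
      _ = X * rescale y (PowerSeries.exp ℝ) := by rw [h5]
  exact mul_left_cancel₀ PowerSeries.X_ne_zero h6

private theorem constCoeff_E_one : constantCoeff (E 1) ≠ 0 := by
  rw [← PowerSeries.coeff_zero_eq_constantCoeff_apply]
  unfold E
  rw [PowerSeries.coeff_mk]
  norm_num

private theorem coeff_genB (x : ℝ) (n : ℕ) : coeff n (genB x) =
    ((Polynomial.bernoulli n).map (algebraMap ℚ ℝ)).eval x / (n.factorial : ℝ) := by
  unfold genB
  rw [PowerSeries.coeff_mk, map_smul, Polynomial.eval_map, ← Polynomial.aeval_def,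
    Algebra.smul_def]
  simp [div_eq_mul_inv, mul_comm]

private theorem node_eq {a b : ℕ} (ha : 1 ≤ a) (hb : 1 ≤ b) {u v : ℝ}
    (hu : u = 1 / (2 * a) + 1 / (2 * b)) (hv : v = 1 / (2 * a) - 1 / (2 * b)) :
    C ((a : ℝ)⁻¹ * (b : ℝ)⁻¹) * (X ^ 2 * PowerSeries.expand 2 two_ne (E a * E b * (E 1)⁻¹)) =
      genB (1 / 2 + u) + genB (1 / 2 + -u) - genB (1 / 2 + v) - genB (1 / 2 + -v) := by
  have ea := expo_subk ha
  have eb := expo_subk hb
  have h1 : PowerSeries.expand 2 two_ne (E 1) * PowerSeries.expand 2 two_ne (E 1)⁻¹ = 1 := by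
    rw [← map_mul, PowerSeries.mul_inv_cancel _ constCoeff_E_one, map_one]
  have h2 : (genB (1 / 2 + u) + genB (1 / 2 + -u) - genB (1 / 2 + v) - genB (1 / 2 + -v)) *
      PowerSeries.expand 2 two_ne (E 1) =
      (rescale (1 / (2 * a) : ℝ) (PowerSeries.exp ℝ) -
        rescale (-(1 / (2 * a)) : ℝ) (PowerSeries.exp ℝ)) *
      (rescale (1 / (2 * b) : ℝ) (PowerSeries.exp ℝ) -
        rescale (-(1 / (2 * b)) : ℝ) (PowerSeries.exp ℝ)) := by
    rw [sub_mul, sub_mul, add_mul, genB_mul, genB_mul, genB_mul, genB_mul, sub_mul, mul_sub,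
      mul_sub, PowerSeries.exp_mul_exp_eq_exp_add, PowerSeries.exp_mul_exp_eq_exp_add,
      PowerSeries.exp_mul_exp_eq_exp_add, PowerSeries.exp_mul_exp_eq_exp_add]
    have e1 : (1 / (2 * a) + 1 / (2 * b) : ℝ) = u := hu.symm
    have e2 : (1 / (2 * a) + -(1 / (2 * b)) : ℝ) = v := by rw [hv]; ring
    have e3 : (-(1 / (2 * a)) + 1 / (2 * b) : ℝ) = -v := by rw [hv]; ring
    have e4 : (-(1 / (2 * a)) + -(1 / (2 * b)) : ℝ) = -u := by rw [hu]; ring
    rw [e1, e2, e3, e4]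
    ring
  rw [ea, eb] at h2
  have h3 : (C ((a : ℝ)⁻¹ * (b : ℝ)⁻¹) : ℝ⟦X⟧) = C ((a : ℝ)⁻¹) * C ((b : ℝ)⁻¹) := map_mul _ _ _
  rw [h3, map_mul, map_mul]
  calc C ((a : ℝ)⁻¹) * C ((b : ℝ)⁻¹) * (X ^ 2 * (PowerSeries.expand 2 two_ne (E a) *
        PowerSeries.expand 2 two_ne (E b) * PowerSeries.expand 2 two_ne (E 1)⁻¹))
      = (C ((a : ℝ)⁻¹) * (X * PowerSeries.expand 2 two_ne (E a)) *
        (C ((b : ℝ)⁻¹) * (X * PowerSeries.expand 2 two_ne (E b)))) *
        PowerSeries.expand 2 two_ne (E 1)⁻¹ := by ring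
    _ = (genB (1 / 2 + u) + genB (1 / 2 + -u) - genB (1 / 2 + v) - genB (1 / 2 + -v)) *
        (PowerSeries.expand 2 two_ne (E 1) * PowerSeries.expand 2 two_ne (E 1)⁻¹) := by
        rw [← h2]; ring
    _ = _ := by rw [h1, mul_one]

private theorem coeff_expand_even (F : ℝ⟦X⟧) (c : ℝ) (i : ℕ) :
    coeff (2 * (i + 1)) (C c * (X ^ 2 * PowerSeries.expand 2 two_ne F)) = c * coeff i F := by
  rw [PowerSeries.coeff_C_mul]
  congr 1
  have h : 2 * (i + 1) = 2 * i + 2 := by ring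
  rw [h, PowerSeries.coeff_X_pow_mul, PowerSeries.coeff_expand, if_pos (dvd_mul_right 2 i),
    Nat.mul_div_cancel_left i (by norm_num)]

private theorem bern_sum (x : ℝ) (hx : x ∈ Set.Icc (0 : ℝ) 1) (i : ℕ) :
    HasSum (fun n : ℕ => (-1) ^ i * 2 / (2 * Real.pi) ^ (2 * (i + 1)) *
      (1 / (n : ℝ) ^ (2 * (i + 1)) * Real.cos (2 * Real.pi * n * x)))
      (coeff (2 * (i + 1)) (genB x)) := by
  have h1 := hasSum_one_div_nat_pow_mul_cos (k := i + 1) (by omega) hx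
  have h2 := h1.mul_left ((-1) ^ i * 2 / (2 * Real.pi) ^ (2 * (i + 1)))
  have hpi : (2 * Real.pi) ^ (2 * (i + 1)) ≠ 0 := by positivity
  have h6 : ((2 * (i + 1)).factorial : ℝ) ≠ 0 := by positivity
  have h8 : ((-1 : ℝ) ^ i) * (-1) ^ (i + 1 + 1) = 1 := by
    rw [← pow_add]
    exact Even.neg_one_pow ⟨i + 1, by ring⟩
  have key : coeff (2 * (i + 1)) (genB x) = (-1) ^ i * 2 / (2 * Real.pi) ^ (2 * (i + 1)) *
      ((-1) ^ (i + 1 + 1) * (2 * Real.pi) ^ (2 * (i + 1)) / 2 / ((2 * (i + 1)).factorial : ℝ) *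
        Polynomial.eval x (Polynomial.map (algebraMap ℚ ℝ)
          (Polynomial.bernoulli (2 * (i + 1))))) := by
    rw [coeff_genB]
    generalize Polynomial.eval x (Polynomial.map (algebraMap ℚ ℝ)
      (Polynomial.bernoulli (2 * (i + 1)))) = B
    calc B / ((2 * (i + 1)).factorial : ℝ) = (((-1 : ℝ) ^ i) * (-1) ^ (i + 1 + 1)) *
          (B / ((2 * (i + 1)).factorial : ℝ)) := by rw [h8, one_mul]
      _ = _ := by field_simp
  rw [key]
  exact h2

private theorem trig {a b : ℕ} (ha : 1 ≤ a) (hb : 1 ≤ b) {u v : ℝ}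
    (hu : u = 1 / (2 * a) + 1 / (2 * b)) (hv : v = 1 / (2 * a) - 1 / (2 * b)) (n : ℕ) :
    Real.cos (2 * Real.pi * n * (1 / 2 + u)) + Real.cos (2 * Real.pi * n * (1 / 2 + -u)) -
      Real.cos (2 * Real.pi * n * (1 / 2 + v)) - Real.cos (2 * Real.pi * n * (1 / 2 + -v)) =
      -4 * (-1) ^ n * (Real.sin (Real.pi * n / a) * Real.sin (Real.pi * n / b)) := by
  have ha0 : (a : ℝ) ≠ 0 := by
    have : (0 : ℝ) < a := by exact_mod_cast ha
    exact this.ne'
  have hb0 : (b : ℝ) ≠ 0 := by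
    have : (0 : ℝ) < b := by exact_mod_cast hb
    exact this.ne'
  have hc : ∀ y : ℝ, Real.cos (2 * Real.pi * n * (1 / 2 + y)) =
      (-1) ^ n * Real.cos (2 * Real.pi * n * y) := by
    intro y
    have h : 2 * Real.pi * n * (1 / 2 + y) = 2 * Real.pi * n * y + n * Real.pi := by ring
    rw [h, Real.cos_add_nat_mul_pi]
  rw [hc, hc, hc, hc]
  have hn : ∀ y : ℝ, Real.cos (2 * Real.pi * n * -y) = Real.cos (2 * Real.pi * n * y) := by
    intro y
    rw [mul_neg, Real.cos_neg]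
  rw [hn, hn]
  have e1 : 2 * Real.pi * n * u = Real.pi * n / a + Real.pi * n / b := by
    rw [hu]
    field_simp
  have e2 : 2 * Real.pi * n * v = Real.pi * n / a - Real.pi * n / b := by
    rw [hv]
    field_simp
  rw [e1, e2, Real.cos_add, Real.cos_sub]
  ring

/-- The coefficients of `sinh (x / 2 a) sinh (x / 2 b) / sinh (x / 2)`. -/
theorem coeff_node {p : Finset ℕ} (hc : p.card = 2) (h2 : ∀ k ∈ p, 2 ≤ k) (i : ℕ) :
    coeff i ((∏ k ∈ p, E k) * (E 1)⁻¹) = (-1) ^ i * (8 * ∏ k ∈ p, (k : ℝ)) * fc (w p) i := by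
  obtain ⟨a, b, hab, rfl⟩ := Finset.card_eq_two.1 hc
  have ha2 : 2 ≤ a := h2 a (by simp)
  have hb2 : 2 ≤ b := h2 b (by simp)
  have ha : 1 ≤ a := by omega
  have hb : 1 ≤ b := by omega
  have ha2' : (2 : ℝ) ≤ a := by exact_mod_cast ha2
  have hb2' : (2 : ℝ) ≤ b := by exact_mod_cast hb2
  have ha0 : (a : ℝ) ≠ 0 := by linarith
  have hb0 : (b : ℝ) ≠ 0 := by linarith
  have hpa : (0 : ℝ) < 1 / (2 * a) := by positivity
  have hpb : (0 : ℝ) < 1 / (2 * b) := by positivity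
  have hqa : 1 / (2 * (a : ℝ)) ≤ 1 / 4 := by
    apply one_div_le_one_div_of_le (by norm_num)
    linarith
  have hqb : 1 / (2 * (b : ℝ)) ≤ 1 / 4 := by
    apply one_div_le_one_div_of_le (by norm_num)
    linarith
  obtain ⟨u, hu⟩ : ∃ u : ℝ, u = 1 / (2 * a) + 1 / (2 * b) := ⟨_, rfl⟩
  obtain ⟨v, hv⟩ : ∃ v : ℝ, v = 1 / (2 * a) - 1 / (2 * b) := ⟨_, rfl⟩
  have s1 := bern_sum (1 / 2 + u) ⟨by linarith, by linarith⟩ i
  have s2 := bern_sum (1 / 2 + -u) ⟨by linarith, by linarith⟩ i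
  have s3 := bern_sum (1 / 2 + v) ⟨by linarith, by linarith⟩ i
  have s4 := bern_sum (1 / 2 + -v) ⟨by linarith, by linarith⟩ i
  have s := ((s1.add s2).sub s3).sub s4
  have hcoef : coeff (2 * (i + 1)) (genB (1 / 2 + u)) + coeff (2 * (i + 1)) (genB (1 / 2 + -u)) -
      coeff (2 * (i + 1)) (genB (1 / 2 + v)) - coeff (2 * (i + 1)) (genB (1 / 2 + -v)) =
      (a : ℝ)⁻¹ * (b : ℝ)⁻¹ * coeff i (E a * E b * (E 1)⁻¹) := by
    rw [← coeff_expand_even, node_eq ha hb hu hv, map_sub, map_sub, map_add]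
  rw [hcoef] at s
  have t := s.mul_left ((a : ℝ) * b)
  have hval : (a : ℝ) * b * ((a : ℝ)⁻¹ * (b : ℝ)⁻¹ * coeff i (E a * E b * (E 1)⁻¹)) =
      coeff i (E a * E b * (E 1)⁻¹) := by
    field_simp
  rw [hval] at t
  have t2 := (hasSum_nat_add_iff' 1).mpr t
  rw [Finset.prod_pair hab, Finset.prod_pair hab]
  unfold fc
  rw [← tsum_mul_left]
  have hz : ∀ z : ℝ, 1 / ((0 : ℕ) : ℝ) ^ (2 * (i + 1)) * z = 0 := by
    intro z
    rw [Nat.cast_zero, zero_pow (by omega), div_zero, zero_mul]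
  rw [Finset.sum_range_one, hz, hz, hz, hz] at t2
  simp only [mul_zero, add_zero, sub_zero] at t2
  rw [← t2.tsum_eq]
  refine tsum_congr fun m => ?_
  have ht := trig ha hb hu hv (m + 1)
  unfold w
  rw [Finset.prod_pair hab]
  have hfac : ∀ c1 c2 c3 c4 K d : ℝ, K * (d * c1) + K * (d * c2) - K * (d * c3) - K * (d * c4) =
      K * (d * (c1 + c2 - c3 - c4)) := by
    intro c1 c2 c3 c4 K d
    ring
  rw [hfac, ht]
  push_cast
  have h4 : (4 * Real.pi ^ 2 * ((m : ℝ) + 1) ^ 2)⁻¹ ^ (i + 1) =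
      1 / ((2 * Real.pi) ^ (2 * (i + 1)) * ((m : ℝ) + 1) ^ (2 * (i + 1))) := by
    rw [inv_pow, one_div, pow_mul, pow_mul, ← mul_pow]
    congr 3
    ring
  rw [h4]
  have h5 : (2 * Real.pi) ^ (2 * (i + 1)) ≠ 0 := by positivity
  have h6 : ((m : ℝ) + 1) ^ (2 * (i + 1)) ≠ 0 := by positivity
  rw [pow_succ (-1 : ℝ) m]
  field_simp
  ring

end Pool.Agent.H99.Spl
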