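import Pool.Agent.H99.Spl.Defs

open PowerSeries Finset
open Pool.Agent.H99.Seif

namespace Pool.Agent.H99.Spl

private theorem dec_single (c : ℕ → ℝ) (f : ℕ → ℝ) (hf : Function.Injective f) (z : ℝ) :
    Summable (fun m : ℕ => if f m = z then c m else 0) := by
  by_cases hz : ∃ n, f n = z
  · obtain ⟨n, hn⟩ := hz
    refine summable_of_ne_finset_zero (s := {n}) ?_
    intro m hm
    have hmn : m ≠ n := by simpa using hm
    have : f m ≠ z := fun h => hmn (hf (h.trans hn.symm))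
    simp [this]
  · push Not at hz
    have : (fun m : ℕ => if f m = z then c m else 0) = fun _ => 0 := by
      funext m; simp [hz m]
    rw [this]; exact summable_zero

private theorem dec_hit (c : ℕ → ℝ) (f : ℕ → ℝ) (hf : Function.Injective f) {z : ℝ} {n : ℕ}
    (hn : f n = z) : ∑' m : ℕ, (if f m = z then c m else 0) = c n := by
  rw [tsum_eq_single n]
  · simp [hn]
  · intro m hm
    have : f m ≠ z := fun h => hm (hf (h.trans hn.symm))
    simp [this]

private theorem dec_miss (c : ℕ → ℝ) (f : ℕ → ℝ) {z : ℝ}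
    (hz : ∀ m, f m ≠ z) : ∑' m : ℕ, (if f m = z then c m else 0) = 0 := by
  have : (fun m : ℕ => if f m = z then c m else 0) = fun _ => 0 := by
    funext m; simp [hz m]
  rw [this]; exact tsum_zero

private theorem inj_sub (ρ : ℝ) : Function.Injective (fun m : ℕ => (m : ℝ) + 1 - ρ) := by
  intro a b h
  have h' : (a : ℝ) = b := by simpa using h
  exact_mod_cast h'

private theorem inj_add (ρ : ℝ) : Function.Injective (fun m : ℕ => (m : ℝ) + 1 + ρ) := by
  intro a b h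
  have h' : (a : ℝ) = b := by simpa using h
  exact_mod_cast h'

private theorem dw_eq (c : ℕ → ℝ) (ρ z : ℝ) : Dw c ρ z =
    ∑' m : ℕ, (if (m : ℝ) + 1 - ρ = z then c m else 0) -
    ∑' m : ℕ, (if (m : ℝ) + 1 + ρ = z then c m else 0) := by
  unfold Dw
  exact (dec_single c (fun m : ℕ => (m : ℝ) + 1 - ρ) (inj_sub ρ) z).tsum_sub
    (dec_single c (fun m : ℕ => (m : ℝ) + 1 + ρ) (inj_add ρ) z)

private theorem dw_small {c : ℕ → ℝ} {ρ z : ℝ} (h0 : 0 < ρ) (hz : z < 1 - ρ) : Dw c ρ z = 0 := by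
  rw [dw_eq, dec_miss c (fun m : ℕ => (m : ℝ) + 1 - ρ), dec_miss c (fun m : ℕ => (m : ℝ) + 1 + ρ)]
  · ring
  · intro m hm
    have := Nat.cast_nonneg (α := ℝ) m
    linarith
  · intro m hm
    have := Nat.cast_nonneg (α := ℝ) m
    linarith

private theorem dw_first {c : ℕ → ℝ} {ρ : ℝ} (h0 : 0 < ρ) : Dw c ρ (1 - ρ) = c 0 := by
  rw [dw_eq, dec_hit c (fun m : ℕ => (m : ℝ) + 1 - ρ) (inj_sub ρ) (n := 0) (by simp),
    dec_miss c (fun m : ℕ => (m : ℝ) + 1 + ρ)]
  · ring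
  · intro m hm
    have := Nat.cast_nonneg (α := ℝ) m
    linarith

/-- the ratio of the smallest support points -/
private theorem dec_le {s s' ρ ρ' : ℝ} (hs : 0 < s) (hs' : 0 < s') (h0 : 0 < ρ) (h1 : ρ < 1)
    (h0' : 0 < ρ') {c c' : ℕ → ℝ} (hc0 : 0 < c 0)
    (h : ∀ x : ℝ, 0 < x → Dw c ρ (s * x) / s = Dw c' ρ' (s' * x) / s') :
    (1 - ρ') / s' ≤ (1 - ρ) / s := by
  by_contra hlt
  push Not at hlt
  have hx : 0 < (1 - ρ) / s := div_pos (by linarith) hs
  have h1' := h _ hx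
  have e1 : s * ((1 - ρ) / s) = 1 - ρ := by field_simp
  have e2 : s' * ((1 - ρ) / s) < 1 - ρ' := by
    have := mul_lt_mul_of_pos_left hlt hs'
    have e3 : s' * ((1 - ρ') / s') = 1 - ρ' := by field_simp
    linarith
  rw [e1, dw_first h0, dw_small h0' e2, zero_div] at h1'
  have : 0 < c 0 / s := div_pos hc0 hs
  linarith

private theorem dec_no {s s' ρ ρ' : ℝ} (hs : 0 < s) (hs' : 0 < s') (h0 : 0 < ρ) (h1 : ρ < 1)
    (h0' : 0 < ρ') (h1' : ρ' < 1) {c c' : ℕ → ℝ} (hc0 : 0 < c 0) (hc0' : 0 < c' 0)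
    (hc1 : c 1 ≤ 0) (hsum : c' 0 + c' 1 ≠ 0)
    (h : ∀ x : ℝ, 0 < x → Dw c ρ (s * x) / s = Dw c' ρ' (s' * x) / s')
    (hlt : s' < s) : False := by
  have ha := dec_le hs hs' h0 h1 h0' hc0 h
  have hb := dec_le hs' hs h0' h1' h0 hc0' (fun x hx => (h x hx).symm)
  have hx : (1 - ρ) / s = (1 - ρ') / s' := le_antisymm hb ha
  have hx' : (1 - ρ) * s' = (1 - ρ') * s := by
    field_simp at hx
    linarith
  have hrho : ρ < ρ' := by
    have : (1 - ρ') * s' < (1 - ρ') * s := mul_lt_mul_of_pos_left hlt (by linarith)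
    have h2 : (1 - ρ') * s' < (1 - ρ) * s' := by linarith
    have := lt_of_mul_lt_mul_right h2 hs'.le
    linarith
  -- the first values
  have hx0 : 0 < (1 - ρ) / s := div_pos (by linarith) hs
  have hv := h _ hx0
  have e1 : s * ((1 - ρ) / s) = 1 - ρ := by field_simp
  have e2 : s' * ((1 - ρ) / s) = 1 - ρ' := by rw [hx]; field_simp
  rw [e1, e2, dw_first h0, dw_first h0'] at hv
  -- the value at (1 + ρ) / s
  have hx1 : 0 < (1 + ρ) / s := div_pos (by linarith) hs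
  have hw := h _ hx1
  have e3 : s * ((1 + ρ) / s) = 1 + ρ := by field_simp
  rw [e3] at hw
  set z := s' * ((1 + ρ) / s) with hz
  have hzs : z * s = (1 + ρ) * s' := by rw [hz]; field_simp
  have hzlt : z < 1 + ρ' := by
    have h3 : z * s < (1 + ρ') * s := by
      rw [hzs]
      calc (1 + ρ) * s' < (1 + ρ) * s := mul_lt_mul_of_pos_left hlt (by linarith)
        _ ≤ (1 + ρ') * s := mul_le_mul_of_nonneg_right (by linarith) hs.le
    exact lt_of_mul_lt_mul_right h3 hs.le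
  have hQ : ∑' m : ℕ, (if (m : ℝ) + 1 + ρ = 1 + ρ then c m else 0) = c 0 :=
    dec_hit c (fun m : ℕ => (m : ℝ) + 1 + ρ) (inj_add ρ) (n := 0) (by simp)
  have hQ' : ∑' m : ℕ, (if (m : ℝ) + 1 + ρ' = z then c' m else 0) = 0 := by
    refine dec_miss c' (fun m : ℕ => (m : ℝ) + 1 + ρ') ?_
    intro m hm
    have := Nat.cast_nonneg (α := ℝ) m
    linarith
  rw [dw_eq, dw_eq, hQ, hQ', sub_zero] at hw
  -- the left side is negative
  have hneg : ∑' m : ℕ, (if (m : ℝ) + 1 - ρ = 1 + ρ then c m else 0) ≤ 0 := by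
    by_cases hn : ∃ n : ℕ, (n : ℝ) + 1 - ρ = 1 + ρ
    · obtain ⟨n, hn⟩ := hn
      have hn1 : n = 1 := by
        have hn2 : (n : ℝ) < 2 := by linarith
        have hn3 : (0 : ℝ) < n := by linarith
        have hn4 : n < 2 := by exact_mod_cast hn2
        have hn5 : 0 < n := by exact_mod_cast hn3
        omega
      subst hn1
      rw [dec_hit c (fun m : ℕ => (m : ℝ) + 1 - ρ) (inj_sub ρ) hn]
      exact hc1
    · push Not at hn
      rw [dec_miss c (fun m : ℕ => (m : ℝ) + 1 - ρ) hn]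
  have hlneg : (∑' m : ℕ, (if (m : ℝ) + 1 - ρ = 1 + ρ then c m else 0) - c 0) / s < 0 :=
    div_neg_of_neg_of_pos (by linarith) hs
  rw [hw] at hlneg
  have hPneg : ∑' m : ℕ, (if (m : ℝ) + 1 - ρ' = z then c' m else 0) < 0 := by
    by_contra hge
    push Not at hge
    have := div_nonneg hge hs'.le
    linarith
  have hex : ∃ n : ℕ, (n : ℝ) + 1 - ρ' = z := by
    by_contra hne
    push Not at hne
    rw [dec_miss c' (fun m : ℕ => (m : ℝ) + 1 - ρ') hne] at hPneg
    exact lt_irrefl _ hPneg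
  obtain ⟨n, hn⟩ := hex
  have hPn : ∑' m : ℕ, (if (m : ℝ) + 1 - ρ' = z then c' m else 0) = c' n :=
    dec_hit c' (fun m : ℕ => (m : ℝ) + 1 - ρ') (inj_sub ρ') hn
  have hn1 : n = 1 := by
    have hn2 : (n : ℝ) < 2 := by linarith
    have hn4 : n < 2 := by exact_mod_cast hn2
    have hn5 : n ≠ 0 := by
      rintro rfl
      rw [hPn] at hPneg
      linarith
    omega
  subst hn1
  rw [hPn] at hw
  push_cast at hn
  by_cases hhalf : ρ = 1 / 2
  · -- then ρ' = 1/2
    have h5 : (1 - ρ) * s' * 3 = (2 - ρ') * s := by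
      have : z * s = (2 - ρ') * s := by rw [← hn]; ring
      rw [hzs] at this
      rw [← this, hhalf]; ring
    have h6 : (1 - ρ') * 3 * s = (2 - ρ') * s := by rw [← h5, hx']; ring
    have h7 : (1 - ρ') * 3 = 2 - ρ' := mul_right_cancel₀ hs.ne' h6
    linarith
  · have hmiss : ∑' m : ℕ, (if (m : ℝ) + 1 - ρ = 1 + ρ then c m else 0) = 0 := by
      refine dec_miss c (fun m : ℕ => (m : ℝ) + 1 - ρ) ?_
      intro m hm
      apply hhalf
      have hm2 : (m : ℝ) < 2 := by linarith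
      have hm3 : (0 : ℝ) < m := by linarith
      have hm4 : m < 2 := by exact_mod_cast hm2
      have hm5 : 0 < m := by exact_mod_cast hm3
      have hm6 : m = 1 := by omega
      subst hm6
      push_cast at hm
      linarith
    rw [hmiss, zero_sub, neg_div, hv] at hw
    apply hsum
    field_simp at hw
    linarith

theorem decode {τ ρ τ' ρ' : ℝ} (hτ : 0 < τ) (h0 : 0 < ρ) (h1 : ρ < 1)
    (hτ' : 0 < τ') (h0' : 0 < ρ') (h1' : ρ' < 1) {c c' : ℕ → ℝ} (hc0 : 0 < c 0) (hc0' : 0 < c' 0)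
    (hc1 : c 1 ≤ 0) (hc1' : c' 1 ≤ 0) (hs : c 0 + c 1 ≠ 0) (hs' : c' 0 + c' 1 ≠ 0)
    (h : ∀ x : ℝ, 0 < x → Dw c ρ (Real.sqrt τ * x) / Real.sqrt τ =
      Dw c' ρ' (Real.sqrt τ' * x) / Real.sqrt τ') : τ = τ' ∧ ρ = ρ' ∧ c = c' := by
  have hq : 0 < Real.sqrt τ := Real.sqrt_pos.2 hτ
  have hq' : 0 < Real.sqrt τ' := Real.sqrt_pos.2 hτ'
  have hss : Real.sqrt τ = Real.sqrt τ' := by
    rcases lt_trichotomy (Real.sqrt τ) (Real.sqrt τ') with hlt | heq | hgt
    · exact (dec_no hq' hq h0' h1' h0 h1 hc0' hc0 hc1' hs (fun x hx => (h x hx).symm) hlt).elim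
    · exact heq
    · exact (dec_no hq hq' h0 h1 h0' h1' hc0 hc0' hc1 hs' h hgt).elim
  have hττ : τ = τ' := by
    have := congrArg (fun t => t ^ 2) hss
    simpa [Real.sq_sqrt hτ.le, Real.sq_sqrt hτ'.le] using this
  have ha := dec_le hq hq' h0 h1 h0' hc0 h
  have hb := dec_le hq' hq h0' h1' h0 hc0' (fun x hx => (h x hx).symm)
  have hx : (1 - ρ) / Real.sqrt τ = (1 - ρ') / Real.sqrt τ' := le_antisymm hb ha
  have hρ : ρ = ρ' := by
    rw [← hss] at hx
    have := (div_left_inj' hq.ne').1 hx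
    linarith
  refine ⟨hττ, hρ, ?_⟩
  subst hρ
  have hD : ∀ z : ℝ, 0 < z → Dw c ρ z = Dw c' ρ z := by
    intro z hz
    have := h (z / Real.sqrt τ) (div_pos hz hq)
    rw [← hss] at this
    have e : Real.sqrt τ * (z / Real.sqrt τ) = z := by field_simp
    rw [e] at this
    exact (div_left_inj' hq.ne').1 this
  funext m
  induction m using Nat.strong_induction_on with
  | _ m ih =>
    have hm : (0 : ℝ) < (m : ℝ) + 1 - ρ := by
      have := Nat.cast_nonneg (α := ℝ) m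
      linarith
    have hd := hD _ hm
    rw [dw_eq, dw_eq, dec_hit c (fun k : ℕ => (k : ℝ) + 1 - ρ) (inj_sub ρ) (n := m) rfl,
      dec_hit c' (fun k : ℕ => (k : ℝ) + 1 - ρ) (inj_sub ρ) (n := m) rfl] at hd
    have hQ : ∑' k : ℕ, (if (k : ℝ) + 1 + ρ = (m : ℝ) + 1 - ρ then c k else 0) =
        ∑' k : ℕ, (if (k : ℝ) + 1 + ρ = (m : ℝ) + 1 - ρ then c' k else 0) := by
      refine tsum_congr fun k => ?_
      by_cases hk : (k : ℝ) + 1 + ρ = (m : ℝ) + 1 - ρ
      · have hkm : (k : ℝ) < m := by linarith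
        have hkm' : k < m := by exact_mod_cast hkm
        rw [if_pos hk, if_pos hk, ih k hkm']
      · rw [if_neg hk, if_neg hk]
    linarith

end Pool.Agent.H99.Spl
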