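import Pool.Agent.H99.Seif.Final

/-!
# The Ohtsuki series of splices of two Seifert pieces: definitions
-/

open PowerSeries Finset
open Pool.Agent.H99.Seif

namespace Pool.Agent.H99.Spl

/-- Wick's formula: the expectation of `X ^ (2 i + 1) * Y ^ (2 j + 1)` for a centred Gaussian pair
with covariances `2 a`, `2 b`, `2 c`. -/
noncomputable def Mom (a b c : ℝ) (i j : ℕ) : ℝ :=
  (2 * i + 1).factorial * (2 * j + 1).factorial * ∑ e ∈ range (min i j + 1),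
    a ^ (i - e) * (2 * b) ^ (2 * e + 1) * c ^ (j - e) /
      ((i - e).factorial * (2 * e + 1).factorial * (j - e).factorial)

/-- The Gaussian bilinear form. -/
noncomputable def Bf (a b c : ℝ) (f g : ℕ → ℝ) : ℝ⟦X⟧ :=
  PowerSeries.mk fun n => ∑ x ∈ antidiagonal n, f x.1 * g x.2 * Mom a b c x.1 x.2

/-- One half of the Gaussian bilinear form. -/
noncomputable def Hf (a b c : ℝ) (f g : ℕ → ℝ) : ℝ⟦X⟧ :=
  PowerSeries.mk fun n => ∑ x ∈ (antidiagonal n).filter (fun x => x.2 < x.1),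
    f x.1 * g x.2 * Mom a b c x.1 x.2

/-- The diagonal of the Gaussian bilinear form. -/
noncomputable def Dg (a b c : ℝ) (f g : ℕ → ℝ) : ℝ⟦X⟧ :=
  PowerSeries.mk fun n => if Even n then f (n / 2) * g (n / 2) * Mom a b c (n / 2) (n / 2) else 0

/-- `σ ^ k / k! * ρ ^ (2 j + 1 - 2 k) * (2 j + 1)! / (2 j + 1 - 2 k)!`, for `k ≤ j`. -/
noncomputable def Dk (ρ σ : ℝ) (k j : ℕ) : ℝ :=
  σ ^ k / k.factorial * ρ ^ (2 * j + 1 - 2 * k) *
    ((2 * j + 1).factorial / (2 * j + 1 - 2 * k).factorial)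

/-- The signed products of sines; `m` stands for `m + 1`. -/
noncomputable def w (p : Finset ℕ) (m : ℕ) : ℝ :=
  (-1) ^ m * ∏ k ∈ p, Real.sin (Real.pi * ((m : ℝ) + 1) / k)

/-- `∑ m ≥ 1, c m / (4 π ^ 2 m ^ 2) ^ (i + 1)`, where `c m` is indexed by `m - 1`. -/
noncomputable def fc (c : ℕ → ℝ) (i : ℕ) : ℝ :=
  ∑' m : ℕ, c m * (4 * Real.pi ^ 2 * ((m : ℝ) + 1) ^ 2)⁻¹ ^ (i + 1)

/-- `∑ m ≥ 1, c m ((m - ρ) ^ (- 2 k - 1) - (m + ρ) ^ (- 2 k - 1))`. -/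
noncomputable def S (c : ℕ → ℝ) (ρ : ℝ) (k : ℕ) : ℝ :=
  ∑' m : ℕ, c m * (((m : ℝ) + 1 - ρ)⁻¹ ^ (2 * k + 1) - ((m : ℝ) + 1 + ρ)⁻¹ ^ (2 * k + 1))

/-- `(2 k)! / k!`. -/
noncomputable def nu (k : ℕ) : ℝ := (2 * k).factorial / k.factorial

/-- The amplitude series. -/
noncomputable def amp (K τ : ℝ) (c : ℕ → ℝ) (ρ : ℝ) : ℝ⟦X⟧ :=
  PowerSeries.mk fun k => K * nu k * τ ^ k * S c ρ k

/-- The weight at the position `x`. -/
noncomputable def Dw (c : ℕ → ℝ) (ρ x : ℝ) : ℝ :=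
  ∑' m : ℕ, ((if (m : ℝ) + 1 - ρ = x then c m else 0) - (if (m : ℝ) + 1 + ρ = x then c m else 0))

/-- The leaf weights at a trivalent node. -/
def IsNode (p : Finset ℕ) : Prop :=
  p.card = 2 ∧ (∀ k ∈ p, 2 ≤ k) ∧ (p : Set ℕ).Pairwise Nat.Coprime

end Pool.Agent.H99.Spl
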