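import Pool.Agent.H99.Spl.Sec

open PowerSeries Finset
open Pool.Agent.H99.Seif

namespace Pool.Agent.H99.Spl

theorem hasExp_mono {A A' : ℝ} (hA : 0 < A) (h : A < A') {f a b : ℝ⟦X⟧} (hf : HasExp A f a b) :
    HasExp A' f 0 0 := by
  have hA' : 0 < A' := hA.trans h
  obtain ⟨C₁, h₁⟩ := hf 0
  refine hasExp_of_small (θ := A / A') (K := C₁) hA' (by positivity) ((div_lt_one hA').mpr h)
    fun m => ?_
  have h2 := h₁ m (Nat.zero_le m)
  rw [Finset.range_zero, Finset.sum_empty, sub_zero, Nat.sub_zero] at h2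
  refine h2.trans (le_of_eq ?_)
  unfold W
  rw [div_pow]
  have : A' ^ m ≠ 0 := (pow_pos hA' m).ne'
  field_simp

private theorem delta_split (f : ℝ⟦X⟧) :
    f = C (coeff 0 f) + X * PowerSeries.mk fun k => coeff (k + 1) f := by
  ext n
  cases n with
  | zero => simp
  | succ n =>
    rw [map_add, coeff_succ_X_mul, coeff_mk, coeff_C, if_neg (Nat.succ_ne_zero n), zero_add]

private theorem delta_mul {A : ℝ} (hA : 0 < A) {P g a : ℝ⟦X⟧} (hP : Hol 1 P)
    (hg : HasExp A g a 0) : HasExp A (P * g) (P * a) 0 := by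
  have h := hasExp_mul hA (hasExp_of_hol hA one_pos hP) hg
  simpa using h

private theorem delta_hol_C_mul {P : ℝ⟦X⟧} (hP : Hol 1 P) (c : ℝ) : Hol 1 (P * C c) :=
  hol_mul hP (hol_C 1 c)

private theorem delta_amp_pos {τ ρ : ℝ} (hτ : 0 < τ) (h1 : ρ < 1) : 0 < τ / (1 - ρ) ^ 2 := by
  have : 0 < 1 - ρ := by linarith
  positivity

private theorem delta_alpha {K τ ρ c0 : ℝ} (hK : K ≠ 0) (hτ : 0 < τ) (h1 : ρ < 1) (hc0 : c0 ≠ 0) :
    2 * K * τ * c0 / (1 - ρ) ^ 3 ≠ 0 := by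
  have : (1 - ρ) ^ 3 ≠ 0 := pow_ne_zero 3 (by linarith)
  have := hτ.ne'
  positivity

theorem amp_ne_zero {K τ ρ B : ℝ} (hK : K ≠ 0) (hτ : 0 < τ) (h0 : 0 < ρ) (h1 : ρ < 1) {c : ℕ → ℝ}
    (hc : ∀ m, |c m| ≤ B) (hc0 : c 0 ≠ 0) {h : ℝ⟦X⟧} (hh : h ≠ 0) (hol : Hol 1 h) :
    ¬ Hol 1 (h * amp K τ c ρ) := by
  intro hH
  have hA := delta_amp_pos hτ h1
  have hsec := amp_sec (K := K) hτ h0 h1 hc
  have hα := delta_alpha (K := K) hK hτ h1 hc0
  set g : ℝ⟦X⟧ := PowerSeries.mk fun k => coeff (k + 1) (amp K τ c ρ) with hg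
  set α : ℝ := 2 * K * τ * c 0 / (1 - ρ) ^ 3 with hαd
  have hsp := delta_split (amp K τ c ρ)
  have e1 : h * X * g = h * amp K τ c ρ - h * C (coeff 0 (amp K τ c ρ)) := by
    conv_rhs => rw [hsp]
    rw [← hg]
    simp only [map_add, coeff_zero_C, coeff_zero_X_mul, add_zero]
    ring
  have h2 : Hol 1 (h * X * g) := by
    rw [e1]
    exact hol_sub hH (delta_hol_C_mul hol _)
  have h3 := hasExp_of_hol hA one_pos h2
  have h4 := delta_mul hA (hol_mul hol (hol_X 1)) hsec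
  have h5 := (hasExp_unique hA h3 h4).1
  have h6 : h * X * C α ≠ 0 := by
    apply mul_ne_zero (mul_ne_zero hh X_ne_zero)
    intro h7
    apply hα
    have := congrArg (coeff 0) h7
    simpa using this
  exact h6 h5.symm

theorem delta {K τ ρ τ' ρ' B δ : ℝ} (hK : K ≠ 0) (hτ : 0 < τ) (h0 : 0 < ρ) (h1 : ρ < 1)
    (hτ' : 0 < τ') (h0' : 0 < ρ') (h1' : ρ' < 1) {c c' : ℕ → ℝ} (hc : ∀ m, |c m| ≤ B)
    (hc' : ∀ m, |c' m| ≤ B) (hc0 : c 0 ≠ 0) (hc0' : c' 0 ≠ 0)
    (h : rescale δ (exp ℝ) * amp K τ c ρ = amp K τ' c' ρ') : δ = 0 := by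
  have hA := delta_amp_pos hτ h1
  have hA' := delta_amp_pos hτ' h1'
  have hsec := amp_sec (K := K) hτ h0 h1 hc
  have hsec' := amp_sec (K := K) hτ' h0' h1' hc'
  have hα := delta_alpha (K := K) hK hτ h1 hc0
  have hα' := delta_alpha (K := K) hK hτ' h1' hc0'
  have hsp := delta_split (amp K τ c ρ)
  have hsp' := delta_split (amp K τ' c' ρ')
  set g : ℝ⟦X⟧ := PowerSeries.mk fun k => coeff (k + 1) (amp K τ c ρ) with hg
  set g' : ℝ⟦X⟧ := PowerSeries.mk fun k => coeff (k + 1) (amp K τ' c' ρ') with hg'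
  set α : ℝ := 2 * K * τ * c 0 / (1 - ρ) ^ 3 with hαd
  set α' : ℝ := 2 * K * τ' * c' 0 / (1 - ρ') ^ 3 with hαd'
  set A : ℝ := τ / (1 - ρ) ^ 2 with hAd
  set A' : ℝ := τ' / (1 - ρ') ^ 2 with hAd'
  set e : ℝ⟦X⟧ := rescale δ (exp ℝ) with he
  have hole : Hol 1 e := hol_exp δ
  have hne : e ≠ 0 := exp_ne_zero δ
  have heX : Hol 1 (e * X) := hol_mul hole (hol_X 1)
  rw [hsp, hsp'] at h
  generalize coeff 0 (amp K τ c ρ) = a0 at h
  generalize coeff 0 (amp K τ' c' ρ') = a0' at h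
  have hCne : ∀ x : ℝ, x ≠ 0 → (C x : ℝ⟦X⟧) ≠ 0 := by
    intro x hx h7
    apply hx
    have := congrArg (coeff 0) h7
    simpa using this
  -- the holomorphic remainder
  have hrem : Hol 1 (C a0' - e * C a0) := hol_sub (hol_C 1 _) (delta_hol_C_mul hole _)
  have e1 : e * X * g = X * g' + (C a0' - e * C a0) := by
    linear_combination h
  have e2 : X * g' = e * X * g - (C a0' - e * C a0) := by
    linear_combination -h
  rcases lt_trichotomy A A' with hlt | heq | hgt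
  · exfalso
    have k1 := hasExp_mono hA hlt hsec
    have k2 := delta_mul hA' heX k1
    have k3 := hasExp_sub k2 (hasExp_of_hol hA' one_pos hrem)
    rw [← e2] at k3
    have k4 := delta_mul hA' (hol_X 1) hsec'
    have k5 := (hasExp_unique hA' k3 k4).1
    have k6 : (X : ℝ⟦X⟧) * C α' ≠ 0 := mul_ne_zero X_ne_zero (hCne _ hα')
    apply k6
    rw [← k5]
    simp
  · have k2 := delta_mul hA heX hsec
    rw [← heq] at hsec'
    have k4 := hasExp_add (delta_mul hA (hol_X 1) hsec') (hasExp_of_hol hA one_pos hrem)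
    rw [← e1] at k4
    have k5 := (hasExp_unique hA k2 k4).1
    rw [add_zero] at k5
    have k6 : e * C α = C α' := by
      apply mul_left_cancel₀ (X_ne_zero : (X : ℝ⟦X⟧) ≠ 0)
      rw [← k5]
      ring
    have k7 := congrArg (coeff 1) k6
    rw [coeff_mul_C, coeff_C, if_neg one_ne_zero, he, coeff_rescale, coeff_exp] at k7
    simp at k7
    rcases k7 with k7 | k7
    · exact k7
    · exact absurd k7 hα
  · exfalso
    have k1 := hasExp_mono hA' hgt hsec'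
    have k2 := delta_mul hA (hol_X 1) k1
    have k3 := hasExp_add k2 (hasExp_of_hol hA one_pos hrem)
    rw [← e1] at k3
    have k4 := delta_mul hA heX hsec
    have k5 := (hasExp_unique hA k3 k4).1
    have k6 : e * X * C α ≠ 0 := mul_ne_zero (mul_ne_zero hne X_ne_zero) (hCne _ hα)
    apply k6
    rw [← k5]
    simp

end Pool.Agent.H99.Spl
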