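import Pool.Agent.H99.Spl.Defs

open PowerSeries Finset
open Pool.Agent.H99.Seif

namespace Pool.Agent.H99.Spl

private theorem fcq_summable : Summable fun m : ℕ => (((m : ℝ) + 1) ^ 2)⁻¹ := by
  have h := (summable_nat_add_iff 1).mpr (Real.summable_nat_pow_inv.mpr (by norm_num : 1 < 2))
  refine h.congr fun m => ?_
  push_cast
  rfl

private theorem fcq_summable2 : Summable fun m : ℕ => (((m : ℝ) + 2) ^ 2)⁻¹ := by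
  have h := (summable_nat_add_iff 2).mpr (Real.summable_nat_pow_inv.mpr (by norm_num : 1 < 2))
  refine h.congr fun m => ?_
  push_cast
  rfl

private theorem fcq_nonneg {c : ℕ → ℝ} {B : ℝ} (hc : ∀ m, |c m| ≤ B) : 0 ≤ B :=
  (abs_nonneg _).trans (hc 0)

private theorem fc_term {c : ℕ → ℝ} {B : ℝ} (hc : ∀ m, |c m| ≤ B) (i m : ℕ) :
    ‖c m * (4 * Real.pi ^ 2 * ((m : ℝ) + 1) ^ 2)⁻¹ ^ (i + 1)‖ ≤
      B * (4 * Real.pi ^ 2)⁻¹ ^ (i + 1) * (((m : ℝ) + 1) ^ 2)⁻¹ := by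
  have hB := fcq_nonneg hc
  have hpi := Real.pi_pos
  have h1 : (1 : ℝ) ≤ ((m : ℝ) + 1) ^ 2 := by
    have : (0 : ℝ) ≤ m := by positivity
    nlinarith
  have h2 : (((m : ℝ) + 1) ^ 2)⁻¹ ≤ 1 := inv_le_one_of_one_le₀ h1
  have h3 : (((m : ℝ) + 1) ^ 2)⁻¹ ^ (i + 1) ≤ (((m : ℝ) + 1) ^ 2)⁻¹ := by
    rw [pow_succ]
    calc (((m : ℝ) + 1) ^ 2)⁻¹ ^ i * (((m : ℝ) + 1) ^ 2)⁻¹ ≤ 1 * (((m : ℝ) + 1) ^ 2)⁻¹ := by
          apply mul_le_mul_of_nonneg_right _ (by positivity)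
          exact pow_le_one₀ (by positivity) h2
      _ = _ := one_mul _
  rw [Real.norm_eq_abs, abs_mul, mul_inv, mul_pow]
  rw [abs_of_nonneg (by positivity :
    0 ≤ (4 * Real.pi ^ 2)⁻¹ ^ (i + 1) * (((m : ℝ) + 1) ^ 2)⁻¹ ^ (i + 1)), ← mul_assoc]
  apply mul_le_mul _ h3 (by positivity) (by positivity)
  exact mul_le_mul_of_nonneg_right (hc m) (by positivity)

theorem fc_summable {c : ℕ → ℝ} {B : ℝ} (hc : ∀ m, |c m| ≤ B) (i : ℕ) :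
    Summable fun m : ℕ => c m * (4 * Real.pi ^ 2 * ((m : ℝ) + 1) ^ 2)⁻¹ ^ (i + 1) :=
  Summable.of_norm_bounded (fcq_summable.mul_left _) (fc_term hc i)

theorem fc_le {c : ℕ → ℝ} {B : ℝ} (hc : ∀ m, |c m| ≤ B) :
    ∃ F : ℝ, ∀ i, |fc c i| ≤ F * (4 * Real.pi ^ 2)⁻¹ ^ i := by
  refine ⟨B * (4 * Real.pi ^ 2)⁻¹ * ∑' m : ℕ, (((m : ℝ) + 1) ^ 2)⁻¹, fun i => ?_⟩
  have h := tsum_of_norm_bounded
    ((fcq_summable.mul_left (B * (4 * Real.pi ^ 2)⁻¹ ^ (i + 1))).hasSum) (fc_term hc i)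
  rw [Real.norm_eq_abs] at h
  refine h.trans (le_of_eq ?_)
  rw [tsum_mul_left, pow_succ]
  ring

theorem fc_rest {c : ℕ → ℝ} {B : ℝ} (hc : ∀ m, |c m| ≤ B) :
    ∃ F : ℝ, ∀ i, |fc c i - c 0 * (4 * Real.pi ^ 2)⁻¹ ^ (i + 1)| ≤
      F * (4 * (4 * Real.pi ^ 2))⁻¹ ^ i := by
  refine ⟨B * (4 * Real.pi ^ 2)⁻¹ * ∑' m : ℕ, (((m : ℝ) + 2) ^ 2)⁻¹, fun i => ?_⟩
  have hB := fcq_nonneg hc
  have hpi := Real.pi_pos
  have h0 : fc c i - c 0 * (4 * Real.pi ^ 2)⁻¹ ^ (i + 1) =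
      ∑' m : ℕ, c (m + 1) * (4 * Real.pi ^ 2 * (((m + 1 : ℕ) : ℝ) + 1) ^ 2)⁻¹ ^ (i + 1) := by
    unfold fc
    rw [(fc_summable hc i).tsum_eq_zero_add]
    simp
  rw [h0]
  have hterm : ∀ m : ℕ,
      ‖c (m + 1) * (4 * Real.pi ^ 2 * (((m + 1 : ℕ) : ℝ) + 1) ^ 2)⁻¹ ^ (i + 1)‖ ≤
      B * (4 * Real.pi ^ 2)⁻¹ * (4 * (4 * Real.pi ^ 2))⁻¹ ^ i * (((m : ℝ) + 2) ^ 2)⁻¹ := by
    intro m
    have e1 : (((m + 1 : ℕ) : ℝ) + 1) = (m : ℝ) + 2 := by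
      push_cast
      ring
    rw [e1]
    have h1 : (4 : ℝ) ≤ ((m : ℝ) + 2) ^ 2 := by
      have : (0 : ℝ) ≤ m := by positivity
      nlinarith
    have h2 : (((m : ℝ) + 2) ^ 2)⁻¹ ≤ 4⁻¹ := inv_anti₀ (by norm_num) h1
    have h3 : (((m : ℝ) + 2) ^ 2)⁻¹ ^ (i + 1) ≤ 4⁻¹ ^ i * (((m : ℝ) + 2) ^ 2)⁻¹ := by
      rw [pow_succ]
      apply mul_le_mul_of_nonneg_right _ (by positivity)
      exact pow_le_pow_left₀ (by positivity) h2 i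
    rw [Real.norm_eq_abs, abs_mul, mul_inv, mul_pow]
    rw [abs_of_nonneg (by positivity :
      0 ≤ (4 * Real.pi ^ 2)⁻¹ ^ (i + 1) * (((m : ℝ) + 2) ^ 2)⁻¹ ^ (i + 1)), ← mul_assoc]
    have h4 : |c (m + 1)| * (4 * Real.pi ^ 2)⁻¹ ^ (i + 1) * (((m : ℝ) + 2) ^ 2)⁻¹ ^ (i + 1) ≤
        B * (4 * Real.pi ^ 2)⁻¹ ^ (i + 1) * (4⁻¹ ^ i * (((m : ℝ) + 2) ^ 2)⁻¹) := by
      apply mul_le_mul _ h3 (by positivity) (by positivity)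
      exact mul_le_mul_of_nonneg_right (hc (m + 1)) (by positivity)
    refine h4.trans (le_of_eq ?_)
    have e2 : (4 * (4 * Real.pi ^ 2))⁻¹ = 4⁻¹ * (4 * Real.pi ^ 2)⁻¹ := mul_inv _ _
    rw [e2, mul_pow, pow_succ]
    generalize (4 * Real.pi ^ 2)⁻¹ = P
    ring
  have h := tsum_of_norm_bounded ((fcq_summable2.mul_left
    (B * (4 * Real.pi ^ 2)⁻¹ * (4 * (4 * Real.pi ^ 2))⁻¹ ^ i)).hasSum) hterm
  rw [Real.norm_eq_abs] at h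
  refine h.trans (le_of_eq ?_)
  rw [tsum_mul_left]
  ring

theorem fc_add {c d : ℕ → ℝ} {B : ℝ} (hc : ∀ m, |c m| ≤ B) (hd : ∀ m, |d m| ≤ B) (s t : ℝ)
    (i : ℕ) : fc (fun m => s * c m + t * d m) i = s * fc c i + t * fc d i := by
  unfold fc
  rw [← tsum_mul_left, ← tsum_mul_left,
    ← ((fc_summable hc i).mul_left s).tsum_add ((fc_summable hd i).mul_left t)]
  refine tsum_congr fun m => ?_
  ring

private theorem fcq_pow {u v M : ℝ} (hv : 0 ≤ v) (hvu : v ≤ u) (huM : u ≤ M) (n : ℕ) :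
    0 ≤ u ^ (n + 1) - v ^ (n + 1) ∧ u ^ (n + 1) - v ^ (n + 1) ≤ (n + 1) * M ^ n * (u - v) := by
  induction n with
  | zero =>
    constructor
    · simp only [zero_add, pow_one]
      linarith
    · simp
  | succ n ih =>
    have hu : 0 ≤ u := hv.trans hvu
    have hM : 0 ≤ M := hu.trans huM
    have h1 : u ^ (n + 1 + 1) - v ^ (n + 1 + 1) =
        u * (u ^ (n + 1) - v ^ (n + 1)) + v ^ (n + 1) * (u - v) := by ring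
    rw [h1]
    have h2 : 0 ≤ u - v := by linarith
    constructor
    · have := ih.1
      positivity
    · have h3 : u * (u ^ (n + 1) - v ^ (n + 1)) ≤ M * ((n + 1) * M ^ n * (u - v)) :=
        mul_le_mul huM ih.2 ih.1 hM
      have h4 : v ^ (n + 1) * (u - v) ≤ M ^ (n + 1) * (u - v) :=
        mul_le_mul_of_nonneg_right (pow_le_pow_left₀ hv (hvu.trans huM) _) h2
      calc _ ≤ M * ((n + 1) * M ^ n * (u - v)) + M ^ (n + 1) * (u - v) := add_le_add h3 h4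
        _ = (((n + 1 : ℕ) : ℝ) + 1) * M ^ (n + 1) * (u - v) := by
            push_cast
            ring

theorem S_summable {c : ℕ → ℝ} {B ρ : ℝ} (hc : ∀ m, |c m| ≤ B) (h0 : 0 < ρ) (h1 : ρ < 1) (k : ℕ) :
    Summable fun m : ℕ =>
      c m * (((m : ℝ) + 1 - ρ)⁻¹ ^ (2 * k + 1) - ((m : ℝ) + 1 + ρ)⁻¹ ^ (2 * k + 1)) := by
  have hB := fcq_nonneg hc
  refine Summable.of_norm_bounded (fcq_summable.mul_left
    (B * (((2 * k : ℕ) : ℝ) + 1) * (1 - ρ)⁻¹ ^ (2 * k) * (2 * ρ * (1 - ρ)⁻¹))) fun m => ?_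
  have hm : (0 : ℝ) ≤ m := by positivity
  have hr : 0 < 1 - ρ := by linarith
  have hu0 : 0 < (m : ℝ) + 1 - ρ := by linarith
  have hv0 : 0 < (m : ℝ) + 1 + ρ := by linarith
  have hvu : ((m : ℝ) + 1 + ρ)⁻¹ ≤ ((m : ℝ) + 1 - ρ)⁻¹ := inv_anti₀ hu0 (by linarith)
  have huM : ((m : ℝ) + 1 - ρ)⁻¹ ≤ (1 - ρ)⁻¹ := inv_anti₀ hr (by linarith)
  obtain ⟨h2, h3⟩ := fcq_pow (inv_nonneg.mpr hv0.le) hvu huM (2 * k)
  have h4 : ((m : ℝ) + 1 - ρ)⁻¹ - ((m : ℝ) + 1 + ρ)⁻¹ ≤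
      2 * ρ * (1 - ρ)⁻¹ * (((m : ℝ) + 1) ^ 2)⁻¹ := by
    have e1 : ((m : ℝ) + 1 - ρ)⁻¹ - ((m : ℝ) + 1 + ρ)⁻¹ =
        2 * ρ * (((m : ℝ) + 1 - ρ) * ((m : ℝ) + 1 + ρ))⁻¹ := by
      field_simp
      ring
    rw [e1, mul_assoc (2 * ρ), ← mul_inv]
    apply mul_le_mul_of_nonneg_left _ (by positivity)
    apply inv_anti₀ (by positivity)
    nlinarith [mul_nonneg hm h0.le, mul_nonneg (mul_nonneg hm hm) h0.le]
  rw [Real.norm_eq_abs, abs_mul, abs_of_nonneg h2]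
  calc |c m| * (((m : ℝ) + 1 - ρ)⁻¹ ^ (2 * k + 1) - ((m : ℝ) + 1 + ρ)⁻¹ ^ (2 * k + 1)) ≤
      B * ((((2 * k : ℕ) : ℝ) + 1) * (1 - ρ)⁻¹ ^ (2 * k) *
        (2 * ρ * (1 - ρ)⁻¹ * (((m : ℝ) + 1) ^ 2)⁻¹)) := by
        apply mul_le_mul (hc m) _ h2 hB
        exact h3.trans (mul_le_mul_of_nonneg_left h4 (by positivity))
    _ = _ := by ring

theorem S_add {c d : ℕ → ℝ} {B ρ : ℝ} (hc : ∀ m, |c m| ≤ B) (hd : ∀ m, |d m| ≤ B) (h0 : 0 < ρ)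
    (h1 : ρ < 1) (s t : ℝ) (k : ℕ) :
    S (fun m => s * c m + t * d m) ρ k = s * S c ρ k + t * S d ρ k := by
  unfold S
  rw [← tsum_mul_left, ← tsum_mul_left,
    ← ((S_summable hc h0 h1 k).mul_left s).tsum_add ((S_summable hd h0 h1 k).mul_left t)]
  refine tsum_congr fun m => ?_
  ring

end Pool.Agent.H99.Spl
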