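import Pool.Agent.H99.Spl.Defs

open PowerSeries Finset
open Pool.Agent.H99.Seif

namespace Pool.Agent.H99.Spl

private theorem gegen_der (ρ : ℝ) (M : ℕ) :
    Polynomial.derivative ((1 + Polynomial.C (2 * ρ) * Polynomial.X + Polynomial.X ^ 2 :
      Polynomial ℝ) ^ M) * (1 + Polynomial.C (2 * ρ) * Polynomial.X + Polynomial.X ^ 2) =
    Polynomial.C ((M : ℝ) * (2 * ρ)) * (1 + Polynomial.C (2 * ρ) * Polynomial.X +
      Polynomial.X ^ 2) ^ M + Polynomial.C ((M : ℝ) * 2) *
      ((1 + Polynomial.C (2 * ρ) * Polynomial.X + Polynomial.X ^ 2) ^ M * Polynomial.X) := by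
  rcases M with _ | M
  · simp
  · have hd : Polynomial.derivative (1 + Polynomial.C (2 * ρ) * Polynomial.X +
        Polynomial.X ^ 2 : Polynomial ℝ) = Polynomial.C (2 * ρ) +
        Polynomial.C 2 * Polynomial.X := by
      simp only [Polynomial.derivative_add, Polynomial.derivative_one,
        Polynomial.derivative_C_mul, Polynomial.derivative_X, Polynomial.derivative_X_pow]
      simp
    rw [Polynomial.derivative_pow, hd, Nat.add_sub_cancel, pow_succ]
    simp only [map_mul, map_natCast]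
    ring

private theorem gegen_rec (ρ : ℝ) (M k : ℕ) :
    ((k : ℝ) + 2) * ((1 + Polynomial.C (2 * ρ) * Polynomial.X + Polynomial.X ^ 2 :
      Polynomial ℝ) ^ M).coeff (k + 2) + 2 * ρ * (k + 1) *
      ((1 + Polynomial.C (2 * ρ) * Polynomial.X + Polynomial.X ^ 2 :
      Polynomial ℝ) ^ M).coeff (k + 1) + k *
      ((1 + Polynomial.C (2 * ρ) * Polynomial.X + Polynomial.X ^ 2 :
      Polynomial ℝ) ^ M).coeff k =
    2 * M * ρ * ((1 + Polynomial.C (2 * ρ) * Polynomial.X + Polynomial.X ^ 2 :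
      Polynomial ℝ) ^ M).coeff (k + 1) + 2 * M *
      ((1 + Polynomial.C (2 * ρ) * Polynomial.X + Polynomial.X ^ 2 :
      Polynomial ℝ) ^ M).coeff k := by
  have h := congrArg (fun q => Polynomial.coeff q (k + 1)) (gegen_der ρ M)
  generalize ((1 + Polynomial.C (2 * ρ) * Polynomial.X + Polynomial.X ^ 2 :
      Polynomial ℝ) ^ M) = Q at h ⊢
  have e1 : (Polynomial.derivative Q * (1 + Polynomial.C (2 * ρ) * Polynomial.X +
      Polynomial.X ^ 2)) = Polynomial.derivative Q + Polynomial.C (2 * ρ) *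
      (Polynomial.derivative Q * Polynomial.X) + Polynomial.derivative Q * Polynomial.X ^ 2 := by
    ring
  simp only [e1, Polynomial.coeff_add, Polynomial.coeff_C_mul, Polynomial.coeff_mul_X,
    Polynomial.coeff_derivative] at h
  have e2 : (Polynomial.derivative Q * Polynomial.X ^ 2).coeff (k + 1) = k * Q.coeff k := by
    rw [Polynomial.coeff_mul_X_pow']
    rcases k with _ | k
    · simp
    · rw [if_pos (by omega), Polynomial.coeff_derivative]
      have : k + 1 + 1 - 2 + 1 = k + 1 := by omega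
      rw [this]
      have h3 : k + 1 + 1 - 2 = k := by omega
      rw [h3]
      push_cast
      ring
  rw [e2] at h
  push_cast at h
  linarith

private theorem gegen_zero (ρ : ℝ) (M : ℕ) :
    ((1 + Polynomial.C (2 * ρ) * Polynomial.X + Polynomial.X ^ 2 :
      Polynomial ℝ) ^ M).coeff 0 = 1 := by
  rw [Polynomial.coeff_zero_eq_eval_zero]
  simp

private theorem gegen_one (ρ : ℝ) (M : ℕ) :
    ((1 + Polynomial.C (2 * ρ) * Polynomial.X + Polynomial.X ^ 2 :
      Polynomial ℝ) ^ M).coeff 1 = 2 * M * ρ := by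
  have h := congrArg (fun q => Polynomial.coeff q 0) (gegen_der ρ M)
  have h0 := gegen_zero ρ M
  generalize ((1 + Polynomial.C (2 * ρ) * Polynomial.X + Polynomial.X ^ 2 :
      Polynomial ℝ) ^ M) = Q at h h0 ⊢
  have e1 : (Polynomial.derivative Q * (1 + Polynomial.C (2 * ρ) * Polynomial.X +
      Polynomial.X ^ 2)) = Polynomial.derivative Q + Polynomial.C (2 * ρ) *
      (Polynomial.derivative Q * Polynomial.X) + Polynomial.derivative Q * Polynomial.X ^ 2 := by
    ring
  simp only [e1, Polynomial.coeff_add, Polynomial.coeff_C_mul, Polynomial.coeff_mul_X_zero,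
    Polynomial.coeff_derivative] at h
  have e2 : (Polynomial.derivative Q * Polynomial.X ^ 2).coeff 0 = 0 := by
    rw [Polynomial.coeff_mul_X_pow']
    simp
  rw [e2, h0] at h
  simp at h
  linarith

private theorem gegen_aux {ρ : ℝ} (h0 : 0 < ρ) (h1 : ρ < 1) (M : ℕ) (b : ℕ) (hb : b + 1 ≤ M) :
    ((1 + Polynomial.C (2 * ρ) * Polynomial.X + Polynomial.X ^ 2 : Polynomial ℝ) ^ M).coeff b ≤
        ((2 + ρ) / 3) ^ (min b (M / 2)) * ((2 * M).choose b : ℝ) ∧
    ((1 + Polynomial.C (2 * ρ) * Polynomial.X + Polynomial.X ^ 2 : Polynomial ℝ) ^ M).coeff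
      (b + 1) ≤ ((2 + ρ) / 3) ^ (min (b + 1) (M / 2)) * ((2 * M).choose (b + 1) : ℝ) := by
  have hη0 : 0 < (2 + ρ) / 3 := by positivity
  have hη1 : (2 + ρ) / 3 < 1 := by linarith
  have hηρ : ρ ≤ (2 + ρ) / 3 := by linarith
  induction b with
  | zero =>
    constructor
    · rw [gegen_zero]
      simp
    · simp only [zero_add]
      rw [gegen_one]
      have : ρ ≤ ((2 + ρ) / 3) ^ (min 1 (M / 2)) := by
        rcases Nat.eq_zero_or_pos (M / 2) with h | h
        · rw [h]
          simp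
          linarith
        · rw [Nat.min_eq_left h]
          simpa using hηρ
      have h2 : ((2 * M).choose 1 : ℝ) = 2 * M := by
        rw [Nat.choose_one_right]
        push_cast
        ring
      rw [h2]
      have hM : (0 : ℝ) ≤ 2 * M := by positivity
      nlinarith
  | succ b ih =>
    obtain ⟨ha, hc⟩ := ih (by omega)
    refine ⟨hc, ?_⟩
    have hr := gegen_rec ρ M b
    have e1 : ((2 * M).choose (b + 2) : ℝ) * (b + 2) =
        ((2 * M).choose (b + 1) : ℝ) * (2 * M - (b + 1)) := by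
      have := Nat.choose_succ_right_eq (2 * M) (b + 1)
      have h2 : ((2 * M - (b + 1) : ℕ) : ℝ) = 2 * M - (b + 1) := by
        rw [Nat.cast_sub (by omega)]
        push_cast
        ring
      rw [← h2]
      exact_mod_cast this
    have e2 : ((2 * M).choose (b + 1) : ℝ) * (b + 1) =
        ((2 * M).choose b : ℝ) * (2 * M - b) := by
      have := Nat.choose_succ_right_eq (2 * M) b
      have h2 : ((2 * M - b : ℕ) : ℝ) = 2 * M - b := by
        rw [Nat.cast_sub (by omega)]
        push_cast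
        ring
      rw [← h2]
      exact_mod_cast this
    generalize ((1 + Polynomial.C (2 * ρ) * Polynomial.X + Polynomial.X ^ 2 :
      Polynomial ℝ) ^ M) = Q at ha hc hr ⊢
    have hM1 : ((b : ℝ) + 1) + 1 ≤ M := by exact_mod_cast hb
    have hC1 : (0 : ℝ) < ((2 * M).choose (b + 1) : ℝ) := by
      exact_mod_cast Nat.choose_pos (by omega)
    -- the numerical inequality
    have key : 2 * ρ * (M - (b + 1)) * ((2 + ρ) / 3) ^ (min (b + 1) (M / 2)) +
        (b + 1) * ((2 + ρ) / 3) ^ (min b (M / 2)) ≤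
        (2 * M - (b + 1)) * ((2 + ρ) / 3) ^ (min (b + 2) (M / 2)) := by
      by_cases hbm : b + 1 ≤ M / 2
      · have h3 : min (b + 1) (M / 2) = b + 1 := Nat.min_eq_left hbm
        have h4 : min b (M / 2) = b := Nat.min_eq_left (by omega)
        rw [h3, h4]
        have h5 : ((2 + ρ) / 3) ^ (b + 2) ≤ ((2 + ρ) / 3) ^ (min (b + 2) (M / 2)) :=
          pow_le_pow_of_le_one hη0.le hη1.le (Nat.min_le_left _ _)
        have h6 : (2 * M - (b + 1)) * ((2 + ρ) / 3) ^ (b + 2) ≤
            (2 * M - (b + 1)) * ((2 + ρ) / 3) ^ (min (b + 2) (M / 2)) :=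
          mul_le_mul_of_nonneg_left h5 (by linarith)
        refine le_trans ?_ h6
        have h7 : (2 : ℝ) * (b + 1) ≤ M := by
          have : 2 * (b + 1) ≤ M := by omega
          exact_mod_cast this
        have hp : 0 < ((2 + ρ) / 3) ^ b := by positivity
        have h8 : 2 * ρ * (M - (b + 1)) * ((2 + ρ) / 3) + (b + 1) ≤
            (2 * M - (b + 1)) * ((2 + ρ) / 3) ^ 2 := by
          have hid : (2 * M - (b + 1)) * ((2 + ρ) / 3) ^ 2 -
              (2 * ρ * (M - (b + 1)) * ((2 + ρ) / 3) + (b + 1)) =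
              (M - 2 * (b + 1)) * (2 * ((2 + ρ) / 3) * (((2 + ρ) / 3) - ρ)) +
              (b + 1) * ((1 - ρ ^ 2) / 3) := by ring
          have t1 : 0 ≤ ((M : ℝ) - 2 * (b + 1)) * (2 * ((2 + ρ) / 3) * (((2 + ρ) / 3) - ρ)) := by
            apply mul_nonneg (by linarith)
            apply mul_nonneg (by positivity) (by linarith)
          have t2 : 0 ≤ ((b : ℝ) + 1) * ((1 - ρ ^ 2) / 3) := by
            apply mul_nonneg (by positivity)
            nlinarith
          linarith
        calc _ = ((2 + ρ) / 3) ^ b * (2 * ρ * (M - (b + 1)) * ((2 + ρ) / 3) + (b + 1)) := by ring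
          _ ≤ ((2 + ρ) / 3) ^ b * ((2 * M - (b + 1)) * ((2 + ρ) / 3) ^ 2) :=
              mul_le_mul_of_nonneg_left h8 hp.le
          _ = _ := by ring
      · have h3 : min (b + 1) (M / 2) = M / 2 := Nat.min_eq_right (by omega)
        have h4 : min b (M / 2) = M / 2 := Nat.min_eq_right (by omega)
        have h5 : min (b + 2) (M / 2) = M / 2 := Nat.min_eq_right (by omega)
        rw [h3, h4, h5]
        have hp : 0 < ((2 + ρ) / 3) ^ (M / 2) := by positivity
        have h8 : 2 * ρ * (M - (b + 1)) + (b + 1) ≤ 2 * M - ((b : ℝ) + 1) := by nlinarith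
        calc _ = ((2 + ρ) / 3) ^ (M / 2) * (2 * ρ * (M - (b + 1)) + (b + 1)) := by ring
          _ ≤ ((2 + ρ) / 3) ^ (M / 2) * (2 * M - ((b : ℝ) + 1)) :=
              mul_le_mul_of_nonneg_left h8 hp.le
          _ = _ := by ring
    have hmb : (0 : ℝ) ≤ M - (b + 1) := by linarith
    have hstep : ((b : ℝ) + 2) * Q.coeff (b + 2) ≤
        ((2 + ρ) / 3) ^ (min (b + 2) (M / 2)) * (((2 * M).choose (b + 2) : ℝ) * (b + 2)) := by
      have s1 : ((b : ℝ) + 2) * Q.coeff (b + 2) =
          2 * ρ * (M - (b + 1)) * Q.coeff (b + 1) + (2 * M - b) * Q.coeff b := by linarith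
      rw [s1, e1]
      have s2 : 2 * ρ * (M - (b + 1)) * Q.coeff (b + 1) ≤ 2 * ρ * (M - (b + 1)) *
          (((2 + ρ) / 3) ^ (min (b + 1) (M / 2)) * ((2 * M).choose (b + 1) : ℝ)) :=
        mul_le_mul_of_nonneg_left hc (by positivity)
      have s3 : (2 * M - b) * Q.coeff b ≤ (2 * M - b) *
          (((2 + ρ) / 3) ^ (min b (M / 2)) * ((2 * M).choose b : ℝ)) :=
        mul_le_mul_of_nonneg_left ha (by linarith)
      have s4 : (2 * M - (b : ℝ)) *
          (((2 + ρ) / 3) ^ (min b (M / 2)) * ((2 * M).choose b : ℝ)) =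
          ((2 + ρ) / 3) ^ (min b (M / 2)) * (((2 * M).choose (b + 1) : ℝ) * (b + 1)) := by
        rw [e2]
        ring
      have s5 := mul_le_mul_of_nonneg_left key hC1.le
      nlinarith
    have hb2 : (0 : ℝ) < (b : ℝ) + 2 := by positivity
    have : ((b : ℝ) + 2) * Q.coeff (b + 2) ≤ ((b : ℝ) + 2) *
        (((2 + ρ) / 3) ^ (min (b + 2) (M / 2)) * ((2 * M).choose (b + 2) : ℝ)) := by linarith
    exact le_of_mul_le_mul_left this hb2

theorem gegen {ρ : ℝ} (h0 : 0 < ρ) (h1 : ρ < 1) : ∃ K η : ℝ, 0 < K ∧ 0 < η ∧ η < 1 ∧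
    ∀ M b : ℕ, b ≤ M →
      ((1 + Polynomial.C (2 * ρ) * Polynomial.X + Polynomial.X ^ 2 : Polynomial ℝ) ^ M).coeff b ≤
        K * η ^ b * ((2 * M).choose b : ℝ) := by
  set η1 : ℝ := (2 + ρ) / 3 with hη1d
  set η : ℝ := (1 + η1) / 2 with hηd
  have hη1p : 0 < η1 := by positivity
  have hη1l : η1 < 1 := by
    rw [hη1d]
    linarith
  have hηp : 0 < η := by positivity
  have hηl : η < 1 := by
    rw [hηd]
    linarith
  have hηη1 : η1 ≤ η := by
    rw [hηd]
    linarith
  have hsq : η1 ≤ η ^ 2 := by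
    rw [hηd]
    nlinarith [sq_nonneg (1 - η1)]
  have hK1 : 1 ≤ η⁻¹ := (one_le_inv₀ hηp).mpr hηl.le
  refine ⟨η⁻¹, η, by positivity, hηp, hηl, ?_⟩
  intro M b hb
  -- comparison of the exponents
  have hcmp : η1 ^ (min b (M / 2)) ≤ η⁻¹ * η ^ b := by
    by_cases hbm : b ≤ M / 2
    · rw [Nat.min_eq_left hbm]
      calc η1 ^ b ≤ η ^ b := pow_le_pow_left₀ hη1p.le hηη1 b
        _ ≤ η⁻¹ * η ^ b := le_mul_of_one_le_left (by positivity) hK1
    · rw [Nat.min_eq_right (by omega)]
      obtain ⟨c, rfl⟩ : ∃ c, b = c + 1 := ⟨b - 1, by omega⟩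
      have h2 : η⁻¹ * η ^ (c + 1) = η ^ c := by
        rw [pow_succ]
        field_simp
      rw [h2]
      calc η1 ^ (M / 2) ≤ (η ^ 2) ^ (M / 2) := pow_le_pow_left₀ hη1p.le hsq _
        _ = η ^ (2 * (M / 2)) := by rw [← pow_mul]
        _ ≤ η ^ c := pow_le_pow_of_le_one hηp.le hηl.le (by omega)
  have hch : (0 : ℝ) ≤ ((2 * M).choose b : ℝ) := by positivity
  have hmain : ((1 + Polynomial.C (2 * ρ) * Polynomial.X + Polynomial.X ^ 2 :
      Polynomial ℝ) ^ M).coeff b ≤ η1 ^ (min b (M / 2)) * ((2 * M).choose b : ℝ) := by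
    rcases Nat.lt_or_ge b M with h | h
    · exact (gegen_aux h0 h1 M b (by omega)).1
    · obtain rfl : b = M := le_antisymm hb h
      rcases Nat.eq_zero_or_pos b with h | h
      · subst h
        simp
      · obtain ⟨c, rfl⟩ : ∃ c, b = c + 1 := ⟨b - 1, by omega⟩
        exact (gegen_aux h0 h1 (c + 1) c le_rfl).2
  exact hmain.trans (mul_le_mul_of_nonneg_right hcmp hch)

end Pool.Agent.H99.Spl
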