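import Pool.Agent.H99.Spl.MomTail

open PowerSeries Finset
open Pool.Agent.H99.Seif

namespace Pool.Agent.H99.Spl

/-- The tail of a series dominated by a geometric series. -/
private theorem hm_tail {T : ℕ → ℝ} {C θ : ℝ} (h0 : 0 ≤ θ) (h1 : θ < 1)
    (hT : ∀ l, |T l| ≤ C * θ ^ l) (N : ℕ) :
    |∑ l ∈ range N, T l - ∑' l, T l| ≤ C * (1 - θ)⁻¹ * θ ^ N := by
  have hgeo : Summable fun l : ℕ => C * θ ^ l := (summable_geometric_of_lt_one h0 h1).mul_left C
  have hs : Summable T := Summable.of_norm_bounded hgeo hT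
  have h2 := hs.sum_add_tsum_nat_add N
  have h3 : HasSum (fun i : ℕ => C * θ ^ N * θ ^ i) (C * θ ^ N * (1 - θ)⁻¹) :=
    (hasSum_geometric_of_lt_one h0 h1).mul_left _
  have h4 : ‖∑' i, T (i + N)‖ ≤ C * θ ^ N * (1 - θ)⁻¹ := by
    apply tsum_of_norm_bounded h3
    intro i
    refine (hT (i + N)).trans (le_of_eq ?_)
    rw [pow_add]; ring
  rw [← h2]
  have h5 : ∑ l ∈ range N, T l - (∑ i ∈ range N, T i + ∑' i, T (i + N)) = -∑' i, T (i + N) := by
    ring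
  rw [h5, abs_neg]
  calc |∑' i, T (i + N)| ≤ C * θ ^ N * (1 - θ)⁻¹ := h4
    _ = _ := by ring

/-- The terms of the amplitude series decay geometrically. -/
private theorem hm_term {ρ σ y G : ℝ} (hρ0 : 0 < ρ) (hρ1 : ρ < 1) (hσ : 0 ≤ σ) (hy : 0 < y)
    {g : ℕ → ℝ} (hg : ∀ j, |g j| ≤ G * y⁻¹ ^ j) (k : ℕ) :
    ∃ C : ℝ, 0 ≤ C ∧ ∀ l : ℕ, |g (k + l) * y ^ l * Dk ρ σ k (k + l)| ≤ C * ρ ^ l := by
  have hG : 0 ≤ G := by
    have := (abs_nonneg (g 0)).trans (hg 0)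
    simpa using this
  have h1 := (tendsto_pow_const_mul_const_pow_of_lt_one (2 * k) hρ0.le hρ1).bddAbove_range
  obtain ⟨B, hB⟩ := h1
  have hB' : ∀ n : ℕ, (n : ℝ) ^ (2 * k) * ρ ^ n ≤ B := fun n => hB ⟨n, rfl⟩
  have hB0 : 0 ≤ B := le_trans (by positivity) (hB' 0)
  refine ⟨G * y⁻¹ ^ k * (σ ^ k / k.factorial) * ((2 * k + 2 : ℝ) ^ (2 * k) * B), by positivity,
    fun l => ?_⟩
  have h2 : |g (k + l) * y ^ l| ≤ G * y⁻¹ ^ k := by
    rw [abs_mul, abs_of_pos (pow_pos hy l)]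
    calc |g (k + l)| * y ^ l ≤ G * y⁻¹ ^ (k + l) * y ^ l :=
          mul_le_mul_of_nonneg_right (hg _) (by positivity)
      _ = G * y⁻¹ ^ k * (y⁻¹ * y) ^ l := by rw [pow_add, mul_pow]; ring
      _ = G * y⁻¹ ^ k := by rw [inv_mul_cancel₀ hy.ne', one_pow, mul_one]
  have e1 : 2 * (k + l) + 1 - 2 * k = 2 * l + 1 := by omega
  have h3 : ((2 * (k + l) + 1).factorial : ℝ) / ((2 * (k + l) + 1 - 2 * k).factorial : ℝ) ≤
      ((2 * k + 2 : ℝ) * ((l : ℝ) + 1)) ^ (2 * k) := by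
    have h4 := Nat.factorial_mul_descFactorial (show 2 * k ≤ 2 * (k + l) + 1 by omega)
    have h5 : ((2 * (k + l) + 1).factorial : ℝ) =
        ((2 * (k + l) + 1 - 2 * k).factorial : ℝ) *
          (((2 * (k + l) + 1).descFactorial (2 * k) : ℕ) : ℝ) := by
      rw [← h4]; push_cast; ring
    rw [h5, mul_div_cancel_left₀ _ (by positivity)]
    have h6 : (((2 * (k + l) + 1).descFactorial (2 * k) : ℕ) : ℝ) ≤
        ((2 * (k + l) + 1 : ℕ) : ℝ) ^ (2 * k) := by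
      exact_mod_cast Nat.descFactorial_le_pow _ _
    refine h6.trans (pow_le_pow_left₀ (by positivity) ?_ _)
    push_cast
    have hk : (0 : ℝ) ≤ k := Nat.cast_nonneg k
    have hl : (0 : ℝ) ≤ l := Nat.cast_nonneg l
    nlinarith [mul_nonneg hk hl]
  have h7 : |Dk ρ σ k (k + l)| ≤ (σ ^ k / k.factorial) * ((2 * k + 2 : ℝ) ^ (2 * k) * B) * ρ ^ l := by
    unfold Dk
    rw [abs_of_nonneg (by positivity)]
    have h8 := hB' (l + 1)
    push_cast at h8
    calc σ ^ k / k.factorial * ρ ^ (2 * (k + l) + 1 - 2 * k) *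
        (((2 * (k + l) + 1).factorial : ℝ) / ((2 * (k + l) + 1 - 2 * k).factorial : ℝ))
        ≤ σ ^ k / k.factorial * ρ ^ (2 * (k + l) + 1 - 2 * k) *
          (((2 * k + 2 : ℝ) * ((l : ℝ) + 1)) ^ (2 * k)) :=
          mul_le_mul_of_nonneg_left h3 (by positivity)
      _ = σ ^ k / k.factorial * (2 * k + 2 : ℝ) ^ (2 * k) *
          (((l : ℝ) + 1) ^ (2 * k) * ρ ^ (l + 1)) * ρ ^ l := by
          rw [e1, mul_pow]; ring
      _ ≤ σ ^ k / k.factorial * (2 * k + 2 : ℝ) ^ (2 * k) * B * ρ ^ l := by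
          gcongr
      _ = _ := by ring
  rw [abs_mul]
  calc |g (k + l) * y ^ l| * |Dk ρ σ k (k + l)|
      ≤ (G * y⁻¹ ^ k) * ((σ ^ k / k.factorial) * ((2 * k + 2 : ℝ) ^ (2 * k) * B) * ρ ^ l) :=
        mul_le_mul h2 h7 (abs_nonneg _) (by positivity)
    _ = _ := by ring

/-- Sums over the half of the antidiagonal. -/
private theorem hm_sum (F : ℕ → ℕ → ℝ) (m : ℕ) :
    ∑ x ∈ (antidiagonal m).filter (fun x => x.2 < x.1), F x.1 x.2 =
      ∑ j ∈ range ((m + 1) / 2), F (m - j) j := by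
  rw [sum_filter]
  have h1 : ∑ x ∈ antidiagonal m, (if x.2 < x.1 then F x.1 x.2 else 0) =
      ∑ x ∈ antidiagonal m, (if x.1 < x.2 then F x.2 x.1 else 0) := by
    rw [← Finset.Nat.sum_antidiagonal_swap]
    rfl
  rw [h1, Finset.Nat.sum_antidiagonal_eq_sum_range_succ_mk]
  simp only
  rw [← sum_filter]
  have h2 : (range m.succ).filter (fun k => k < m - k) = range ((m + 1) / 2) := by
    ext j
    simp only [mem_filter, mem_range]
    omega
  rw [h2]

theorem half_main {a b c y G : ℝ} (hy : 0 < y) (hb : 0 < b) (hc : 0 < c) (hca : c ≤ a)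
    (hD : b ^ 2 < a * c) {g : ℕ → ℝ} (hg : ∀ j, |g j| ≤ G * y⁻¹ ^ j) :
    HasExp (a / y) (Hf a b c (fun i => y⁻¹ ^ i) g)
      (PowerSeries.mk fun k => 2 * a * ∑' l : ℕ,
        g (k + l) * y ^ l * Dk (b / a) (c - b ^ 2 / a) k (k + l)) 0 := by
  have ha : 0 < a := lt_of_lt_of_le hc hca
  have hA : 0 < a / y := div_pos ha hy
  have hG : 0 ≤ G := by
    have := (abs_nonneg (g 0)).trans (hg 0)
    simpa using this
  have hba : b < a := by
    by_contra hcon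
    have h1 : a ≤ b := not_lt.1 hcon
    have h2 : a * c ≤ b ^ 2 := by nlinarith
    linarith
  have hρ0 : 0 < b / a := div_pos hb ha
  have hρ1 : b / a < 1 := by rw [div_lt_one ha]; exact hba
  have hσ : 0 ≤ c - b ^ 2 / a := by
    rw [sub_nonneg, div_le_iff₀ ha]; linarith
  set ρ := b / a with hρdef
  set σ := c - b ^ 2 / a with hσdef
  intro R
  obtain ⟨K, η, hK, hη0, hη1, htail⟩ := mom_tail hb hc hca hD R
  -- constants for the main terms
  have hmain : ∀ k ∈ range R, ∃ C : ℝ, 0 ≤ C ∧ ∀ m ≥ R,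
      |2 * a * W (a / y) (m - k) * (∑ l ∈ range ((m + 1) / 2 - k),
        g (k + l) * y ^ l * Dk ρ σ k (k + l) -
        ∑' l, g (k + l) * y ^ l * Dk ρ σ k (k + l))| ≤ C * W (a / y) (m - R) := by
    intro k hk
    have hkR : k < R := mem_range.1 hk
    obtain ⟨C₁, hC₁, hT⟩ := hm_term hρ0 hρ1 hσ hy hg k
    have hs0 : 0 < Real.sqrt ρ := Real.sqrt_pos.mpr hρ0
    have hs1 : Real.sqrt ρ < 1 := by
      rw [Real.sqrt_lt' one_pos]; simpa using hρ1
    obtain ⟨C₂, hC₂, hW⟩ := W_geom hA hs0 hs1 (R - k)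
    have hinv : 0 < (1 - ρ)⁻¹ := inv_pos.2 (by linarith)
    refine ⟨2 * a * (C₁ * (1 - ρ)⁻¹ * (ρ ^ k)⁻¹) * C₂, by positivity, fun m hm => ?_⟩
    have h1 := hm_tail hρ0.le hρ1 hT ((m + 1) / 2 - k)
    have hWp := W_pos hA (m - k)
    rw [abs_mul, abs_of_pos (by positivity : 0 < 2 * a * W (a / y) (m - k))]
    -- ρ ^ N ≤ (ρ ^ k)⁻¹ * (sqrt ρ) ^ (m - k)
    have h2 : ρ ^ ((m + 1) / 2 - k) ≤ (ρ ^ k)⁻¹ * Real.sqrt ρ ^ (m - k) := by
      rw [inv_mul_eq_div, le_div_iff₀ (by positivity), ← pow_add]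
      calc ρ ^ ((m + 1) / 2 - k + k) ≤ ρ ^ ((m + 1) / 2) :=
            pow_le_pow_of_le_one hρ0.le hρ1.le (by omega)
        _ = Real.sqrt ρ ^ (2 * ((m + 1) / 2)) := by
            rw [pow_mul, Real.sq_sqrt hρ0.le]
        _ ≤ Real.sqrt ρ ^ (m - k) := pow_le_pow_of_le_one hs0.le hs1.le (by omega)
    have h3 := hW (m - k) (by omega)
    have e1 : m - k - (R - k) = m - R := by omega
    rw [e1] at h3
    calc 2 * a * W (a / y) (m - k) * |∑ l ∈ range ((m + 1) / 2 - k),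
          g (k + l) * y ^ l * Dk ρ σ k (k + l) - ∑' l, g (k + l) * y ^ l * Dk ρ σ k (k + l)|
        ≤ 2 * a * W (a / y) (m - k) * (C₁ * (1 - ρ)⁻¹ * ρ ^ ((m + 1) / 2 - k)) :=
          mul_le_mul_of_nonneg_left h1 (by positivity)
      _ ≤ 2 * a * W (a / y) (m - k) * (C₁ * (1 - ρ)⁻¹ * ((ρ ^ k)⁻¹ * Real.sqrt ρ ^ (m - k))) := by
          gcongr
      _ = 2 * a * (C₁ * (1 - ρ)⁻¹ * (ρ ^ k)⁻¹) * (Real.sqrt ρ ^ (m - k) * W (a / y) (m - k)) := by
          ring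
      _ ≤ 2 * a * (C₁ * (1 - ρ)⁻¹ * (ρ ^ k)⁻¹) * (C₂ * W (a / y) (m - R)) := by
          gcongr
      _ = _ := by ring
  choose! C hC0 hC using hmain
  refine ⟨∑ k ∈ range R, C k + G * K * y⁻¹ ^ R * (1 - η)⁻¹, fun m hm => ?_⟩
  have hinvη : 0 < (1 - η)⁻¹ := inv_pos.2 (by linarith)
  -- the coefficient
  have hcoef : coeff m (Hf a b c (fun i => y⁻¹ ^ i) g) =
      ∑ j ∈ range ((m + 1) / 2), y⁻¹ ^ (m - j) * g j * Mom a b c (m - j) j := by
    unfold Hf
    rw [coeff_mk]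
    exact hm_sum (fun i j => y⁻¹ ^ i * g j * Mom a b c i j) m
  -- powers of y
  have hpow : ∀ k j : ℕ, k ≤ j → j ≤ m → k ≤ m → y⁻¹ ^ (m - j) * W a (m - k) =
      y ^ (j - k) * W (a / y) (m - k) := by
    intro k j hkj hjm hkm
    unfold W
    have e1 : (a / y) ^ (m - k) = a ^ (m - k) * y⁻¹ ^ (m - k) := by
      rw [div_eq_mul_inv, mul_pow]
    have e2 : y⁻¹ ^ (m - k) = y⁻¹ ^ (m - j) * y⁻¹ ^ (j - k) := by
      rw [← pow_add]; congr 1; omega
    have e3 : y ^ (j - k) * y⁻¹ ^ (j - k) = 1 := by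
      rw [← mul_pow, mul_inv_cancel₀ hy.ne', one_pow]
    rw [e1, e2]
    calc y⁻¹ ^ (m - j) * (om (m - k) * a ^ (m - k))
        = (y ^ (j - k) * y⁻¹ ^ (j - k)) * (y⁻¹ ^ (m - j) * (om (m - k) * a ^ (m - k))) := by
          rw [e3, one_mul]
      _ = _ := by ring
  -- the sum of the main terms
  have hexp : ∀ k ∈ range R, ∑ j ∈ range ((m + 1) / 2), y⁻¹ ^ (m - j) * g j *
      (if k ≤ j then 2 * a * W a (m - k) * Dk ρ σ k j else 0) =
      2 * a * W (a / y) (m - k) * ∑ l ∈ range ((m + 1) / 2 - k),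
        g (k + l) * y ^ l * Dk ρ σ k (k + l) := by
    intro k hk
    have hkR : k < R := mem_range.1 hk
    have h1 : ∀ j ∈ range ((m + 1) / 2), y⁻¹ ^ (m - j) * g j *
      (if k ≤ j then 2 * a * W a (m - k) * Dk ρ σ k j else 0) =
      if k ≤ j then 2 * a * W (a / y) (m - k) * (g j * y ^ (j - k) * Dk ρ σ k j) else 0 := by
      intro j hj
      have hj' := mem_range.1 hj
      by_cases hkj : k ≤ j
      · rw [if_pos hkj, if_pos hkj]
        have h2 := hpow k j hkj (by omega) (by omega)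
        calc y⁻¹ ^ (m - j) * g j * (2 * a * W a (m - k) * Dk ρ σ k j)
            = (y⁻¹ ^ (m - j) * W a (m - k)) * (g j * (2 * a) * Dk ρ σ k j) := by ring
          _ = _ := by rw [h2]; ring
      · rw [if_neg hkj, if_neg hkj, mul_zero]
    rw [sum_congr rfl h1, ← sum_filter, mul_sum]
    symm
    apply sum_bij (fun l _ => k + l)
    · intro l hl
      rw [mem_filter, mem_range]
      have := mem_range.1 hl
      omega
    · intro l _ l' _ h
      omega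
    · intro j hj
      rw [mem_filter, mem_range] at hj
      exact ⟨j - k, by rw [mem_range]; omega, by omega⟩
    · intro l _
      have e : k + l - k = l := by omega
      rw [e]
  have hsplit : coeff m (Hf a b c (fun i => y⁻¹ ^ i) g) -
      ∑ k ∈ range R, (coeff k (PowerSeries.mk fun k => 2 * a * ∑' l : ℕ,
        g (k + l) * y ^ l * Dk ρ σ k (k + l)) + (-1) ^ m * coeff k (0 : ℝ⟦X⟧)) *
          W (a / y) (m - k) =
      (∑ k ∈ range R, 2 * a * W (a / y) (m - k) * (∑ l ∈ range ((m + 1) / 2 - k),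
        g (k + l) * y ^ l * Dk ρ σ k (k + l) -
        ∑' l, g (k + l) * y ^ l * Dk ρ σ k (k + l))) +
      ∑ j ∈ range ((m + 1) / 2), y⁻¹ ^ (m - j) * g j * (Mom a b c (m - j) j -
        ∑ k ∈ range R, (if k ≤ j then 2 * a * W a (m - k) * Dk ρ σ k j else 0)) := by
    have h1 : ∑ j ∈ range ((m + 1) / 2), y⁻¹ ^ (m - j) * g j * (Mom a b c (m - j) j -
        ∑ k ∈ range R, (if k ≤ j then 2 * a * W a (m - k) * Dk ρ σ k j else 0)) =
        ∑ j ∈ range ((m + 1) / 2), y⁻¹ ^ (m - j) * g j * Mom a b c (m - j) j -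
        ∑ k ∈ range R, 2 * a * W (a / y) (m - k) * ∑ l ∈ range ((m + 1) / 2 - k),
        g (k + l) * y ^ l * Dk ρ σ k (k + l) := by
      rw [← sum_congr rfl hexp, sum_comm, ← sum_sub_distrib]
      apply sum_congr rfl
      intro j _
      rw [mul_sub, mul_sum]
    rw [h1, hcoef]
    have h2 : ∑ k ∈ range R, (coeff k (PowerSeries.mk fun k => 2 * a * ∑' l : ℕ,
        g (k + l) * y ^ l * Dk ρ σ k (k + l)) + (-1) ^ m * coeff k (0 : ℝ⟦X⟧)) *
          W (a / y) (m - k) = ∑ k ∈ range R, 2 * a * W (a / y) (m - k) *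
            ∑' l, g (k + l) * y ^ l * Dk ρ σ k (k + l) := by
      apply sum_congr rfl
      intro k _
      rw [coeff_mk, map_zero]
      ring
    rw [h2]
    simp only [mul_sub, sum_sub_distrib]
    ring
  rw [hsplit]
  have hB1 : |∑ k ∈ range R, 2 * a * W (a / y) (m - k) * (∑ l ∈ range ((m + 1) / 2 - k),
        g (k + l) * y ^ l * Dk ρ σ k (k + l) -
        ∑' l, g (k + l) * y ^ l * Dk ρ σ k (k + l))| ≤ (∑ k ∈ range R, C k) * W (a / y) (m - R) := by
    rw [sum_mul]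
    refine (abs_sum_le_sum_abs _ _).trans (sum_le_sum fun k hk => ?_)
    exact hC k hk m hm
  have hB2 : |∑ j ∈ range ((m + 1) / 2), y⁻¹ ^ (m - j) * g j * (Mom a b c (m - j) j -
        ∑ k ∈ range R, (if k ≤ j then 2 * a * W a (m - k) * Dk ρ σ k j else 0))| ≤
      (G * K * y⁻¹ ^ R * (1 - η)⁻¹) * W (a / y) (m - R) := by
    have h1 : ∀ j ∈ range ((m + 1) / 2), |y⁻¹ ^ (m - j) * g j * (Mom a b c (m - j) j -
        ∑ k ∈ range R, (if k ≤ j then 2 * a * W a (m - k) * Dk ρ σ k j else 0))| ≤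
        (G * K * y⁻¹ ^ R * W (a / y) (m - R)) * η ^ j := by
      intro j hj
      have hj' := mem_range.1 hj
      have h2 := htail (m - j) j (by omega) (by omega)
      have e1 : ∀ k, m - j + j - k = m - k := by intro k; omega
      simp only [e1] at h2
      rw [abs_mul, abs_mul, abs_of_pos (by positivity : 0 < y⁻¹ ^ (m - j))]
      have h3 : y⁻¹ ^ (m - j) * |g j| ≤ G * y⁻¹ ^ m := by
        calc y⁻¹ ^ (m - j) * |g j| ≤ y⁻¹ ^ (m - j) * (G * y⁻¹ ^ j) :=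
              mul_le_mul_of_nonneg_left (hg j) (by positivity)
          _ = G * (y⁻¹ ^ (m - j) * y⁻¹ ^ j) := by ring
          _ = G * y⁻¹ ^ m := by rw [← pow_add]; congr 2; omega
      have h4 : y⁻¹ ^ m * W a (m - R) = y⁻¹ ^ R * W (a / y) (m - R) := by
        unfold W
        have e2 : (a / y) ^ (m - R) = a ^ (m - R) * y⁻¹ ^ (m - R) := by
          rw [div_eq_mul_inv, mul_pow]
        have e3 : y⁻¹ ^ m = y⁻¹ ^ R * y⁻¹ ^ (m - R) := by
          rw [← pow_add]; congr 1; omega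
        rw [e2, e3]; ring
      have hWa := W_pos ha (m - R)
      calc y⁻¹ ^ (m - j) * |g j| * |Mom a b c (m - j) j -
            ∑ k ∈ range R, (if k ≤ j then 2 * a * W a (m - k) * Dk ρ σ k j else 0)|
          ≤ (G * y⁻¹ ^ m) * (K * η ^ j * W a (m - R)) :=
            mul_le_mul h3 h2 (abs_nonneg _) (by positivity)
        _ = G * K * η ^ j * (y⁻¹ ^ m * W a (m - R)) := by ring
        _ = _ := by rw [h4]; ring
    have hWp := W_pos hA (m - R)
    have h5 : ∑ j ∈ range ((m + 1) / 2), η ^ j ≤ (1 - η)⁻¹ := by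
      rw [← tsum_geometric_of_lt_one hη0.le hη1]
      exact (summable_geometric_of_lt_one hη0.le hη1).sum_le_tsum _ (fun i _ => by positivity)
    calc |∑ j ∈ range ((m + 1) / 2), y⁻¹ ^ (m - j) * g j * (Mom a b c (m - j) j -
          ∑ k ∈ range R, (if k ≤ j then 2 * a * W a (m - k) * Dk ρ σ k j else 0))|
        ≤ ∑ j ∈ range ((m + 1) / 2), (G * K * y⁻¹ ^ R * W (a / y) (m - R)) * η ^ j :=
          (abs_sum_le_sum_abs _ _).trans (sum_le_sum h1)
      _ = (G * K * y⁻¹ ^ R * W (a / y) (m - R)) * ∑ j ∈ range ((m + 1) / 2), η ^ j := by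
          rw [mul_sum]
      _ ≤ (G * K * y⁻¹ ^ R * W (a / y) (m - R)) * (1 - η)⁻¹ :=
          mul_le_mul_of_nonneg_left h5 (by positivity)
      _ = _ := by ring
  rw [add_mul]
  exact (abs_add_le _ _).trans (add_le_add hB1 hB2)

end Pool.Agent.H99.Spl
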