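import Pool.Agent.H99.Spl.MomTail

open PowerSeries Finset
open Pool.Agent.H99.Seif

namespace Pool.Agent.H99.Spl

/-- A polynomial factor does not matter. -/
private theorem halfSmall_aux {A θ K : ℝ} (hA : 0 < A) (h0 : 0 < θ) (h1 : θ < 1) {f : ℝ⟦X⟧}
    (hK : 0 ≤ K) (hf : ∀ m : ℕ, |coeff m f| ≤ K * (((m : ℝ) + 1) * θ ^ m * W A m)) :
    HasExp A f 0 0 := by
  set q : ℝ := (1 + θ) / 2 with hq
  have hq0 : 0 < q := by rw [hq]; linarith
  have hq1 : q < 1 := by rw [hq]; linarith
  have hqθ : θ < q := by rw [hq]; linarith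
  set d : ℝ := q / θ - 1 with hd
  have hd0 : 0 < d := by
    rw [hd, sub_pos, lt_div_iff₀ h0]
    linarith
  refine hasExp_of_small (θ := q) (K := K * (1 + 1 / d)) hA hq0 hq1 fun m => ?_
  refine (hf m).trans ?_
  have hW := W_pos hA m
  have hB : 1 + (m : ℝ) * d ≤ (1 + d) ^ m := one_add_mul_le_pow (by linarith) m
  have e1 : (1 + d) * θ = q := by
    rw [hd]
    field_simp
    ring
  have h2 : ((m : ℝ) + 1) * θ ^ m ≤ (1 + 1 / d) * q ^ m := by
    rw [← e1, mul_pow, ← mul_assoc]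
    refine mul_le_mul_of_nonneg_right ?_ (by positivity)
    have h3 : (m : ℝ) + 1 ≤ (1 + 1 / d) * (1 + (m : ℝ) * d) := by
      have h4 : (1 + 1 / d) * (1 + (m : ℝ) * d) = 1 + 1 / d + m * d + m := by
        field_simp
        ring
      rw [h4]
      have h5 : 0 ≤ 1 / d := by positivity
      have h6 : 0 ≤ (m : ℝ) * d := by positivity
      linarith
    exact h3.trans (mul_le_mul_of_nonneg_left hB (by positivity))
  calc K * (((m : ℝ) + 1) * θ ^ m * W A m) ≤ K * ((1 + 1 / d) * q ^ m * W A m) :=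
        mul_le_mul_of_nonneg_left (mul_le_mul_of_nonneg_right h2 hW.le) hK
    _ = K * (1 + 1 / d) * q ^ m * W A m := by ring

/-- The number of terms of a half is at most `n + 1`. -/
private theorem halfSmall_card (n : ℕ) :
    (((antidiagonal n).filter (fun x : ℕ × ℕ => x.2 < x.1)).card : ℝ) ≤ (n : ℝ) + 1 := by
  have h := card_filter_le (antidiagonal n) (fun x : ℕ × ℕ => x.2 < x.1)
  rw [Nat.card_antidiagonal] at h
  exact_mod_cast h

/-- Estimate of a half, if the terms are small. -/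
private theorem halfSmall_sum {A θ K : ℝ} (hA : 0 < A) (h0 : 0 < θ) (h1 : θ < 1) (hK : 0 ≤ K)
    {a b c : ℝ} {f g : ℕ → ℝ}
    (h : ∀ i j : ℕ, j < i → |f i * g j * Mom a b c i j| ≤ K * (θ ^ (i + j) * W A (i + j))) :
    HasExp A (Hf a b c f g) 0 0 := by
  refine halfSmall_aux hA h0 h1 hK fun n => ?_
  rw [Hf, coeff_mk]
  refine (abs_sum_le_sum_abs _ _).trans ?_
  have h2 : ∀ x ∈ (antidiagonal n).filter (fun x : ℕ × ℕ => x.2 < x.1),
      |f x.1 * g x.2 * Mom a b c x.1 x.2| ≤ K * (θ ^ n * W A n) := by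
    intro x hx
    obtain ⟨hx1, hx2⟩ := mem_filter.1 hx
    have h3 := h x.1 x.2 hx2
    rwa [mem_antidiagonal.1 hx1] at h3
  refine (sum_le_card_nsmul _ _ _ h2).trans ?_
  rw [nsmul_eq_mul]
  have hW := W_pos hA n
  calc _ ≤ ((n : ℝ) + 1) * (K * (θ ^ n * W A n)) :=
        mul_le_mul_of_nonneg_right (halfSmall_card n) (by positivity)
    _ = K * (((n : ℝ) + 1) * θ ^ n * W A n) := by ring

private theorem halfSmall_W {a y : ℝ} (n : ℕ) : y⁻¹ ^ n * W a n = W (a / y) n := by
  rw [W, W, div_eq_mul_inv, mul_pow]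
  ring

theorem half_rest {a b c y F G : ℝ} (hy : 0 < y) (hb : 0 < b) (hc : 0 < c) (hca : c ≤ a)
    (hD : b ^ 2 < a * c) {f g : ℕ → ℝ} (hf : ∀ i, |f i| ≤ F * (4 * y)⁻¹ ^ i)
    (hg : ∀ j, |g j| ≤ G * y⁻¹ ^ j) : HasExp (a / y) (Hf a b c f g) 0 0 := by
  have ha : 0 < a := hc.trans_le hca
  have hF : 0 ≤ F := by have := (abs_nonneg _).trans (hf 0); simpa using this
  have hG : 0 ≤ G := by have := (abs_nonneg _).trans (hg 0); simpa using this
  refine halfSmall_sum (θ := 1 / 2) (K := F * G * (2 * a)) (by positivity) (by norm_num)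
    (by norm_num) (by positivity) fun i j hij => ?_
  have hM0 := (mom_pos ha hb hc i j).le
  have hM := mom_le ha hb hc hD.le i j
  have hs : Real.sqrt (a * c) ≤ a := by
    rw [Real.sqrt_le_left ha.le]
    nlinarith
  have ho := om_pos (i + j)
  have hM2 : Mom a b c i j ≤ 2 * a * W a (i + j) := by
    refine hM.trans ?_
    have h1 : c ^ j ≤ a ^ j := pow_le_pow_left₀ hc.le hca j
    calc 2 * om (i + j) * Real.sqrt (a * c) * a ^ i * c ^ j
        ≤ 2 * om (i + j) * a * a ^ i * a ^ j := by gcongr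
      _ = 2 * a * W a (i + j) := by rw [W, pow_add]; ring
  rw [abs_mul, abs_mul, abs_of_nonneg hM0, ← halfSmall_W]
  have h4 : ((4 : ℝ) * y)⁻¹ ^ i = (1 / 4) ^ i * y⁻¹ ^ i := by
    rw [← mul_pow]
    congr 1
    rw [mul_inv]
    norm_num
  have h5 : ((1 : ℝ) / 4) ^ i ≤ (1 / 2) ^ (i + j) := by
    have : ((1 : ℝ) / 4) ^ i = (1 / 2) ^ (2 * i) := by
      rw [pow_mul]
      norm_num
    rw [this]
    exact pow_le_pow_of_le_one (by norm_num) (by norm_num) (by omega)
  have hy' : 0 ≤ y⁻¹ := by positivity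
  calc |f i| * |g j| * Mom a b c i j
      ≤ (F * (4 * y)⁻¹ ^ i) * (G * y⁻¹ ^ j) * (2 * a * W a (i + j)) := by
        refine mul_le_mul (mul_le_mul (hf i) (hg j) (abs_nonneg _) (by positivity)) hM2 hM0
          (by positivity)
    _ = F * G * (2 * a) * ((1 / 4) ^ i * (y⁻¹ ^ (i + j) * W a (i + j))) := by
        rw [h4, pow_add]
        ring
    _ ≤ F * G * (2 * a) * ((1 / 2) ^ (i + j) * (y⁻¹ ^ (i + j) * W a (i + j))) := by
        have hW := W_pos ha (i + j)
        gcongr

theorem half_other {a b c y F G : ℝ} (hy : 0 < y) (hb : 0 < b) (hc : 0 < c) (hca : c < a)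
    (hD : b ^ 2 < a * c) {f g : ℕ → ℝ} (hf : ∀ i, |f i| ≤ F * y⁻¹ ^ i)
    (hg : ∀ j, |g j| ≤ G * y⁻¹ ^ j) : HasExp (a / y) (Hf c b a g f) 0 0 := by
  have ha : 0 < a := hc.trans hca
  have hF : 0 ≤ F := by have := (abs_nonneg _).trans (hf 0); simpa using this
  have hG : 0 ≤ G := by have := (abs_nonneg _).trans (hg 0); simpa using this
  set θ : ℝ := Real.sqrt (c / a) with hθ
  have hca' : 0 < c / a := by positivity
  have hθ0 : 0 < θ := Real.sqrt_pos.2 hca'
  have hθ2 : θ ^ 2 = c / a := Real.sq_sqrt hca'.le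
  have hθ1 : θ < 1 := by
    have h1 : c / a < 1 := (div_lt_one ha).2 hca
    nlinarith
  refine halfSmall_sum (θ := θ) (K := G * F * (2 * Real.sqrt (c * a))) (by positivity) hθ0 hθ1
    (by positivity) fun i j hij => ?_
  have hM0 := (mom_pos hc hb ha i j).le
  have hM := mom_le hc hb ha (by linarith [mul_comm a c]) i j
  have ho := om_pos (i + j)
  have hca2 : c = θ ^ 2 * a := by
    rw [hθ2]
    field_simp
  have hM2 : Mom c b a i j ≤ 2 * Real.sqrt (c * a) * (θ ^ (i + j) * W a (i + j)) := by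
    refine hM.trans ?_
    have h1 : c ^ i * a ^ j ≤ θ ^ (i + j) * a ^ (i + j) := by
      have e : c ^ i * a ^ j = θ ^ (2 * i) * a ^ (i + j) := by
        conv_lhs => rw [hca2]
        rw [mul_pow, ← pow_mul, pow_add]
        ring
      rw [e]
      have h2 : θ ^ (2 * i) ≤ θ ^ (i + j) := pow_le_pow_of_le_one hθ0.le hθ1.le (by omega)
      gcongr
    calc 2 * om (i + j) * Real.sqrt (c * a) * c ^ i * a ^ j
        = 2 * om (i + j) * Real.sqrt (c * a) * (c ^ i * a ^ j) := by ring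
      _ ≤ 2 * om (i + j) * Real.sqrt (c * a) * (θ ^ (i + j) * a ^ (i + j)) := by gcongr
      _ = 2 * Real.sqrt (c * a) * (θ ^ (i + j) * W a (i + j)) := by rw [W]; ring
  rw [abs_mul, abs_mul, abs_of_nonneg hM0, ← halfSmall_W]
  have hy' : 0 ≤ y⁻¹ := by positivity
  have hW := W_pos ha (i + j)
  calc |g i| * |f j| * Mom c b a i j
      ≤ (G * y⁻¹ ^ i) * (F * y⁻¹ ^ j) *
          (2 * Real.sqrt (c * a) * (θ ^ (i + j) * W a (i + j))) := by
        refine mul_le_mul (mul_le_mul (hg i) (hf j) (abs_nonneg _) (by positivity)) hM2 hM0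
          (by positivity)
    _ = G * F * (2 * Real.sqrt (c * a)) * (θ ^ (i + j) * (y⁻¹ ^ (i + j) * W a (i + j))) := by
        rw [pow_add y⁻¹]
        ring

theorem diag_small {a b c y F G : ℝ} (hy : 0 < y) (hb : 0 < b) (hc : 0 < c) (hca : c ≤ a)
    (hD : b ^ 2 < a * c) {f g : ℕ → ℝ} (hf : ∀ i, |f i| ≤ F * y⁻¹ ^ i)
    (hg : ∀ j, |g j| ≤ G * y⁻¹ ^ j) : HasExp (a / y) (Dg a b c f g) 0 0 := by
  have ha : 0 < a := hc.trans_le hca
  have hF : 0 ≤ F := by have := (abs_nonneg _).trans (hf 0); simpa using this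
  have hG : 0 ≤ G := by have := (abs_nonneg _).trans (hg 0); simpa using this
  obtain ⟨K, η, hK, hη0, hη1, h⟩ := mom_diag hb hc hca hD
  refine hasExp_of_small (θ := η) (K := F * G * K) (by positivity) hη0 hη1 fun n => ?_
  have hW := W_pos (show (0 : ℝ) < a / y by positivity) n
  rw [Dg, coeff_mk]
  split_ifs with hn
  · obtain ⟨j, rfl⟩ := hn
    have hj : (j + j) / 2 = j := by omega
    have hjj : j + j = 2 * j := by ring
    rw [hj, hjj, abs_mul, abs_mul, abs_of_nonneg (mom_pos ha hb hc j j).le, ← halfSmall_W]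
    have hy' : 0 ≤ y⁻¹ := by positivity
    calc |f j| * |g j| * Mom a b c j j
        ≤ (F * y⁻¹ ^ j) * (G * y⁻¹ ^ j) * (K * η ^ (2 * j) * W a (2 * j)) :=
          mul_le_mul (mul_le_mul (hf j) (hg j) (abs_nonneg _) (by positivity)) (h j)
            (mom_pos ha hb hc j j).le (by positivity)
      _ = F * G * K * η ^ (2 * j) * (y⁻¹ ^ (2 * j) * W a (2 * j)) := by
          rw [pow_mul y⁻¹ 2 j, ← pow_mul, mul_comm 2 j, pow_mul y⁻¹ j 2]
          ring
  · rw [abs_zero]
    positivity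

theorem bf_split (a b c : ℝ) (f g : ℕ → ℝ) :
    Bf a b c f g = Hf a b c f g + Hf c b a g f + Dg a b c f g := by
  ext n
  rw [map_add, map_add, Bf, Hf, Hf, Dg, coeff_mk, coeff_mk, coeff_mk, coeff_mk]
  set T : ℕ × ℕ → ℝ := fun x => f x.1 * g x.2 * Mom a b c x.1 x.2 with hT
  have h1 : ∑ x ∈ (antidiagonal n).filter (fun x => x.2 < x.1),
      g x.1 * f x.2 * Mom c b a x.1 x.2 =
      ∑ x ∈ (antidiagonal n).filter (fun x => x.1 < x.2), T x := by
    refine sum_nbij' Prod.swap Prod.swap ?_ ?_ (fun _ _ => rfl) (fun _ _ => rfl) ?_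
    · intro x hx
      simp only [mem_filter, HasAntidiagonal.mem_antidiagonal, Prod.fst_swap, Prod.snd_swap] at hx ⊢
      omega
    · intro x hx
      simp only [mem_filter, HasAntidiagonal.mem_antidiagonal, Prod.fst_swap, Prod.snd_swap] at hx ⊢
      omega
    · intro x _
      simp only [hT, Prod.fst_swap, Prod.snd_swap]
      rw [mom_symm c b a x.1 x.2]
      ring
  have h2 : (if Even n then f (n / 2) * g (n / 2) * Mom a b c (n / 2) (n / 2) else 0) =
      ∑ x ∈ (antidiagonal n).filter (fun x => x.1 = x.2), T x := by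
    split_ifs with hn
    · obtain ⟨j, rfl⟩ := hn
      have hj : (j + j) / 2 = j := by omega
      rw [hj, sum_eq_single (j, j)]
      · intro x hx hne
        exfalso
        apply hne
        simp only [mem_filter, HasAntidiagonal.mem_antidiagonal] at hx
        exact Prod.ext (by simp only; omega) (by simp only; omega)
      · intro hne
        exfalso
        apply hne
        simp
    · symm
      refine sum_eq_zero fun x hx => ?_
      exfalso
      simp only [mem_filter, HasAntidiagonal.mem_antidiagonal] at hx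
      exact hn ⟨x.1, by omega⟩
  rw [h1, h2]
  have h3 : ∑ x ∈ antidiagonal n, T x =
      ∑ x ∈ (antidiagonal n).filter (fun x => x.2 < x.1), T x +
        ∑ x ∈ (antidiagonal n).filter (fun x => ¬ x.2 < x.1), T x :=
    (sum_filter_add_sum_filter_not _ _ _).symm
  have h4 : ∑ x ∈ (antidiagonal n).filter (fun x => ¬ x.2 < x.1), T x =
      ∑ x ∈ (antidiagonal n).filter (fun x => x.1 < x.2), T x +
        ∑ x ∈ (antidiagonal n).filter (fun x => x.1 = x.2), T x := by
    rw [← sum_union]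
    · refine sum_congr ?_ fun _ _ => rfl
      ext x
      simp only [mem_filter, mem_union, HasAntidiagonal.mem_antidiagonal]
      omega
    · rw [disjoint_left]
      intro x hx hx'
      simp only [mem_filter] at hx hx'
      omega
  rw [h3, h4]
  ring

end Pool.Agent.H99.Spl
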