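import Pool.Agent.H99.Spl.Two
import Pool.Agent.H99.Spl.Coef

/-!
# Orientations, and the comparison with the Seifert fibred homology spheres
-/

open PowerSeries Finset
open Pool.Agent.H99.Seif

namespace Pool.Agent.H99.Spl

/-- `sinhc (x / (2 p₁)) sinhc (x / (2 p₂)) / sinhc (x / 2)` as a power series in `x ^ 2`. -/
noncomputable def node (p : Finset ℕ) : ℝ⟦X⟧ := (∏ k ∈ p, E k) * (E 1)⁻¹

/-- The Gaussian part of the series of a splice with orientation `σ`, with constant term `1`. -/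
noncomputable def TT (σ : Bool) (p : Finset ℕ) (r : ℕ) (q : Finset ℕ) (s : ℕ) : ℝ⟦X⟧ :=
  PowerSeries.mk fun n => ∑ x ∈ antidiagonal n, coeff x.1 (node p) * coeff x.2 (node q) *
    (sg σ ^ n * Mom (Pr p * r) (Pr p * Pr q) (Pr q * s) x.1 x.2 / (2 * (Pr p * Pr q)))

theorem TT_false {p : Finset ℕ} {r : ℕ} {q : Finset ℕ} {s : ℕ} (h : IsTwo p r q s) :
    TT false p r q s = C 32 * UU p r q s := by
  have hP := Pr_pos h.1
  have hQ := Pr_pos h.2.1
  ext n
  unfold TT UU Bf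
  rw [coeff_mk, coeff_C_mul, coeff_mk, mul_sum]
  refine sum_congr rfl fun x hx => ?_
  rw [HasAntidiagonal.mem_antidiagonal] at hx
  unfold node
  rw [coeff_node h.1.1 h.1.2.1, coeff_node h.2.1.1 h.2.1.2.1]
  have e1 : sg false = -1 := by simp [sg]
  have e2 : ((-1 : ℝ) ^ x.1 * (-1) ^ x.2) * (-1) ^ n = 1 := by
    rw [← pow_add, hx, ← mul_pow]
    norm_num
  rw [e1]
  have e3 : (∏ k ∈ p, (k : ℝ)) = Pr p := rfl
  have e4 : (∏ k ∈ q, (k : ℝ)) = Pr q := rfl
  rw [e3, e4]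
  field_simp
  linear_combination (64 * fc (w p) x.1 * fc (w q) x.2 *
    Mom (Pr p * r) (Pr p * Pr q) (Pr q * s) x.1 x.2) * e2

theorem TT_rescale (σ : Bool) (p : Finset ℕ) (r : ℕ) (q : Finset ℕ) (s : ℕ) :
    rescale (-1 : ℝ) (TT σ p r q s) = TT (!σ) p r q s := by
  ext n
  unfold TT
  rw [coeff_rescale, coeff_mk, coeff_mk, mul_sum]
  refine sum_congr rfl fun x _ => ?_
  rw [sg_not, neg_pow]
  ring

theorem TT_symm (σ : Bool) (p : Finset ℕ) (r : ℕ) (q : Finset ℕ) (s : ℕ) :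
    TT σ p r q s = TT σ q s p r := by
  ext n
  unfold TT
  rw [coeff_mk, coeff_mk, ← Finset.Nat.sum_antidiagonal_swap]
  refine sum_congr rfl fun x _ => ?_
  rw [Prod.fst_swap, Prod.snd_swap, mom_symm, mul_comm (Pr q) (Pr p)]
  ring

theorem rescale_exp (κ : ℝ) :
    rescale (-1 : ℝ) (rescale κ (exp ℝ)) = rescale (-κ) (exp ℝ) := by
  rw [rescale_rescale, mul_neg_one]

theorem rescale_inj {f g : ℝ⟦X⟧} (h : rescale (-1 : ℝ) f = rescale (-1 : ℝ) g) : f = g := by
  have h1 := congrArg (rescale (-1 : ℝ)) h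
  rw [rescale_rescale, rescale_rescale] at h1
  have e : ((-1 : ℝ) * -1) = 1 := by norm_num
  rw [e, rescale_one] at h1
  exact h1

/-- The expansion of the series of a splice, for the orientation `false`. -/
theorem tt_top {p : Finset ℕ} {r : ℕ} {q : Finset ℕ} {s : ℕ} (h : IsTwo p r q s) :
    ∃ A : ℝ, 0 < A ∧ ∃ g : ℝ⟦X⟧, HasExp A (TT false p r q s) g 0 ∧
      ∀ e : ℝ⟦X⟧, e ≠ 0 → Hol 1 e → ¬ Hol 1 (e * g) := by
  have main : ∀ {p : Finset ℕ} {r : ℕ} {q : Finset ℕ} {s : ℕ}, IsTwo p r q s →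
      Pr q * s ≤ Pr p * r → ∃ A : ℝ, 0 < A ∧ ∃ g : ℝ⟦X⟧, HasExp A (TT false p r q s) g 0 ∧
      ∀ e : ℝ⟦X⟧, e ≠ 0 → Hol 1 e → ¬ Hol 1 (e * g) := by
    intro p r q s h hm
    obtain ⟨hr, hs⟩ := h.pos
    have hP := Pr_pos h.1
    have hQ := Pr_pos h.2.1
    have p0 := w_zero_pos h.1
    have q0 := w_zero_pos h.2.1
    have hpi := Real.pi_pos
    refine ⟨Pr p * r / (4 * Real.pi ^ 2), by positivity, C 32 *
      amp (Pr p * r / (4 * Real.pi ^ 2) ^ 2)
        ((Pr q * s - (Pr p * Pr q) ^ 2 / (Pr p * r)) / (4 * Real.pi ^ 2))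
        (cc (Pr p * r) (Pr q * s) (w p) (w q)) ((Pr p * Pr q) / (Pr p * r)), ?_, ?_⟩
    · rw [TT_false h]
      have h1 := hasExp_C_mul (top_two (a := Pr p * r) (b := Pr p * Pr q) (c := Pr q * s)
        (by positivity) (by positivity) hm h.det (abs_w_le p) (abs_w_le q)) 32
      rw [mul_zero] at h1
      exact h1
    · intro e he hol
      rw [← mul_assoc]
      refine amp_ne (by positivity) (by positivity) hm h.det (abs_w_le p) (abs_w_le q) ?_
        (mul_ne_zero he ?_) (hol_mul hol (hol_C _ _))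
      · unfold cc
        split_ifs
        · positivity
        · positivity
      · intro h0
        have h1 := congrArg (coeff 0) h0
        rw [coeff_zero_C, map_zero] at h1
        norm_num at h1
  rcases le_total (Pr q * s) (Pr p * r) with h1 | h1
  · exact main h h1
  · rw [TT_symm]
    exact main h.symm h1

theorem hol_zero : Hol 1 (0 : ℝ⟦X⟧) := by
  have := hol_C 1 0
  rwa [map_zero] at this

/-- Opposite orientations. -/
theorem tt_opp {p q p' q' : Finset ℕ} {r s r' s' : ℕ} (h : IsTwo p r q s) (h' : IsTwo p' r' q' s')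
    {κ κ' : ℝ} (heq : rescale κ (exp ℝ) * TT false p r q s = rescale κ' (exp ℝ) * TT true p' r' q' s') :
    False := by
  obtain ⟨A, hA, g, h1, h2⟩ := tt_top h
  obtain ⟨A', hA', g', h1', h2'⟩ := tt_top h'
  have h3 : HasExp A' (TT true p' r' q' s') 0 g' := by
    have h4 := hasExp_rescale h1'
    rw [TT_rescale] at h4
    exact h4
  rcases lt_or_ge A A' with hlt | hge
  · have u1 := hasExp_hol_mul hA' (hol_exp κ) (hasExp_mono hA hlt h1)
    have u2 := hasExp_hol_mul hA' (hol_exp κ') h3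
    rw [← heq] at u2
    have u3 := (hasExp_unique hA' u1 u2).2
    rw [mul_zero, rescale_exp] at u3
    exact h2' _ (exp_ne (-κ')) (hol_exp _) (u3 ▸ hol_zero)
  · have h5 : ∃ b, HasExp A (TT true p' r' q' s') 0 b := by
      rcases eq_or_lt_of_le hge with e | e
      · exact ⟨g', e ▸ h3⟩
      · exact ⟨0, hasExp_mono hA' e h3⟩
    obtain ⟨b, h6⟩ := h5
    have u1 := hasExp_hol_mul hA (hol_exp κ) h1
    have u2 := hasExp_hol_mul hA (hol_exp κ') h6
    rw [← heq] at u2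
    have u3 := (hasExp_unique hA u1 u2).1
    rw [mul_zero] at u3
    exact h2 _ (exp_ne κ) (hol_exp _) (u3 ▸ hol_zero)

/-- The expansion of the series of a Seifert fibred homology sphere. -/
theorem seif_top (σ : Bool) {p : Finset ℕ} (hp : IsSeif p) :
    ∃ A : ℝ, 0 < A ∧ ∃ K : ℕ, ∃ g b : ℝ⟦X⟧, HasExp A (X ^ K * V (sg σ) p) g b ∧ Hol 1 g ∧
      Hol 1 b ∧ (g ≠ 0 ∨ b ≠ 0) := by
  have hpi := Real.pi_pos
  have hP : 0 < ∏ k ∈ p, (k : ℝ) := prod_pos fun k hk => by
    have := hp.2.1 k hk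
    exact_mod_cast (by omega : 0 < k)
  obtain ⟨q, hq, hqe⟩ := top hp le_rfl
  have hG : (∑ k ∈ range (p.card - 2), C (q k) * X ^ (p.card - k) : ℝ⟦X⟧) ≠ 0 :=
    top_ne_zero (k₀ := p.card - 3) (by have := hp.1; omega) (by omega) hq
  refine ⟨_, div_pos hP (by positivity : (0 : ℝ) < 4 * Real.pi ^ 2), p.card, ?_⟩
  cases σ with
  | false =>
    refine ⟨_, 0, ?_, hol_top q, hol_zero, Or.inl hG⟩
    have : sg false = -1 := by simp [sg]
    rw [this]
    exact hqe
  | true =>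
    have h4 := hasExp_C_mul (hasExp_rescale hqe) ((-1) ^ p.card)
    have h5 : C ((-1 : ℝ) ^ p.card) * rescale (-1 : ℝ) (X ^ p.card * V (-1) p) =
        X ^ p.card * V (sg true) p := by
      have h6 : sg true = -(-1) := by simp [sg]
      have h7 : rescale (-1 : ℝ) ((X : ℝ⟦X⟧) ^ p.card) = C ((-1 : ℝ) ^ p.card) * X ^ p.card := by
        rw [map_pow, rescale_X, mul_pow, ← map_pow]
      rw [map_mul, rescale_V, h6, h7, ← mul_assoc, ← mul_assoc, ← map_mul, ← mul_pow]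
      norm_num
    rw [h5, mul_zero] at h4
    refine ⟨0, _, h4, hol_zero, hol_mul (hol_C _ _) (hol_top q), Or.inr (mul_ne_zero ?_ hG)⟩
    intro h0
    have h1 := congrArg (coeff 0) h0
    rw [coeff_zero_C, map_zero] at h1
    exact pow_ne_zero _ (by norm_num) h1

/-- Splices and Seifert fibred homology spheres. -/
theorem tt_seif {p q p' : Finset ℕ} {r s : ℕ} (h : IsTwo p r q s) (hp : IsSeif p') (σ : Bool)
    {κ κ' : ℝ} (heq : rescale κ (exp ℝ) * TT false p r q s = rescale κ' (exp ℝ) * V (sg σ) p') :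
    False := by
  obtain ⟨A, hA, g, h1, h2⟩ := tt_top h
  obtain ⟨A', hA', K, g', b', h1', hg', hb', hne⟩ := seif_top σ hp
  have heq' : (X ^ K * rescale κ (exp ℝ)) * TT false p r q s =
      rescale κ' (exp ℝ) * (X ^ K * V (sg σ) p') := by
    linear_combination (X : ℝ⟦X⟧) ^ K * heq
  have hXK : Hol 1 ((X : ℝ⟦X⟧) ^ K * rescale κ (exp ℝ)) :=
    hol_mul (hol_pow (hol_X _) _) (hol_exp κ)
  rcases lt_or_ge A A' with hlt | hge
  · have u1 := hasExp_hol_mul hA' hXK (hasExp_mono hA hlt h1)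
    have u2 := hasExp_hol_mul hA' (hol_exp κ') h1'
    rw [← heq'] at u2
    obtain ⟨u3, u4⟩ := hasExp_unique hA' u1 u2
    rw [mul_zero] at u3 u4
    rcases hne with h0 | h0
    · exact mul_ne_zero (exp_ne κ') h0 u3.symm
    · rw [rescale_exp] at u4
      exact mul_ne_zero (exp_ne (-κ')) h0 u4.symm
  · have h5 : ∃ g'' b, HasExp A (X ^ K * V (sg σ) p') g'' b ∧ Hol 1 g'' := by
      rcases eq_or_lt_of_le hge with e | e
      · exact ⟨g', b', e ▸ h1', hg'⟩
      · exact ⟨0, 0, hasExp_mono hA' e h1', hol_zero⟩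
    obtain ⟨g'', b, h6, h7⟩ := h5
    have u1 := hasExp_hol_mul hA hXK h1
    have u2 := hasExp_hol_mul hA (hol_exp κ') h6
    rw [← heq'] at u2
    have u3 := (hasExp_unique hA u1 u2).1
    refine h2 _ (mul_ne_zero (pow_ne_zero _ X_ne_zero) (exp_ne κ)) hXK ?_
    rw [u3]
    exact hol_mul (hol_exp κ') h7

/-- The series of a splice does not converge. -/
theorem tt_hol {p q : Finset ℕ} {r s : ℕ} (h : IsTwo p r q s) {e : ℝ⟦X⟧} (he : e ≠ 0)
    (hol : Hol 1 e) : ¬ Hol 1 (e * TT false p r q s) := by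
  intro hh
  obtain ⟨A, hA, g, h1, h2⟩ := tt_top h
  have u1 := hasExp_hol_mul hA hol h1
  have u2 := hasExp_of_hol hA one_pos hh
  have u3 := (hasExp_unique hA u1 u2).1
  exact h2 e he hol (u3 ▸ hol_zero)

/-- The series of a Seifert fibred homology sphere does not converge. -/
theorem seif_hol (σ : Bool) {p : Finset ℕ} (hp : IsSeif p) {e : ℝ⟦X⟧} (he : e ≠ 0)
    (hol : Hol 1 e) : ¬ Hol 1 (e * V (sg σ) p) := by
  intro hh
  obtain ⟨A, hA, K, g, b, h1, _, _, hne⟩ := seif_top σ hp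
  have u1 := hasExp_hol_mul hA hol h1
  have e1 : e * (X ^ K * V (sg σ) p) = X ^ K * (e * V (sg σ) p) := by ring
  rw [e1] at u1
  have u2 := hasExp_of_hol hA one_pos (hol_mul (hol_pow (hol_X 1) K) hh)
  obtain ⟨u3, u4⟩ := hasExp_unique hA u1 u2
  rcases hne with h0 | h0
  · exact mul_ne_zero he h0 u3
  · refine mul_ne_zero ?_ h0 u4
    intro h3
    apply he
    apply rescale_inj
    rw [h3, map_zero]

end Pool.Agent.H99.Spl
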