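import Pool.Agent.H99.Spl.Defs

open PowerSeries Finset
open Pool.Agent.H99.Seif

namespace Pool.Agent.H99.Spl

private lemma momexp_coeff (P : Polynomial ℝ) (s : ℝ) (N j : ℕ) (hN : j ≤ N) :
    ((Polynomial.C s * Polynomial.X ^ 2 + P) ^ N).coeff (2 * j + 1) =
      ∑ k ∈ range (j + 1), (N.choose k : ℝ) * s ^ k * (P ^ (N - k)).coeff (2 * j + 1 - 2 * k) := by
  have hterm : ∀ k : ℕ, ((Polynomial.C s * Polynomial.X ^ 2) ^ k * P ^ (N - k) *
      ((N.choose k : ℕ) : Polynomial ℝ)).coeff (2 * j + 1) =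
      if k ≤ j then (N.choose k : ℝ) * s ^ k * (P ^ (N - k)).coeff (2 * j + 1 - 2 * k) else 0 := by
    intro k
    have e1 : (Polynomial.C s * Polynomial.X ^ 2) ^ k * P ^ (N - k) *
        ((N.choose k : ℕ) : Polynomial ℝ) =
        Polynomial.C ((N.choose k : ℝ) * s ^ k) * (Polynomial.X ^ (2 * k) * P ^ (N - k)) := by
      rw [mul_pow, ← pow_mul, Polynomial.C_mul, Polynomial.C_pow]
      have : ((N.choose k : ℕ) : Polynomial ℝ) = Polynomial.C (N.choose k : ℝ) := by simp
      rw [this]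
      ring
    rw [e1, Polynomial.coeff_C_mul, Polynomial.coeff_X_pow_mul']
    by_cases h : k ≤ j
    · rw [if_pos (by omega), if_pos h]
    · rw [if_neg (by omega), if_neg h, mul_zero]
  rw [add_pow, Polynomial.finsetSum_coeff, Finset.sum_congr rfl (fun k _ => hterm k),
    ← Finset.sum_filter]
  refine Finset.sum_congr ?_ fun k _ => rfl
  ext k
  simp only [Finset.mem_filter, Finset.mem_range]
  omega

private lemma momexp_lin (a b : ℝ) (M r : ℕ) :
    ((Polynomial.C a + Polynomial.C (2 * b) * Polynomial.X) ^ M).coeff r =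
      (M.choose r : ℝ) * (2 * b) ^ r * a ^ (M - r) := by
  have hterm : ∀ k : ℕ, ((Polynomial.C (2 * b) * Polynomial.X) ^ k * (Polynomial.C a) ^ (M - k) *
      ((M.choose k : ℕ) : Polynomial ℝ)).coeff r =
      if r = k then (M.choose k : ℝ) * (2 * b) ^ k * a ^ (M - k) else 0 := by
    intro k
    have e1 : (Polynomial.C (2 * b) * Polynomial.X) ^ k * (Polynomial.C a) ^ (M - k) *
        ((M.choose k : ℕ) : Polynomial ℝ) =
        Polynomial.C ((M.choose k : ℝ) * (2 * b) ^ k * a ^ (M - k)) * Polynomial.X ^ k := by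
      rw [mul_pow, ← Polynomial.C_pow, ← Polynomial.C_pow]
      have : ((M.choose k : ℕ) : Polynomial ℝ) = Polynomial.C (M.choose k : ℝ) := by simp
      rw [this, Polynomial.C_mul, Polynomial.C_mul]
      ring
    rw [e1, Polynomial.coeff_C_mul_X_pow]
  rw [add_comm, add_pow, Polynomial.finsetSum_coeff, Finset.sum_congr rfl (fun k _ => hterm k)]
  rw [Finset.sum_ite_eq]
  split_ifs with h
  · rfl
  · rw [Nat.choose_eq_zero_of_lt (by simpa using h)]
    simp

private lemma momexp_sq (a ρ : ℝ) (M r : ℕ) :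
    ((Polynomial.C a * (1 + Polynomial.C ρ * Polynomial.X) ^ 2) ^ M).coeff r =
      a ^ M * (((2 * M).choose r : ℝ) * ρ ^ r) := by
  have e : (Polynomial.C a * (1 + Polynomial.C ρ * Polynomial.X) ^ 2) ^ M =
      Polynomial.C (a ^ M) *
        (Polynomial.C 1 + Polynomial.C (2 * (ρ / 2)) * Polynomial.X) ^ (2 * M) := by
    rw [mul_pow, ← pow_mul, ← Polynomial.C_pow, Polynomial.C_1]
    congr 5
    ring
  rw [e, Polynomial.coeff_C_mul, momexp_lin]
  rw [one_pow, mul_one]
  congr 3
  ring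

theorem mom_exp {a b c : ℝ} (ha : 0 < a) (i j : ℕ) : Mom a b c i j =
    ∑ k ∈ range (j + 1), 2 * a * W a (i + j - k) * Dk (b / a) (c - b ^ 2 / a) k j := by
  have hpoly : Polynomial.C c * Polynomial.X ^ 2 +
      (Polynomial.C a + Polynomial.C (2 * b) * Polynomial.X) =
      Polynomial.C (c - b ^ 2 / a) * Polynomial.X ^ 2 +
        Polynomial.C a * (1 + Polynomial.C (b / a) * Polynomial.X) ^ 2 := by
    have e1 : (2 * b : ℝ) = 2 * (a * (b / a)) := by field_simp
    have e2 : c - b ^ 2 / a = c - a * (b / a) ^ 2 := by field_simp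
    rw [e2]
    conv_lhs => rw [e1]
    simp only [Polynomial.C_mul, Polynomial.C_sub, Polynomial.C_pow]
    have e3 : (Polynomial.C (2 : ℝ)) = 2 := map_ofNat Polynomial.C 2
    rw [e3]
    ring
  have h1 := momexp_coeff (Polynomial.C a + Polynomial.C (2 * b) * Polynomial.X) c (i + j + 1) j
    (by omega)
  rw [hpoly, momexp_coeff _ _ _ _ (by omega)] at h1
  simp only [momexp_sq, momexp_lin] at h1
  -- the factor
  have hNf : (((i + j + 1).factorial : ℕ) : ℝ) ≠ 0 := by positivity
  -- left side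
  have hL : Mom a b c i j = ((2 * i + 1).factorial : ℝ) * (2 * j + 1).factorial /
      (i + j + 1).factorial * ∑ k ∈ range (j + 1), ((i + j + 1).choose k : ℝ) * c ^ k *
        ((((i + j + 1) - k).choose (2 * j + 1 - 2 * k) : ℝ) * (2 * b) ^ (2 * j + 1 - 2 * k) *
          a ^ ((i + j + 1) - k - (2 * j + 1 - 2 * k))) := by
    rw [← Finset.sum_range_reflect]
    have hsub : range (min i j + 1) ⊆ range (j + 1) := by
      intro e he
      rw [Finset.mem_range] at he ⊢
      omega
    rw [← Finset.sum_subset hsub]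
    · unfold Mom
      rw [Finset.mul_sum, Finset.mul_sum]
      refine Finset.sum_congr rfl fun e he => ?_
      rw [Finset.mem_range] at he
      have h2 : j + 1 - 1 - e = j - e := by omega
      have h3 : i + j + 1 - (j - e) = i + 1 + e := by omega
      have h4 : 2 * j + 1 - 2 * (j - e) = 2 * e + 1 := by omega
      have h5 : i + 1 + e - (2 * e + 1) = i - e := by omega
      rw [h2, h3, h4, h5, Nat.cast_choose ℝ (show j - e ≤ i + j + 1 by omega),
        Nat.cast_choose ℝ (show 2 * e + 1 ≤ i + 1 + e by omega), h3, h5]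
      have f1 : (((i + 1 + e).factorial : ℕ) : ℝ) ≠ 0 := by positivity
      have f2 : (((j - e).factorial : ℕ) : ℝ) ≠ 0 := by positivity
      have f3 : (((2 * e + 1).factorial : ℕ) : ℝ) ≠ 0 := by positivity
      have f4 : (((i - e).factorial : ℕ) : ℝ) ≠ 0 := by positivity
      field_simp
    · intro e he he'
      rw [Finset.mem_range] at he he'
      have h2 : j + 1 - 1 - e = j - e := by omega
      have h3 : i + j + 1 - (j - e) = i + 1 + e := by omega
      have h4 : 2 * j + 1 - 2 * (j - e) = 2 * e + 1 := by omega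
      rw [h2, h3, h4, Nat.choose_eq_zero_of_lt (show i + 1 + e < 2 * e + 1 by omega)]
      simp
  rw [hL, ← h1, Finset.mul_sum]
  refine Finset.sum_congr rfl fun k hk => ?_
  rw [Finset.mem_range] at hk
  obtain ⟨m, hm⟩ : ∃ m, i + j = m + k := ⟨i + j - k, by omega⟩
  have h2 : i + j + 1 - k = m + 1 := by omega
  have h3 : i + j - k = m := by omega
  have h4 : 2 * (m + 1) - (2 * j + 1 - 2 * k) = 2 * i + 1 := by omega
  rw [h2, h3, Nat.cast_choose ℝ (show k ≤ i + j + 1 by omega),
    Nat.cast_choose ℝ (show 2 * j + 1 - 2 * k ≤ 2 * (m + 1) by omega), h2, h4]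
  unfold W om Dk
  have f1 : (((m + 1).factorial : ℕ) : ℝ) = ((m : ℝ) + 1) * (m.factorial : ℝ) := by
    rw [Nat.factorial_succ]; push_cast; ring
  have f2 : (((2 * (m + 1)).factorial : ℕ) : ℝ) =
      (2 * ((m : ℝ) + 1)) * (((2 * m + 1).factorial : ℕ) : ℝ) := by
    have : 2 * (m + 1) = (2 * m + 1) + 1 := by ring
    rw [this, Nat.factorial_succ]; push_cast; ring
  rw [f1, f2]
  have g1 : ((m.factorial : ℕ) : ℝ) ≠ 0 := by positivity
  have g2 : ((k.factorial : ℕ) : ℝ) ≠ 0 := by positivity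
  have g3 : (((2 * i + 1).factorial : ℕ) : ℝ) ≠ 0 := by positivity
  have g4 : (((2 * j + 1 - 2 * k).factorial : ℕ) : ℝ) ≠ 0 := by positivity
  have g5 : (m : ℝ) + 1 ≠ 0 := by positivity
  field_simp
  ring

end Pool.Agent.H99.Spl
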