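import Pool.Agent.H99.Spl.Defs

open PowerSeries Finset
open Pool.Agent.H99.Seif

namespace Pool.Agent.H99.Spl

private lemma coeff_lin (a b : ℝ) (M d : ℕ) :
    ((Polynomial.C a + Polynomial.C b * Polynomial.X : Polynomial ℝ) ^ M).coeff d =
      a ^ (M - d) * (M.choose d : ℝ) * b ^ d := by
  have h : (Polynomial.C a + Polynomial.C b * Polynomial.X : Polynomial ℝ) ^ M =
      ((Polynomial.X + Polynomial.C a) ^ M).comp (Polynomial.C b * Polynomial.X) := by
    simp [add_comm]
  rw [h, Polynomial.comp_C_mul_X_coeff, Polynomial.coeff_X_add_C_pow]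

theorem mom_poly (a b c : ℝ) (i j : ℕ) : Mom a b c i j =
    (2 * i + 1).factorial * (2 * j + 1).factorial / (i + j + 1).factorial *
      ((Polynomial.C a + Polynomial.C (2 * b) * Polynomial.X +
        Polynomial.C c * Polynomial.X ^ 2 : Polynomial ℝ) ^ (i + j + 1)).coeff (2 * j + 1) := by
  have h1 : ((Polynomial.C a + Polynomial.C (2 * b) * Polynomial.X +
        Polynomial.C c * Polynomial.X ^ 2 : Polynomial ℝ) ^ (i + j + 1)).coeff (2 * j + 1) =
      ∑ l ∈ range (i + j + 1 + 1), (c ^ l * ((i + j + 1).choose l : ℝ) *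
        (if 2 * l ≤ 2 * j + 1 then a ^ (i + j + 1 - l - (2 * j + 1 - 2 * l)) *
          ((i + j + 1 - l).choose (2 * j + 1 - 2 * l) : ℝ) * (2 * b) ^ (2 * j + 1 - 2 * l) else 0)) := by
    rw [add_comm (Polynomial.C a + Polynomial.C (2 * b) * Polynomial.X : Polynomial ℝ), add_pow,
      Polynomial.finsetSum_coeff]
    refine sum_congr rfl fun l _ => ?_
    have h2 : (Polynomial.C c * Polynomial.X ^ 2 : Polynomial ℝ) ^ l *
        (Polynomial.C a + Polynomial.C (2 * b) * Polynomial.X) ^ (i + j + 1 - l) *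
        ((i + j + 1).choose l : Polynomial ℝ) =
        Polynomial.C (c ^ l * ((i + j + 1).choose l : ℝ)) * (Polynomial.X ^ (2 * l) *
        (Polynomial.C a + Polynomial.C (2 * b) * Polynomial.X) ^ (i + j + 1 - l)) := by
      have h3 : (Polynomial.C (c ^ l * ((i + j + 1).choose l : ℝ)) : Polynomial ℝ) =
          Polynomial.C c ^ l * ((i + j + 1).choose l : Polynomial ℝ) := by
        rw [Polynomial.C_mul, Polynomial.C_pow, Polynomial.C_eq_natCast]
      rw [h3, mul_pow, ← pow_mul]
      ring
    rw [h2, Polynomial.coeff_C_mul, Polynomial.coeff_X_pow_mul', coeff_lin]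
  rw [h1]
  unfold Mom
  rw [mul_sum, mul_sum]
  refine sum_of_injOn (fun e => j - e) ?_ ?_ ?_ ?_
  · intro e he e' he' h
    have h3 := mem_range.1 (mem_coe.1 he)
    have h4 := mem_range.1 (mem_coe.1 he')
    simp only at h
    omega
  · intro e he
    have h3 := mem_range.1 (mem_coe.1 he)
    simp only [coe_range, Set.mem_Iio]
    omega
  · intro l hl hne
    by_cases h3 : 2 * l ≤ 2 * j + 1
    · rw [if_pos h3]
      have h4 : (i + j + 1 - l).choose (2 * j + 1 - 2 * l) = 0 := by
        apply Nat.choose_eq_zero_of_lt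
        by_contra hcon
        apply hne
        refine ⟨j - l, ?_, ?_⟩
        · simp only [coe_range, Set.mem_Iio]
          omega
        · simp only
          omega
      rw [h4]
      simp
    · rw [if_neg h3]
      simp
  · intro e he
    have h3 := mem_range.1 he
    have he1 : e ≤ i := by omega
    have he2 : e ≤ j := by omega
    rw [if_pos (by omega : 2 * (j - e) ≤ 2 * j + 1)]
    have e1 : 2 * j + 1 - 2 * (j - e) = 2 * e + 1 := by omega
    have e2 : i + j + 1 - (j - e) = i + 1 + e := by omega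
    have e3 : i + 1 + e - (2 * e + 1) = i - e := by omega
    rw [e1, e2, e3]
    have f1 : ((i + j + 1).choose (j - e) : ℝ) * ((j - e).factorial * (i + 1 + e).factorial) =
        (i + j + 1).factorial := by
      have h5 := Nat.choose_mul_factorial_mul_factorial (n := i + j + 1) (k := j - e) (by omega)
      rw [e2] at h5
      rw [← h5]
      push_cast
      ring
    have f2 : ((i + 1 + e).choose (2 * e + 1) : ℝ) * ((2 * e + 1).factorial * (i - e).factorial) =
        (i + 1 + e).factorial := by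
      have h5 := Nat.choose_mul_factorial_mul_factorial (n := i + 1 + e) (k := 2 * e + 1) (by omega)
      rw [e3] at h5
      rw [← h5]
      push_cast
      ring
    have p1 : ((j - e).factorial : ℝ) ≠ 0 := by exact_mod_cast Nat.factorial_ne_zero _
    have p2 : ((i + 1 + e).factorial : ℝ) ≠ 0 := by exact_mod_cast Nat.factorial_ne_zero _
    have p3 : ((2 * e + 1).factorial : ℝ) ≠ 0 := by exact_mod_cast Nat.factorial_ne_zero _
    have p4 : ((i - e).factorial : ℝ) ≠ 0 := by exact_mod_cast Nat.factorial_ne_zero _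
    have p5 : ((i + j + 1).factorial : ℝ) ≠ 0 := by exact_mod_cast Nat.factorial_ne_zero _
    have g1 : ((i + j + 1).choose (j - e) : ℝ) =
        (i + j + 1).factorial / ((j - e).factorial * (i + 1 + e).factorial) := by
      rw [eq_div_iff (mul_ne_zero p1 p2)]; exact f1
    have g2 : ((i + 1 + e).choose (2 * e + 1) : ℝ) =
        (i + 1 + e).factorial / ((2 * e + 1).factorial * (i - e).factorial) := by
      rw [eq_div_iff (mul_ne_zero p3 p4)]; exact f2
    rw [g1, g2]
    field_simp

theorem mom_pos {a b c : ℝ} (ha : 0 < a) (hb : 0 < b) (hc : 0 < c) (i j : ℕ) :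
    0 < Mom a b c i j := by
  unfold Mom
  apply mul_pos
  · positivity
  · apply sum_pos
    · intro e _
      positivity
    · exact nonempty_range_add_one

theorem mom_symm (a b c : ℝ) (i j : ℕ) : Mom a b c i j = Mom c b a j i := by
  unfold Mom
  rw [min_comm i j, mul_comm ((2 * i + 1).factorial : ℝ)]
  congr 1
  refine sum_congr rfl fun e _ => ?_
  congr 1
  · ring
  · ring

private lemma mom_mono {a b b' c : ℝ} (ha : 0 < a) (hb : 0 < b) (hc : 0 < c) (hbb : b ≤ b')
    (i j : ℕ) : Mom a b c i j ≤ Mom a b' c i j := by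
  unfold Mom
  apply mul_le_mul_of_nonneg_left _ (by positivity)
  apply sum_le_sum
  intro e _
  apply div_le_div_of_nonneg_right _ (by positivity)
  apply mul_le_mul_of_nonneg_right _ (by positivity)
  apply mul_le_mul_of_nonneg_left _ (by positivity)
  apply pow_le_pow_left₀ (by positivity)
  linarith

private lemma mom_sq {a c : ℝ} (ha : 0 < a) (hc : 0 < c) (i j : ℕ) :
    Mom a (Real.sqrt (a * c)) c i j = 2 * om (i + j) * Real.sqrt (a * c) * a ^ i * c ^ j := by
  rw [mom_poly]
  have hs : Real.sqrt (a * c) = Real.sqrt a * Real.sqrt c := Real.sqrt_mul ha.le c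
  have hsa : Real.sqrt a * Real.sqrt a = a := Real.mul_self_sqrt ha.le
  have hsc : Real.sqrt c * Real.sqrt c = c := Real.mul_self_sqrt hc.le
  have h1 : (Polynomial.C a + Polynomial.C (2 * Real.sqrt (a * c)) * Polynomial.X +
        Polynomial.C c * Polynomial.X ^ 2 : Polynomial ℝ) =
      (Polynomial.C (Real.sqrt a) + Polynomial.C (Real.sqrt c) * Polynomial.X) ^ 2 := by
    have h2 : (Polynomial.C a : Polynomial ℝ) = Polynomial.C (Real.sqrt a) *
        Polynomial.C (Real.sqrt a) := by
      rw [← Polynomial.C_mul, hsa]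
    have h3 : (Polynomial.C c : Polynomial ℝ) = Polynomial.C (Real.sqrt c) *
        Polynomial.C (Real.sqrt c) := by
      rw [← Polynomial.C_mul, hsc]
    have h4 : (Polynomial.C (2 * Real.sqrt (a * c)) : Polynomial ℝ) =
        2 * (Polynomial.C (Real.sqrt a) * Polynomial.C (Real.sqrt c)) := by
      rw [hs, Polynomial.C_mul, Polynomial.C_mul]
      rfl
    rw [h2, h3, h4]
    ring
  rw [h1, ← pow_mul, coeff_lin]
  have e1 : 2 * (i + j + 1) - (2 * j + 1) = 2 * i + 1 := by omega
  rw [e1]
  have f1 : (((2 * (i + j + 1)).choose (2 * j + 1) : ℕ) : ℝ) *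
      ((2 * j + 1).factorial * (2 * i + 1).factorial) = (2 * (i + j + 1)).factorial := by
    have h5 := Nat.choose_mul_factorial_mul_factorial (n := 2 * (i + j + 1)) (k := 2 * j + 1)
      (by omega)
    rw [e1] at h5
    rw [← h5]
    push_cast
    ring
  have p1 : ((2 * j + 1).factorial : ℝ) ≠ 0 := by exact_mod_cast Nat.factorial_ne_zero _
  have p2 : ((2 * i + 1).factorial : ℝ) ≠ 0 := by exact_mod_cast Nat.factorial_ne_zero _
  have g1 : (((2 * (i + j + 1)).choose (2 * j + 1) : ℕ) : ℝ) =
      (2 * (i + j + 1)).factorial / ((2 * j + 1).factorial * (2 * i + 1).factorial) := by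
    rw [eq_div_iff (mul_ne_zero p1 p2)]; exact f1
  have g2 : ((2 * (i + j + 1)).factorial : ℝ) = 2 * ((i + j : ℕ) + 1) * (2 * (i + j) + 1).factorial := by
    have h6 : 2 * (i + j + 1) = (2 * (i + j) + 1) + 1 := by ring
    rw [h6, Nat.factorial_succ]
    push_cast
    ring
  have g3 : ((i + j + 1).factorial : ℝ) = ((i + j : ℕ) + 1) * (i + j).factorial := by
    rw [Nat.factorial_succ]
    push_cast
    ring
  have p3 : ((i + j).factorial : ℝ) ≠ 0 := by exact_mod_cast Nat.factorial_ne_zero _
  have p4 : (((i + j : ℕ) : ℝ) + 1) ≠ 0 := by positivity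
  have q1 : Real.sqrt a ^ (2 * i + 1) = a ^ i * Real.sqrt a := by
    rw [pow_succ, pow_mul, sq, hsa]
  have q2 : Real.sqrt c ^ (2 * j + 1) = c ^ j * Real.sqrt c := by
    rw [pow_succ, pow_mul, sq, hsc]
  rw [g1, g2, g3, q1, q2, hs]
  unfold om
  field_simp

theorem mom_le {a b c : ℝ} (ha : 0 < a) (hb : 0 < b) (hc : 0 < c) (hD : b ^ 2 ≤ a * c) (i j : ℕ) :
    Mom a b c i j ≤ 2 * om (i + j) * Real.sqrt (a * c) * a ^ i * c ^ j := by
  rw [← mom_sq ha hc]
  exact mom_mono ha hb hc (Real.le_sqrt_of_sq_le hD) i j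

end Pool.Agent.H99.Spl
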