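import Pool.Agent.H99.Spl.MomPoly
import Pool.Agent.H99.Spl.MomExp
import Pool.Agent.H99.Spl.Gegen

open PowerSeries Finset
open Pool.Agent.H99.Seif

namespace Pool.Agent.H99.Spl

private theorem mt_coeff_pow_le {P Q : Polynomial ℝ} (hP : ∀ n, 0 ≤ P.coeff n)
    (hPQ : ∀ n, P.coeff n ≤ Q.coeff n) (N : ℕ) :
    ∀ n, 0 ≤ (P ^ N).coeff n ∧ (P ^ N).coeff n ≤ (Q ^ N).coeff n := by
  induction N with
  | zero =>
    intro n
    rw [pow_zero, pow_zero, Polynomial.coeff_one]
    split_ifs <;> norm_num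
  | succ N ih =>
    intro n
    rw [pow_succ, pow_succ, Polynomial.coeff_mul, Polynomial.coeff_mul]
    constructor
    · exact Finset.sum_nonneg fun x _ => mul_nonneg (ih x.1).1 (hP x.2)
    · exact Finset.sum_le_sum fun x _ => mul_le_mul (ih x.1).2 (hPQ x.2) (hP x.2)
        ((ih x.1).1.trans (ih x.1).2)

/-- the basic estimate -/
private theorem mt_base {a b c : ℝ} (hb : 0 < b) (hc : 0 < c) (hca : c ≤ a) (hD : b ^ 2 < a * c) :
    ∃ K η : ℝ, 0 < K ∧ 0 < η ∧ η < 1 ∧ ∀ i j : ℕ, j ≤ i →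
      Mom a b c i j ≤ K * η ^ (2 * j) * W a (i + j) := by
  have ha : 0 < a := lt_of_lt_of_le hc hca
  have hba : b < a := by nlinarith
  obtain ⟨K, η, hK, h0, h1, hG⟩ := gegen (ρ := b / a) (div_pos hb ha) ((div_lt_one ha).2 hba)
  refine ⟨2 * a * K * η, η, by positivity, h0, h1, fun i j hij => ?_⟩
  rw [mom_poly]
  set N := i + j + 1 with hN
  set P : Polynomial ℝ := Polynomial.C a + Polynomial.C (2 * b) * Polynomial.X +
    Polynomial.C c * Polynomial.X ^ 2 with hPdef
  set Q : Polynomial ℝ := 1 + Polynomial.C (2 * (b / a)) * Polynomial.X + Polynomial.X ^ 2 with hQdef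
  have hcP : ∀ n, P.coeff n = (if n = 0 then a else 0) + (if n = 1 then 2 * b else 0) +
      (if n = 2 then c else 0) := by
    intro n
    rw [hPdef]
    simp only [Polynomial.coeff_add, Polynomial.coeff_C, Polynomial.coeff_C_mul,
      Polynomial.coeff_X, Polynomial.coeff_X_pow, eq_comm (a := 1) (b := n)]
    split_ifs <;> simp
  have hcQ : ∀ n, (Polynomial.C a * Q).coeff n = (if n = 0 then a else 0) +
      (if n = 1 then 2 * b else 0) + (if n = 2 then a else 0) := by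
    intro n
    rw [hQdef]
    simp only [Polynomial.coeff_add, Polynomial.coeff_one, Polynomial.coeff_C_mul,
      Polynomial.coeff_X, Polynomial.coeff_X_pow, eq_comm (a := 1) (b := n)]
    have : a * (2 * (b / a)) = 2 * b := by field_simp
    split_ifs <;> simp [mul_add, this]
  have hP0 : ∀ n, 0 ≤ P.coeff n := by
    intro n
    rw [hcP]
    split_ifs <;> positivity
  have hPQ : ∀ n, P.coeff n ≤ (Polynomial.C a * Q).coeff n := by
    intro n
    rw [hcP, hcQ]
    split_ifs <;> linarith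
  have h2 := (mt_coeff_pow_le hP0 hPQ N (2 * j + 1)).2
  rw [mul_pow, ← Polynomial.C_pow, Polynomial.coeff_C_mul] at h2
  have h3 := hG N (2 * j + 1) (by omega)
  have h4 : (P ^ N).coeff (2 * j + 1) ≤
      a ^ N * (K * η ^ (2 * j + 1) * ((2 * N).choose (2 * j + 1) : ℝ)) :=
    h2.trans (mul_le_mul_of_nonneg_left h3 (by positivity))
  have h5 : ((2 * N).choose (2 * j + 1) : ℝ) =
      (2 * N).factorial / ((2 * j + 1).factorial * (2 * i + 1).factorial) := by
    rw [Nat.cast_choose ℝ (by omega : 2 * j + 1 ≤ 2 * N)]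
    have : 2 * N - (2 * j + 1) = 2 * i + 1 := by omega
    rw [this]
  have h6 : ((2 * N).factorial : ℝ) / N.factorial = 2 * om (i + j) := by
    unfold om
    rw [hN, show 2 * (i + j + 1) = (2 * (i + j) + 1) + 1 from by ring,
      Nat.factorial_succ (2 * (i + j) + 1), Nat.factorial_succ (i + j)]
    have : ((i + j).factorial : ℝ) ≠ 0 := by positivity
    push_cast
    have h7 : (i : ℝ) + j + 1 ≠ 0 := by positivity
    field_simp
    ring
  calc ((2 * i + 1).factorial : ℝ) * (2 * j + 1).factorial / N.factorial *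
        (P ^ N).coeff (2 * j + 1)
      ≤ ((2 * i + 1).factorial : ℝ) * (2 * j + 1).factorial / N.factorial *
        (a ^ N * (K * η ^ (2 * j + 1) * ((2 * N).choose (2 * j + 1) : ℝ))) :=
        mul_le_mul_of_nonneg_left h4 (by positivity)
    _ = a ^ N * (K * η ^ (2 * j + 1)) * (((2 * N).factorial : ℝ) / N.factorial) := by
        rw [h5]
        have e1 : ((2 * i + 1).factorial : ℝ) ≠ 0 := by positivity
        have e2 : ((2 * j + 1).factorial : ℝ) ≠ 0 := by positivity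
        have e3 : ((N).factorial : ℝ) ≠ 0 := by positivity
        field_simp
    _ = 2 * a * K * η * η ^ (2 * j) * W a (i + j) := by
        rw [h6, W, hN]
        ring

private theorem mt_poly_geom (R : ℕ) {η : ℝ} (h0 : 0 < η) (h1 : η < 1) :
    ∃ C : ℝ, 0 < C ∧ ∀ j : ℕ, ((2 * j + 1 : ℕ) : ℝ) ^ (2 * R) * η ^ j ≤ C := by
  have h := tendsto_pow_const_mul_const_pow_of_abs_lt_one (2 * R) (r := η)
    (by rw [abs_of_pos h0]; exact h1)
  obtain ⟨C, hC⟩ := h.bddAbove_range
  have hC' : ∀ n : ℕ, (n : ℝ) ^ (2 * R) * η ^ n ≤ C := fun n => hC ⟨n, rfl⟩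
  refine ⟨2 ^ (2 * R) * (|C| + 1) / η, by positivity, fun j => ?_⟩
  rw [le_div_iff₀ h0]
  have h2 : ((2 * j + 1 : ℕ) : ℝ) ^ (2 * R) ≤ (2 * ((j + 1 : ℕ) : ℝ)) ^ (2 * R) := by
    apply pow_le_pow_left₀ (by positivity)
    push_cast
    linarith
  calc ((2 * j + 1 : ℕ) : ℝ) ^ (2 * R) * η ^ j * η
      ≤ (2 * ((j + 1 : ℕ) : ℝ)) ^ (2 * R) * η ^ j * η := by gcongr
    _ = 2 ^ (2 * R) * (((j + 1 : ℕ) : ℝ) ^ (2 * R) * η ^ (j + 1)) := by
        rw [mul_pow, pow_succ η j]; ring
    _ ≤ 2 ^ (2 * R) * (|C| + 1) := by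
        apply mul_le_mul_of_nonneg_left _ (by positivity)
        linarith [hC' (j + 1), le_abs_self C]

/-- comparison of the terms -/
private theorem mt_term {a ρ σ : ℝ} (ha : 0 < a) (hρ : 0 < ρ) (hσ : 0 < σ) (R i j l : ℕ)
    (hl : R + l ≤ j) :
    2 * a * W a (i + j - (R + l)) * Dk ρ σ (R + l) j ≤
      σ ^ R * ((2 * j + 1 : ℕ) : ℝ) ^ (2 * R) *
        (2 * a * W a (i + (j - R) - l) * Dk ρ σ l (j - R)) := by
  have hW : 0 < W a (i + j - (R + l)) := W_pos ha _
  have e1 : i + (j - R) - l = i + j - (R + l) := by omega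
  rw [e1]
  have e2 : Dk ρ σ (R + l) j ≤ σ ^ R * ((2 * j + 1 : ℕ) : ℝ) ^ (2 * R) * Dk ρ σ l (j - R) := by
    unfold Dk
    have e3 : 2 * (j - R) + 1 - 2 * l = 2 * j + 1 - 2 * (R + l) := by omega
    rw [e3]
    set D : ℝ := ((2 * j + 1 - 2 * (R + l)).factorial : ℝ) with hD
    have hDpos : 0 < D := by rw [hD]; positivity
    have e4 : ((l.factorial : ℕ) : ℝ) ≤ ((R + l).factorial : ℝ) := by
      exact_mod_cast Nat.factorial_le (by omega)
    have e5 : ((2 * j + 1).factorial : ℝ) ≤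
        ((2 * j + 1 : ℕ) : ℝ) ^ (2 * R) * ((2 * (j - R) + 1).factorial : ℝ) := by
      have h' : (2 * j + 1).factorial ≤ (2 * (j - R) + 1).factorial * (2 * j + 1) ^ (2 * R) := by
        have h4 : (2 * j + 1).factorial = (2 * (j - R) + 1).factorial *
            ((2 * (j - R) + 1 + 1).ascFactorial (2 * R)) := by
          rw [Nat.factorial_mul_ascFactorial]
          congr 1
          omega
        rw [h4]
        apply Nat.mul_le_mul_left
        refine (Nat.ascFactorial_le_pow_add _ _).trans ?_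
        apply Nat.pow_le_pow_left
        omega
      rw [mul_comm (((2 * j + 1 : ℕ) : ℝ) ^ (2 * R))]
      exact_mod_cast h'
    have e6 : 0 < ((l.factorial : ℕ) : ℝ) := by positivity
    have e7 : 0 < (((R + l).factorial : ℕ) : ℝ) := by positivity
    have e8 : σ ^ (R + l) / (R + l).factorial ≤ σ ^ R * (σ ^ l / l.factorial) := by
      rw [pow_add, mul_div_assoc]
      gcongr
    calc σ ^ (R + l) / (R + l).factorial * ρ ^ (2 * j + 1 - 2 * (R + l)) *
          ((2 * j + 1).factorial / D)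
        ≤ σ ^ R * (σ ^ l / l.factorial) * ρ ^ (2 * j + 1 - 2 * (R + l)) *
          ((((2 * j + 1 : ℕ) : ℝ) ^ (2 * R) * ((2 * (j - R) + 1).factorial : ℝ)) / D) := by
          gcongr
      _ = σ ^ R * ((2 * j + 1 : ℕ) : ℝ) ^ (2 * R) * (σ ^ l / l.factorial *
          ρ ^ (2 * j + 1 - 2 * (R + l)) * ((2 * (j - R) + 1).factorial / D)) := by ring
  calc 2 * a * W a (i + j - (R + l)) * Dk ρ σ (R + l) j
      ≤ 2 * a * W a (i + j - (R + l)) *
        (σ ^ R * ((2 * j + 1 : ℕ) : ℝ) ^ (2 * R) * Dk ρ σ l (j - R)) := by gcongr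
    _ = _ := by ring

theorem mom_tail {a b c : ℝ} (hb : 0 < b) (hc : 0 < c) (hca : c ≤ a) (hD : b ^ 2 < a * c)
    (R : ℕ) : ∃ K η : ℝ, 0 < K ∧ 0 < η ∧ η < 1 ∧ ∀ i j : ℕ, j ≤ i → R ≤ i + j →
      |Mom a b c i j - ∑ k ∈ range R,
        (if k ≤ j then 2 * a * W a (i + j - k) * Dk (b / a) (c - b ^ 2 / a) k j else 0)| ≤
        K * η ^ j * W a (i + j - R) := by
  have ha : 0 < a := lt_of_lt_of_le hc hca
  have hρ : 0 < b / a := div_pos hb ha
  have hσ : 0 < c - b ^ 2 / a := by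
    rw [sub_pos, div_lt_iff₀ ha]
    linarith
  obtain ⟨K, η, hK, h0, h1, hB⟩ := mt_base hb hc hca hD
  obtain ⟨C, hC, hC'⟩ := mt_poly_geom R h0 h1
  refine ⟨(c - b ^ 2 / a) ^ R * C * K / η ^ (2 * R), η, by positivity, h0, h1,
    fun i j hij hR => ?_⟩
  have hWp : 0 < W a (i + j - R) := W_pos ha _
  rcases lt_or_ge j R with hjR | hRj
  · have h2 : Mom a b c i j - ∑ k ∈ range R,
        (if k ≤ j then 2 * a * W a (i + j - k) * Dk (b / a) (c - b ^ 2 / a) k j else 0) = 0 := by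
      rw [mom_exp ha, sub_eq_zero, ← Finset.sum_filter]
      apply Finset.sum_congr _ (fun _ _ => rfl)
      ext k
      rw [mem_filter, mem_range, mem_range]
      omega
    rw [h2, abs_zero]
    positivity
  · have h2 : Mom a b c i j - ∑ k ∈ range R,
        (if k ≤ j then 2 * a * W a (i + j - k) * Dk (b / a) (c - b ^ 2 / a) k j else 0) =
        ∑ l ∈ range (j - R + 1), 2 * a * W a (i + j - (R + l)) *
          Dk (b / a) (c - b ^ 2 / a) (R + l) j := by
      have hs : ∑ k ∈ range R,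
          (if k ≤ j then 2 * a * W a (i + j - k) * Dk (b / a) (c - b ^ 2 / a) k j else 0) =
          ∑ k ∈ range R, 2 * a * W a (i + j - k) * Dk (b / a) (c - b ^ 2 / a) k j := by
        apply Finset.sum_congr rfl
        intro k hk
        rw [if_pos ((mem_range.1 hk).le.trans hRj)]
      rw [hs, mom_exp ha, show j + 1 = R + (j - R + 1) from by omega, Finset.sum_range_add,
        add_sub_cancel_left]
    have hDk : ∀ k, 0 ≤ Dk (b / a) (c - b ^ 2 / a) k j := by
      intro k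
      unfold Dk
      positivity
    rw [h2, abs_of_nonneg (Finset.sum_nonneg fun l _ => mul_nonneg
      (mul_nonneg (by positivity) (W_pos ha _).le) (hDk _))]
    have h3 : ∑ l ∈ range (j - R + 1), 2 * a * W a (i + j - (R + l)) *
          Dk (b / a) (c - b ^ 2 / a) (R + l) j ≤
        (c - b ^ 2 / a) ^ R * ((2 * j + 1 : ℕ) : ℝ) ^ (2 * R) * Mom a b c i (j - R) := by
      rw [mom_exp ha, Finset.mul_sum]
      apply Finset.sum_le_sum
      intro l hl
      apply mt_term ha hρ hσ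
      have := mem_range.1 hl
      omega
    refine h3.trans ?_
    have h4 := hB i (j - R) (by omega)
    have e1 : i + (j - R) = i + j - R := by omega
    rw [e1] at h4
    have h5 : η ^ (2 * (j - R)) = η ^ j * η ^ j / η ^ (2 * R) := by
      rw [eq_div_iff (by positivity), ← pow_add, ← pow_add]
      congr 1
      omega
    calc (c - b ^ 2 / a) ^ R * ((2 * j + 1 : ℕ) : ℝ) ^ (2 * R) * Mom a b c i (j - R)
        ≤ (c - b ^ 2 / a) ^ R * ((2 * j + 1 : ℕ) : ℝ) ^ (2 * R) *
          (K * η ^ (2 * (j - R)) * W a (i + j - R)) := by gcongr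
      _ = (c - b ^ 2 / a) ^ R * (((2 * j + 1 : ℕ) : ℝ) ^ (2 * R) * η ^ j) * K / η ^ (2 * R) *
          η ^ j * W a (i + j - R) := by
          rw [h5]; ring
      _ ≤ (c - b ^ 2 / a) ^ R * C * K / η ^ (2 * R) * η ^ j * W a (i + j - R) := by
          have := hC' j
          gcongr

theorem mom_diag {a b c : ℝ} (hb : 0 < b) (hc : 0 < c) (hca : c ≤ a) (hD : b ^ 2 < a * c) :
    ∃ K η : ℝ, 0 < K ∧ 0 < η ∧ η < 1 ∧ ∀ j : ℕ, Mom a b c j j ≤ K * η ^ (2 * j) * W a (2 * j) := by
  obtain ⟨K, η, hK, h0, h1, hB⟩ := mt_base hb hc hca hD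
  refine ⟨K, η, hK, h0, h1, fun j => ?_⟩
  have := hB j j le_rfl
  rw [← two_mul] at this
  exact this

end Pool.Agent.H99.Spl
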