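import Pool.Agent.H99.Spl.MomPoly

open PowerSeries Finset
open Pool.Agent.H99.Seif

namespace Pool.Agent.H99.Spl

theorem bf_eq_zero {a b c : ℝ} (ha : 0 < a) (hb : 0 < b) (hc : 0 < c) {f g : ℕ → ℝ}
    (h : Bf a b c f g = 0) : f = 0 ∨ g = 0 := by
  classical
  by_contra hcon
  push Not at hcon
  obtain ⟨hf, hg⟩ := hcon
  have hf' : ∃ i, f i ≠ 0 := by
    by_contra h1
    push Not at h1
    exact hf (funext h1)
  have hg' : ∃ i, g i ≠ 0 := by
    by_contra h1
    push Not at h1
    exact hg (funext h1)
  have h1 := congrArg (PowerSeries.coeff (Nat.find hf' + Nat.find hg')) h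
  unfold Bf at h1
  rw [PowerSeries.coeff_mk, map_zero] at h1
  rw [sum_eq_single (Nat.find hf', Nat.find hg')] at h1
  · have h2 := (mom_pos ha hb hc (Nat.find hf') (Nat.find hg')).ne'
    rcases mul_eq_zero.1 h1 with h3 | h3
    · rcases mul_eq_zero.1 h3 with h4 | h4
      · exact Nat.find_spec hf' h4
      · exact Nat.find_spec hg' h4
    · exact h2 h3
  · rintro ⟨x, y⟩ hx hne
    rw [HasAntidiagonal.mem_antidiagonal] at hx
    simp only at hx ⊢
    rcases lt_trichotomy x (Nat.find hf') with h2 | h2 | h2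
    · have h3 := Nat.find_min hf' h2
      rw [not_not] at h3
      rw [h3]
      ring
    · exfalso
      apply hne
      have : y = Nat.find hg' := by omega
      rw [h2, this]
    · have h3 : y < Nat.find hg' := by omega
      have h4 := Nat.find_min hg' h3
      rw [not_not] at h4
      rw [h4]
      ring
  · intro h2
    exact absurd (HasAntidiagonal.mem_antidiagonal.2 (by simp)) h2

theorem bf_symm (a b c : ℝ) (f g : ℕ → ℝ) : Bf a b c f g = Bf c b a g f := by
  ext n
  unfold Bf
  rw [PowerSeries.coeff_mk, PowerSeries.coeff_mk, ← Finset.Nat.sum_antidiagonal_swap]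
  refine sum_congr rfl fun x _ => ?_
  rw [Prod.fst_swap, Prod.snd_swap, mom_symm]
  ring

theorem bf_add_left (a b c : ℝ) (s t : ℝ) (f f' g : ℕ → ℝ) :
    Bf a b c (fun i => s * f i + t * f' i) g = C s * Bf a b c f g + C t * Bf a b c f' g := by
  ext n
  unfold Bf
  rw [map_add, PowerSeries.coeff_C_mul, PowerSeries.coeff_C_mul, PowerSeries.coeff_mk,
    PowerSeries.coeff_mk, PowerSeries.coeff_mk, mul_sum, mul_sum, ← sum_add_distrib]
  refine sum_congr rfl fun x _ => ?_
  ring

private lemma bf_add_right (a b c : ℝ) (s t : ℝ) (f g g' : ℕ → ℝ) :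
    Bf a b c f (fun i => s * g i + t * g' i) = C s * Bf a b c f g + C t * Bf a b c f g' := by
  rw [bf_symm, bf_add_left, bf_symm c b a g f, bf_symm c b a g' f]

theorem bf_tie {a b : ℝ} (ha : 0 < a) (hb : 0 < b) {f g f' g' : ℕ → ℝ}
    (h1 : ∀ i, f i + g i = f' i + g' i) (h2 : Bf a b a f g = Bf a b a f' g') :
    (f = f' ∧ g = g') ∨ (f = g' ∧ g = f') := by
  have hg : g = fun i => 1 * (fun i => 1 * f' i + 1 * g' i) i + (-1) * f i := by
    funext i
    simp only
    linarith [h1 i]
  have h3 : Bf a b a f g = Bf a b a f f' + Bf a b a f g' - Bf a b a f f := by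
    conv_lhs => rw [hg]
    rw [bf_add_right, bf_add_right]
    simp only [map_one, map_neg]
    ring
  have h4 : Bf a b a (fun i => 1 * f i + (-1) * f' i) (fun i => 1 * f i + (-1) * g' i) = 0 := by
    rw [bf_add_left, bf_add_right, bf_add_right]
    simp only [map_one, map_neg]
    have h5 : Bf a b a f' f = Bf a b a f f' := bf_symm a b a f' f
    rw [h5]
    have h6 : Bf a b a f' g' = Bf a b a f f' + Bf a b a f g' - Bf a b a f f := by
      rw [← h2, h3]
    rw [h6]
    ring
  rcases bf_eq_zero ha hb ha h4 with h5 | h5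
  · left
    have h6 : ∀ i, f i = f' i := fun i => by
      have := congrFun h5 i
      simp only [Pi.zero_apply] at this
      linarith
    exact ⟨funext h6, funext fun i => by linarith [h1 i, h6 i]⟩
  · right
    have h6 : ∀ i, f i = g' i := fun i => by
      have := congrFun h5 i
      simp only [Pi.zero_apply] at this
      linarith
    exact ⟨funext h6, funext fun i => by linarith [h1 i, h6 i]⟩

end Pool.Agent.H99.Spl
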