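import Pool.Agent.H99.Spl.Uniq
import Pool.Agent.H99.Spl.Fc

open PowerSeries Finset
open Pool.Agent.H99.Seif

namespace Pool.Agent.H99.Spl

private theorem pos_summable {c : ℕ → ℝ} {B θ : ℝ} (hc : ∀ m, |c m| ≤ B) (hθ : |θ| < 1) (p : ℕ)
    (hp : 1 < p) : Summable fun m : ℕ => |c m * ((m : ℝ) + 1 + θ)⁻¹ ^ p| := by
  have hB : 0 ≤ B := (abs_nonneg _).trans (hc 0)
  have hs : Summable fun m : ℕ => B * ((1 - |θ|)⁻¹ ^ p * (((m + 1 : ℕ) : ℝ) ^ p)⁻¹) := by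
    apply Summable.mul_left
    apply Summable.mul_left
    exact (summable_nat_add_iff 1).2 (Real.summable_nat_pow_inv.2 hp)
  refine Summable.of_nonneg_of_le (fun m => abs_nonneg _) (fun m => ?_) hs
  have hm : (0 : ℝ) ≤ m := Nat.cast_nonneg m
  have h1 : -|θ| ≤ θ := neg_abs_le θ
  have h2 : 0 < 1 - |θ| := by linarith
  have h3 : (1 - |θ|) * ((m : ℝ) + 1) ≤ (m : ℝ) + 1 + θ := by
    have h4 : 0 ≤ |θ| * m := by positivity
    nlinarith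
  have h4 : 0 < (1 - |θ|) * ((m : ℝ) + 1) := by positivity
  have h5 : 0 < (m : ℝ) + 1 + θ := lt_of_lt_of_le h4 h3
  rw [abs_mul, abs_of_nonneg (by positivity : (0 : ℝ) ≤ ((m : ℝ) + 1 + θ)⁻¹ ^ p)]
  refine mul_le_mul (hc m) ?_ (by positivity) hB
  have h6 : ((m : ℝ) + 1 + θ)⁻¹ ≤ (1 - |θ|)⁻¹ * ((m : ℝ) + 1)⁻¹ := by
    rw [← mul_inv]
    exact inv_anti₀ h4 h3
  have h7 := pow_le_pow_left₀ (by positivity) h6 p
  rw [mul_pow, inv_pow ((m : ℝ) + 1)] at h7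
  push_cast
  exact h7

/-- positions of one side -/
private noncomputable def pos_v (τ ρ : ℝ) : ℕ ⊕ ℕ → ℝ :=
  Sum.elim (fun m => ((m : ℝ) + 1 + -ρ) / Real.sqrt τ) (fun m => ((m : ℝ) + 1 + ρ) / Real.sqrt τ)

/-- weights of one side -/
private noncomputable def pos_g (τ : ℝ) (c : ℕ → ℝ) : ℕ ⊕ ℕ → ℝ :=
  Sum.elim (fun m => c m / Real.sqrt τ) (fun m => -(c m / Real.sqrt τ))

private theorem pos_v_pos {τ ρ : ℝ} (hτ : 0 < τ) (h0 : 0 < ρ) (h1 : ρ < 1) (i : ℕ ⊕ ℕ) :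
    0 < pos_v τ ρ i := by
  have hs := Real.sqrt_pos.2 hτ
  rcases i with m | m
  · show 0 < ((m : ℝ) + 1 + -ρ) / Real.sqrt τ
    have hm : (0 : ℝ) ≤ m := Nat.cast_nonneg m
    apply div_pos _ hs
    linarith
  · show 0 < ((m : ℝ) + 1 + ρ) / Real.sqrt τ
    positivity

private theorem pos_v_fin {τ ρ : ℝ} (hτ : 0 < τ) (h0 : 0 < ρ) (h1 : ρ < 1) (R : ℝ) :
    {i | pos_v τ ρ i ≤ R}.Finite := by
  have hs := Real.sqrt_pos.2 hτ
  have hfin : {m : ℕ | m ≤ ⌊R * Real.sqrt τ⌋₊}.Finite := Set.finite_le_nat _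
  refine ((hfin.image Sum.inl).union (hfin.image Sum.inr)).subset ?_
  rintro (m | m) hi
  · refine Or.inl ⟨m, ?_, rfl⟩
    have hi' : ((m : ℝ) + 1 + -ρ) / Real.sqrt τ ≤ R := hi
    rw [div_le_iff₀ hs] at hi'
    exact Nat.le_floor (by linarith)
  · refine Or.inr ⟨m, ?_, rfl⟩
    have hi' : ((m : ℝ) + 1 + ρ) / Real.sqrt τ ≤ R := hi
    rw [div_le_iff₀ hs] at hi'
    exact Nat.le_floor (by linarith)

private theorem pos_term {τ : ℝ} (hτ : 0 < τ) (c y : ℝ) (k : ℕ) :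
    c / Real.sqrt τ * (y / Real.sqrt τ)⁻¹ ^ (2 * k + 1) = τ ^ k * (c * y⁻¹ ^ (2 * k + 1)) := by
  have hs := Real.sqrt_pos.2 hτ
  have h1 : Real.sqrt τ ^ 2 = τ := Real.sq_sqrt hτ.le
  obtain ⟨s, hs'⟩ : ∃ s, s = Real.sqrt τ := ⟨_, rfl⟩
  rw [← hs'] at hs h1 ⊢
  have hne : s ≠ 0 := hs.ne'
  rw [inv_div, div_pow, ← h1, ← pow_mul, inv_pow]
  rw [pow_succ s (2 * k)]
  field_simp

private theorem pos_hasSum {τ ρ B : ℝ} (hτ : 0 < τ) (h0 : 0 < ρ) (h1 : ρ < 1) {c : ℕ → ℝ}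
    (hc : ∀ m, |c m| ≤ B) (k : ℕ) (hk : 1 ≤ k) :
    HasSum (fun i => pos_g τ c i * (pos_v τ ρ i)⁻¹ ^ (2 * k + 1)) (τ ^ k * S c ρ k) := by
  have hs1 := (pos_summable hc (by rw [abs_neg, abs_of_pos h0]; exact h1 : |(-ρ)| < 1) (2 * k + 1)
    (by omega)).of_abs
  have hs2 := (pos_summable hc (by rw [abs_of_pos h0]; exact h1 : |ρ| < 1) (2 * k + 1)
    (by omega)).of_abs
  have h2 : S c ρ k = (∑' m : ℕ, c m * ((m : ℝ) + 1 + -ρ)⁻¹ ^ (2 * k + 1)) -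
      ∑' m : ℕ, c m * ((m : ℝ) + 1 + ρ)⁻¹ ^ (2 * k + 1) := by
    rw [← hs1.tsum_sub hs2]
    unfold S
    congr 1
    funext m
    rw [mul_sub, sub_eq_add_neg ((m : ℝ) + 1) ρ]
  have e : τ ^ k * S c ρ k = τ ^ k * (∑' m : ℕ, c m * ((m : ℝ) + 1 + -ρ)⁻¹ ^ (2 * k + 1)) +
      -(τ ^ k * ∑' m : ℕ, c m * ((m : ℝ) + 1 + ρ)⁻¹ ^ (2 * k + 1)) := by
    rw [h2]
    ring
  rw [e]
  apply HasSum.sum
  · have h3 := hs1.hasSum.mul_left (τ ^ k)
    refine h3.congr_fun ?_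
    intro m
    exact pos_term hτ (c m) ((m : ℝ) + 1 + -ρ) k
  · have h3 := (hs2.hasSum.mul_left (τ ^ k)).neg
    refine h3.congr_fun ?_
    intro m
    show -(c m / Real.sqrt τ) * (((m : ℝ) + 1 + ρ) / Real.sqrt τ)⁻¹ ^ (2 * k + 1) = _
    rw [neg_mul, pos_term hτ (c m) ((m : ℝ) + 1 + ρ) k]

private theorem pos_abs {τ ρ B : ℝ} (hτ : 0 < τ) (h0 : 0 < ρ) (h1 : ρ < 1) {c : ℕ → ℝ}
    (hc : ∀ m, |c m| ≤ B) : Summable fun i => |pos_g τ c i| * (pos_v τ ρ i)⁻¹ ^ 3 := by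
  have hs1 := pos_summable hc (by rw [abs_neg, abs_of_pos h0]; exact h1 : |(-ρ)| < 1) (2 * 1 + 1)
    (by omega)
  have hs2 := pos_summable hc (by rw [abs_of_pos h0]; exact h1 : |ρ| < 1) (2 * 1 + 1)
    (by omega)
  have key : ∀ i, |pos_g τ c i| * (pos_v τ ρ i)⁻¹ ^ 3 =
      |pos_g τ c i * (pos_v τ ρ i)⁻¹ ^ (2 * 1 + 1)| := by
    intro i
    have h2 := pos_v_pos hτ h0 h1 i
    rw [abs_mul, abs_of_nonneg (by positivity : (0 : ℝ) ≤ (pos_v τ ρ i)⁻¹ ^ (2 * 1 + 1))]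
  have h3 : Summable fun i => |pos_g τ c i * (pos_v τ ρ i)⁻¹ ^ (2 * 1 + 1)| := by
    refine (HasSum.sum (a := ∑' m : ℕ, τ ^ 1 * |c m * ((m : ℝ) + 1 + -ρ)⁻¹ ^ (2 * 1 + 1)|)
      (b := ∑' m : ℕ, τ ^ 1 * |c m * ((m : ℝ) + 1 + ρ)⁻¹ ^ (2 * 1 + 1)|) ?_ ?_).summable
    · refine ((hs1.mul_left (τ ^ 1)).hasSum).congr_fun ?_
      intro m
      show |c m / Real.sqrt τ * (((m : ℝ) + 1 + -ρ) / Real.sqrt τ)⁻¹ ^ (2 * 1 + 1)| = _
      rw [pos_term hτ (c m) ((m : ℝ) + 1 + -ρ) 1, abs_mul, abs_of_nonneg (pow_nonneg hτ.le 1)]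
    · refine ((hs2.mul_left (τ ^ 1)).hasSum).congr_fun ?_
      intro m
      show |-(c m / Real.sqrt τ) * (((m : ℝ) + 1 + ρ) / Real.sqrt τ)⁻¹ ^ (2 * 1 + 1)| = _
      rw [neg_mul, abs_neg, pos_term hτ (c m) ((m : ℝ) + 1 + ρ) 1, abs_mul,
        abs_of_nonneg (pow_nonneg hτ.le 1)]
  exact h3.congr fun i => (key i).symm

private theorem pos_fin_summable (c : ℕ → ℝ) (θ z : ℝ) :
    Summable fun m : ℕ => if (m : ℝ) + 1 + θ = z then c m else 0 := by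
  apply summable_of_hasFiniteSupport
  refine (Set.subsingleton_of_forall_eq (s := {m : ℕ | (m : ℝ) + 1 + θ = z})
    ⌊z - 1 - θ⌋₊ ?_).finite.subset ?_
  · intro m hm
    have hm' : (m : ℝ) + 1 + θ = z := hm
    have h1 : z - 1 - θ = (m : ℝ) := by linarith
    rw [h1, Nat.floor_natCast]
  · intro m hm
    by_contra hcon
    exact hm (if_neg hcon)

private theorem pos_Dw {τ : ℝ} (hτ : 0 < τ) (ρ : ℝ) (c : ℕ → ℝ) (x : ℝ) :
    HasSum (fun i => if pos_v τ ρ i = x then pos_g τ c i else 0)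
      (Dw c ρ (Real.sqrt τ * x) / Real.sqrt τ) := by
  have hs := Real.sqrt_pos.2 hτ
  have hs1 := pos_fin_summable c (-ρ) (Real.sqrt τ * x)
  have hs2 := pos_fin_summable c ρ (Real.sqrt τ * x)
  have h2 : Dw c ρ (Real.sqrt τ * x) =
      (∑' m : ℕ, if (m : ℝ) + 1 + -ρ = Real.sqrt τ * x then c m else 0) -
      ∑' m : ℕ, if (m : ℝ) + 1 + ρ = Real.sqrt τ * x then c m else 0 := by
    rw [← hs1.tsum_sub hs2]
    unfold Dw
    rfl
  have e : Dw c ρ (Real.sqrt τ * x) / Real.sqrt τ =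
      (∑' m : ℕ, if (m : ℝ) + 1 + -ρ = Real.sqrt τ * x then c m else 0) / Real.sqrt τ +
      -((∑' m : ℕ, if (m : ℝ) + 1 + ρ = Real.sqrt τ * x then c m else 0) / Real.sqrt τ) := by
    rw [h2, sub_div, sub_eq_add_neg]
  rw [e]
  apply HasSum.sum
  · refine (hs1.hasSum.div_const (Real.sqrt τ)).congr_fun ?_
    intro m
    show (if ((m : ℝ) + 1 + -ρ) / Real.sqrt τ = x then c m / Real.sqrt τ else 0) = _
    have h3 : ((m : ℝ) + 1 + -ρ) / Real.sqrt τ = x ↔ (m : ℝ) + 1 + -ρ = Real.sqrt τ * x := by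
      rw [div_eq_iff hs.ne', mul_comm]
    by_cases h : (m : ℝ) + 1 + -ρ = Real.sqrt τ * x
    · rw [if_pos (h3.2 h), if_pos h]
    · rw [if_neg (fun h' => h (h3.1 h')), if_neg h, zero_div]
  · refine ((hs2.hasSum.div_const (Real.sqrt τ)).neg).congr_fun ?_
    intro m
    show (if ((m : ℝ) + 1 + ρ) / Real.sqrt τ = x then -(c m / Real.sqrt τ) else 0) = _
    have h3 : ((m : ℝ) + 1 + ρ) / Real.sqrt τ = x ↔ (m : ℝ) + 1 + ρ = Real.sqrt τ * x := by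
      rw [div_eq_iff hs.ne', mul_comm]
    by_cases h : (m : ℝ) + 1 + ρ = Real.sqrt τ * x
    · rw [if_pos (h3.2 h), if_pos h]
    · rw [if_neg (fun h' => h (h3.1 h')), if_neg h, zero_div, neg_zero]

theorem pos_eq {τ ρ τ' ρ' B : ℝ} (hτ : 0 < τ) (h0 : 0 < ρ) (h1 : ρ < 1)
    (hτ' : 0 < τ') (h0' : 0 < ρ') (h1' : ρ' < 1) {c c' : ℕ → ℝ} (hc : ∀ m, |c m| ≤ B)
    (hc' : ∀ m, |c' m| ≤ B) (h : ∀ k : ℕ, 1 ≤ k → τ ^ k * S c ρ k = τ' ^ k * S c' ρ' k) (x : ℝ)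
    (hx : 0 < x) : Dw c ρ (Real.sqrt τ * x) / Real.sqrt τ =
      Dw c' ρ' (Real.sqrt τ' * x) / Real.sqrt τ' := by
  obtain ⟨v, hv⟩ : ∃ v : (ℕ ⊕ ℕ) ⊕ (ℕ ⊕ ℕ) → ℝ,
    v = Sum.elim (pos_v τ ρ) (pos_v τ' ρ') := ⟨_, rfl⟩
  obtain ⟨g, hg⟩ : ∃ g : (ℕ ⊕ ℕ) ⊕ (ℕ ⊕ ℕ) → ℝ,
    g = Sum.elim (pos_g τ c) (fun i => -pos_g τ' c' i) := ⟨_, rfl⟩
  have h2 := uniq (v := v) (g := g) (by
      rw [hv]
      rintro (i | i)
      · exact pos_v_pos hτ h0 h1 i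
      · exact pos_v_pos hτ' h0' h1' i) (by
      intro R
      refine (((pos_v_fin hτ h0 h1 R).image Sum.inl).union
        ((pos_v_fin hτ' h0' h1' R).image Sum.inr)).subset ?_
      rw [hv]
      rintro (i | i) hi
      · exact Or.inl ⟨i, hi, rfl⟩
      · exact Or.inr ⟨i, hi, rfl⟩) (by
      have h3 := (pos_abs hτ h0 h1 hc).hasSum
      have h4 := (pos_abs hτ' h0' h1' hc').hasSum
      have h5 : HasSum (fun i => |g i| * (v i)⁻¹ ^ 3)
          ((∑' i, |pos_g τ c i| * (pos_v τ ρ i)⁻¹ ^ 3) +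
            ∑' i, |pos_g τ' c' i| * (pos_v τ' ρ' i)⁻¹ ^ 3) := by
        apply HasSum.sum
        · rw [hv, hg]
          exact h3
        · refine h4.congr_fun ?_
          intro i
          rw [hv, hg]
          show |(-pos_g τ' c' i)| * (pos_v τ' ρ' i)⁻¹ ^ 3 = |pos_g τ' c' i| * (pos_v τ' ρ' i)⁻¹ ^ 3
          rw [abs_neg]
      exact h5.summable) (by
      intro k hk
      have h3 : HasSum (fun i => g i * (v i)⁻¹ ^ (2 * k + 1))
          (τ ^ k * S c ρ k + -(τ' ^ k * S c' ρ' k)) := by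
        apply HasSum.sum
        · rw [hv, hg]
          exact pos_hasSum hτ h0 h1 hc k hk
        · have h4 := (pos_hasSum hτ' h0' h1' hc' k hk).neg
          refine h4.congr_fun ?_
          intro i
          rw [hv, hg]
          show -pos_g τ' c' i * (pos_v τ' ρ' i)⁻¹ ^ (2 * k + 1) =
            -(pos_g τ' c' i * (pos_v τ' ρ' i)⁻¹ ^ (2 * k + 1))
          rw [neg_mul]
      rw [h3.tsum_eq, h k hk, add_neg_cancel]) x
  have h4 : HasSum (fun i => if v i = x then g i else 0)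
      (Dw c ρ (Real.sqrt τ * x) / Real.sqrt τ +
        -(Dw c' ρ' (Real.sqrt τ' * x) / Real.sqrt τ')) := by
    apply HasSum.sum
    · rw [hv, hg]
      exact pos_Dw hτ ρ c x
    · have h5 := (pos_Dw hτ' ρ' c' x).neg
      refine h5.congr_fun ?_
      intro i
      rw [hv, hg]
      show (if pos_v τ' ρ' i = x then -pos_g τ' c' i else 0) =
        -(if pos_v τ' ρ' i = x then pos_g τ' c' i else 0)
      split_ifs
      · rfl
      · rw [neg_zero]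
  rw [h4.tsum_eq] at h2
  linarith

theorem fc_inj {B : ℝ} {c c' : ℕ → ℝ} (hc : ∀ m, |c m| ≤ B) (hc' : ∀ m, |c' m| ≤ B)
    (h : fc c = fc c') : c = c' := by
  have hπ := Real.pi_pos
  obtain ⟨v, hv⟩ : ∃ v : ℕ → ℝ, v = fun m : ℕ => 2 * Real.pi * ((m : ℝ) + 1) := ⟨_, rfl⟩
  have hv0 : ∀ m, 0 < v m := fun m => by
    rw [hv]
    positivity
  have hinj : ∀ m m', v m = v m' → m = m' := by
    intro m m' hm
    rw [hv] at hm
    have h1 : 2 * Real.pi * ((m : ℝ) + 1) = 2 * Real.pi * ((m' : ℝ) + 1) := hm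
    have h2 : (m : ℝ) + 1 = (m' : ℝ) + 1 := mul_left_cancel₀ (by positivity) h1
    exact_mod_cast add_right_cancel h2
  have hterm : ∀ (d : ℕ → ℝ) (k m : ℕ), 1 ≤ k → d m * v m * (v m)⁻¹ ^ (2 * k + 1) =
      d m * (4 * Real.pi ^ 2 * ((m : ℝ) + 1) ^ 2)⁻¹ ^ (k - 1 + 1) := by
    intro d k m hk
    have h1 : 4 * Real.pi ^ 2 * ((m : ℝ) + 1) ^ 2 = v m ^ 2 := by
      rw [hv]
      ring
    rw [h1, Nat.sub_add_cancel hk, inv_pow, inv_pow, ← pow_mul, pow_succ]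
    have := (hv0 m).ne'
    field_simp
  have hdiff : ∀ m, |c m - c' m| ≤ B + B := fun m =>
    (abs_sub _ _).trans (add_le_add (hc m) (hc' m))
  have h2 := fun x => uniq (v := v) (g := fun m => (c m - c' m) * v m) hv0 (by
      intro R
      refine (Set.finite_le_nat ⌊R⌋₊).subset ?_
      intro m hm
      have hm' : v m ≤ R := hm
      apply Nat.le_floor
      refine le_trans ?_ hm'
      rw [hv]
      show (m : ℝ) ≤ 2 * Real.pi * ((m : ℝ) + 1)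
      have h3 : (1 : ℝ) ≤ 2 * Real.pi := by linarith [Real.pi_gt_three]
      have hm0 : (0 : ℝ) ≤ m := Nat.cast_nonneg m
      nlinarith) (by
      have hs := (fc_summable hdiff 0).abs
      refine hs.congr fun m => ?_
      have h3 := hterm (fun m => c m - c' m) 1 m le_rfl
      have h4 : |(c m - c' m) * v m| * (v m)⁻¹ ^ 3 =
          |(c m - c' m) * v m * (v m)⁻¹ ^ (2 * 1 + 1)| := by
        have h5 := hv0 m
        rw [abs_mul ((c m - c' m) * v m),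
          abs_of_nonneg (by positivity : (0 : ℝ) ≤ (v m)⁻¹ ^ (2 * 1 + 1))]
      rw [h4, h3]) (by
      intro k hk
      have h3 : ∑' m : ℕ, (c m - c' m) * v m * (v m)⁻¹ ^ (2 * k + 1) =
          fc c (k - 1) - fc c' (k - 1) := by
        unfold fc
        rw [← (fc_summable hc (k - 1)).tsum_sub (fc_summable hc' (k - 1))]
        congr 1
        funext m
        rw [hterm (fun m => c m - c' m) k m hk, sub_mul]
      rw [h3, h, sub_self]) x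
  funext m0
  have h3 := h2 (v m0)
  rw [tsum_eq_single m0] at h3
  · rw [if_pos rfl] at h3
    have h4 := (mul_eq_zero.1 h3).resolve_right (hv0 m0).ne'
    linarith
  · intro m hm
    exact if_neg (fun h' => hm (hinj _ _ h'))

end Pool.Agent.H99.Spl
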