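import Pool.Agent.H99.Spl.Fc

open PowerSeries Finset
open Pool.Agent.H99.Seif

namespace Pool.Agent.H99.Spl

private lemma sec_nu (k : ℕ) : nu (k + 1) = 2 * om k := by
  unfold nu om
  have e1 : 2 * (k + 1) = (2 * k + 1) + 1 := by ring
  rw [e1, Nat.factorial_succ, Nat.factorial_succ k]
  have h1 : ((k.factorial : ℕ) : ℝ) ≠ 0 := by positivity
  have h2 : (k : ℝ) + 1 ≠ 0 := by positivity
  push_cast
  field_simp
  ring

private lemma sec_main {A : ℝ} (hA : 0 < A) (α : ℝ) :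
    HasExp A (PowerSeries.mk fun k => α * W A k) (C α) 0 := by
  intro R
  rcases R with _ | R
  · refine ⟨|α|, fun m _ => ?_⟩
    rw [Finset.range_zero, Finset.sum_empty, sub_zero, coeff_mk, abs_mul, Nat.sub_zero,
      abs_of_pos (W_pos hA m)]
  · refine ⟨0, fun m _ => ?_⟩
    have e : ∑ k ∈ range (R + 1), (coeff k (C α : ℝ⟦X⟧) + (-1) ^ m * coeff k (0 : ℝ⟦X⟧)) *
        W A (m - k) = α * W A m := by
      rw [Finset.sum_range_succ']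
      have e0 : ∑ k ∈ range R, (coeff (k + 1) (C α : ℝ⟦X⟧) +
          (-1) ^ m * coeff (k + 1) (0 : ℝ⟦X⟧)) * W A (m - (k + 1)) = 0 := by
        refine Finset.sum_eq_zero fun k _ => ?_
        rw [coeff_C, if_neg (Nat.succ_ne_zero k), map_zero]
        ring
      rw [e0, coeff_C, if_pos rfl, map_zero, Nat.sub_zero]
      ring
    rw [e, coeff_mk, sub_self, abs_zero, zero_mul]

private lemma sec_rest {ρ B : ℝ} (h0 : 0 < ρ) (h1 : ρ < 1) {c : ℕ → ℝ} (hc : ∀ m, |c m| ≤ B) :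
    ∃ M : ℝ, 0 ≤ M ∧ ∀ k : ℕ, |S c ρ (k + 1) - c 0 * (1 - ρ)⁻¹ ^ (2 * k + 3)| ≤ M := by
  have hB : 0 ≤ B := (abs_nonneg _).trans (hc 0)
  have hsum : Summable fun m : ℕ => B * ((m : ℝ) + 1)⁻¹ ^ 2 := by
    refine Summable.mul_left B ?_
    have h2 : Summable fun m : ℕ => 1 / (((m + 1 : ℕ)) : ℝ) ^ 2 :=
      (summable_nat_add_iff 1).2 (Real.summable_one_div_nat_pow.2 (by norm_num))
    refine h2.congr fun m => ?_
    push_cast
    rw [inv_pow, one_div]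
  refine ⟨B + ∑' m : ℕ, B * ((m : ℝ) + 1)⁻¹ ^ 2,
    add_nonneg hB (tsum_nonneg fun m => by positivity), fun k => ?_⟩
  have hS := S_summable hc h0 h1 (k + 1)
  unfold S
  have e1 := hS.tsum_eq_zero_add
  rw [e1]
  have e2 : 2 * (k + 1) + 1 = 2 * k + 3 := by ring
  rw [e2]
  have e3 : c 0 * ((((0 : ℕ) : ℝ) + 1 - ρ)⁻¹ ^ (2 * k + 3) -
      (((0 : ℕ) : ℝ) + 1 + ρ)⁻¹ ^ (2 * k + 3)) = c 0 * (1 - ρ)⁻¹ ^ (2 * k + 3) -
      c 0 * (1 + ρ)⁻¹ ^ (2 * k + 3) := by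
    push_cast
    rw [zero_add]
    ring
  rw [e3]
  have e4 : ∀ T : ℝ, c 0 * (1 - ρ)⁻¹ ^ (2 * k + 3) - c 0 * (1 + ρ)⁻¹ ^ (2 * k + 3) + T -
      c 0 * (1 - ρ)⁻¹ ^ (2 * k + 3) = -(c 0 * (1 + ρ)⁻¹ ^ (2 * k + 3)) + T := by
    intro T
    ring
  rw [e4]
  refine (abs_add_le _ _).trans (add_le_add ?_ ?_)
  · rw [abs_neg, abs_mul]
    have h2 : |(1 + ρ)⁻¹ ^ (2 * k + 3)| ≤ 1 := by
      rw [abs_of_nonneg (by positivity)]
      exact pow_le_one₀ (by positivity) (inv_le_one_of_one_le₀ (by linarith))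
    calc |c 0| * |(1 + ρ)⁻¹ ^ (2 * k + 3)| ≤ B * 1 :=
          mul_le_mul (hc 0) h2 (abs_nonneg _) hB
      _ = B := mul_one B
  · rw [← Real.norm_eq_abs]
    refine tsum_of_norm_bounded hsum.hasSum fun m => ?_
    rw [Real.norm_eq_abs, abs_mul]
    refine mul_le_mul (hc _) ?_ (abs_nonneg _) hB
    have hm : (0 : ℝ) ≤ (m : ℝ) := Nat.cast_nonneg m
    have p1 : (0 : ℝ) < ((m + 1 : ℕ) : ℝ) + 1 - ρ := by push_cast; linarith
    have p2 : (0 : ℝ) < ((m + 1 : ℕ) : ℝ) + 1 + ρ := by push_cast; linarith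
    have p3 : (0 : ℝ) < (m : ℝ) + 1 := by linarith
    have q1 : (((m + 1 : ℕ) : ℝ) + 1 + ρ)⁻¹ ^ (2 * k + 3) ≤
        (((m + 1 : ℕ) : ℝ) + 1 - ρ)⁻¹ ^ (2 * k + 3) := by
      refine pow_le_pow_left₀ (by positivity) ?_ _
      exact inv_anti₀ p1 (by linarith)
    have q2 : (((m + 1 : ℕ) : ℝ) + 1 - ρ)⁻¹ ^ (2 * k + 3) ≤ ((m : ℝ) + 1)⁻¹ ^ (2 * k + 3) := by
      refine pow_le_pow_left₀ (by positivity) ?_ _
      refine inv_anti₀ p3 ?_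
      push_cast
      linarith
    have q3 : ((m : ℝ) + 1)⁻¹ ^ (2 * k + 3) ≤ ((m : ℝ) + 1)⁻¹ ^ 2 :=
      pow_le_pow_of_le_one (by positivity) (inv_le_one_of_one_le₀ (by linarith)) (by omega)
    have q4 : 0 ≤ (((m + 1 : ℕ) : ℝ) + 1 + ρ)⁻¹ ^ (2 * k + 3) := by positivity
    rw [abs_of_nonneg (by linarith)]
    linarith

theorem amp_sec {K τ ρ B : ℝ} (hτ : 0 < τ) (h0 : 0 < ρ) (h1 : ρ < 1) {c : ℕ → ℝ}
    (hc : ∀ m, |c m| ≤ B) :
    HasExp (τ / (1 - ρ) ^ 2) (PowerSeries.mk fun k => coeff (k + 1) (amp K τ c ρ))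
      (C (2 * K * τ * c 0 / (1 - ρ) ^ 3)) 0 := by
  have hr : 0 < 1 - ρ := by linarith
  have hA : 0 < τ / (1 - ρ) ^ 2 := by positivity
  obtain ⟨M, hM0, hM⟩ := sec_rest h0 h1 hc
  have t1 := sec_main hA (2 * K * τ * c 0 / (1 - ρ) ^ 3)
  have hθ0 : 0 < (1 - ρ) ^ 2 := by positivity
  have hθ1 : (1 - ρ) ^ 2 < 1 := by nlinarith
  have t2 : HasExp (τ / (1 - ρ) ^ 2) (PowerSeries.mk fun k => coeff (k + 1) (amp K τ c ρ) -
      2 * K * τ * c 0 / (1 - ρ) ^ 3 * W (τ / (1 - ρ) ^ 2) k) 0 0 := by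
    refine hasExp_of_small (K := 2 * |K| * τ * M) hA hθ0 hθ1 fun k => ?_
    rw [coeff_mk]
    unfold amp
    rw [coeff_mk, sec_nu]
    have e1 : K * (2 * om k) * τ ^ (k + 1) * S c ρ (k + 1) -
        2 * K * τ * c 0 / (1 - ρ) ^ 3 * W (τ / (1 - ρ) ^ 2) k =
        2 * K * τ * (om k * τ ^ k) * (S c ρ (k + 1) - c 0 * (1 - ρ)⁻¹ ^ (2 * k + 3)) := by
      unfold W
      have e2 : (τ / (1 - ρ) ^ 2) ^ k = τ ^ k * (1 - ρ)⁻¹ ^ (2 * k) := by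
        rw [div_pow, ← pow_mul, inv_pow, div_eq_mul_inv]
      have e3 : (1 - ρ)⁻¹ ^ (2 * k + 3) = (1 - ρ)⁻¹ ^ (2 * k) * ((1 - ρ) ^ 3)⁻¹ := by
        rw [pow_add, inv_pow (1 - ρ) 3]
      rw [e2, e3, div_eq_mul_inv]
      ring
    have e4 : (1 - ρ) ^ 2 * (τ / (1 - ρ) ^ 2) = τ := by field_simp
    have e5 : 2 * |K| * τ * M * ((1 - ρ) ^ 2) ^ k * W (τ / (1 - ρ) ^ 2) k =
        2 * |K| * τ * (om k * τ ^ k) * M := by
      unfold W
      have : ((1 - ρ) ^ 2) ^ k * (τ / (1 - ρ) ^ 2) ^ k = τ ^ k := by rw [← mul_pow, e4]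
      rw [← this]
      ring
    rw [e1, e5, abs_mul]
    have e6 : |2 * K * τ * (om k * τ ^ k)| = 2 * |K| * τ * (om k * τ ^ k) := by
      have ho := om_pos k
      rw [abs_mul, abs_mul, abs_mul, abs_of_pos (show (0 : ℝ) < 2 by norm_num), abs_of_pos hτ,
        abs_of_pos (show 0 < om k * τ ^ k by positivity)]
    rw [e6]
    have ho := om_pos k
    exact mul_le_mul_of_nonneg_left (hM k) (by positivity)
  have t := hasExp_add t1 t2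
  rw [add_zero, add_zero] at t
  convert t using 1
  ext k
  rw [map_add, coeff_mk, coeff_mk, coeff_mk]
  ring

end Pool.Agent.H99.Spl
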