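import Pool.Agent.H99.Spl.Defs

open PowerSeries Finset
open Pool.Agent.H99.Seif

namespace Pool.Agent.H99.Spl

private theorem Sine_pair {p : Finset ℕ} (hp : IsNode p) :
    ∃ a b : ℕ, 2 ≤ a ∧ a < b ∧ p = {a, b} := by
  obtain ⟨h1, h2, h3⟩ := hp
  obtain ⟨a, b, hab, rfl⟩ := Finset.card_eq_two.1 h1
  have ha : 2 ≤ a := h2 a (by simp)
  have hb : 2 ≤ b := h2 b (by simp)
  rcases lt_or_gt_of_ne hab with h | h
  · exact ⟨a, b, ha, h, rfl⟩
  · exact ⟨b, a, hb, h, Finset.pair_comm a b⟩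

private theorem Sine_w {a b : ℕ} (hab : a < b) (m : ℕ) : w {a, b} m =
    (-1) ^ m * (Real.sin (Real.pi * ((m : ℝ) + 1) / a) * Real.sin (Real.pi * ((m : ℝ) + 1) / b)) := by
  unfold w
  rw [Finset.prod_pair hab.ne]

private theorem Sine_pos {a : ℕ} (ha : 2 ≤ a) : 0 < Real.sin (Real.pi * (((0 : ℕ) : ℝ) + 1) / a) := by
  have ha' : (2 : ℝ) ≤ a := by exact_mod_cast ha
  have hpi := Real.pi_pos
  rw [Nat.cast_zero, zero_add, mul_one]
  apply Real.sin_pos_of_pos_of_lt_pi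
  · positivity
  · rw [div_lt_iff₀ (by linarith)]
    nlinarith

private theorem Sine_cos_lt {a : ℕ} (ha : 2 ≤ a) : Real.cos (Real.pi / a) < 1 := by
  have ha' : (2 : ℝ) ≤ a := by exact_mod_cast ha
  have hpi := Real.pi_pos
  have h1 : 0 < Real.pi / a := by positivity
  have h2 : Real.pi / a ≤ Real.pi := by
    rw [div_le_iff₀ (by linarith)]
    nlinarith
  have h := Real.cos_lt_cos_of_nonneg_of_le_pi (le_refl 0) h2 h1
  rwa [Real.cos_zero] at h

private theorem Sine_cos_mono {k a : ℕ} (hk : 1 ≤ k) (ha : k ≤ a) :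
    Real.cos (Real.pi / k) ≤ Real.cos (Real.pi / a) := by
  have hk' : (1 : ℝ) ≤ k := by exact_mod_cast hk
  have ha' : (k : ℝ) ≤ a := by exact_mod_cast ha
  have hpi := Real.pi_pos
  apply Real.cos_le_cos_of_nonneg_of_le_pi
  · positivity
  · rw [div_le_iff₀ (by linarith)]
    nlinarith
  · apply div_le_div_of_nonneg_left hpi.le (by linarith) ha'

private theorem Sine_X {a b : ℕ} (ha : 2 ≤ a) (hab : a < b) :
    4 * Real.cos (Real.pi / a) * Real.cos (Real.pi / b) = 0 ∨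
    (1.4 < 4 * Real.cos (Real.pi / a) * Real.cos (Real.pi / b) ∧
      4 * Real.cos (Real.pi / a) * Real.cos (Real.pi / b) ≠ 2) := by
  have hs2 : (1.41 : ℝ) < Real.sqrt 2 := by
    rw [Real.lt_sqrt (by norm_num)]
    norm_num
  have hs5 : (2.2 : ℝ) < Real.sqrt 5 := by
    rw [Real.lt_sqrt (by norm_num)]
    norm_num
  rcases Nat.lt_or_ge a 3 with h | h
  · left
    have : a = 2 := by omega
    subst this
    have h1 : Real.cos (Real.pi / ((2 : ℕ) : ℝ)) = 0 := by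
      simp
    rw [h1]
    ring
  · right
    have c3 : Real.cos (Real.pi / ((3 : ℕ) : ℝ)) = 1 / 2 := by
      simp
    have c4 : Real.cos (Real.pi / ((4 : ℕ) : ℝ)) = Real.sqrt 2 / 2 := by
      simp
    have c5 : Real.cos (Real.pi / ((5 : ℕ) : ℝ)) = (1 + Real.sqrt 5) / 4 := by
      simp
    have h1 := Sine_cos_mono (k := 3) (by norm_num) h
    have h2 := Sine_cos_mono (k := 4) (a := b) (by norm_num) (by omega)
    rw [c3] at h1
    rw [c4] at h2
    constructor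
    · nlinarith
    · rcases Nat.lt_or_ge a 4 with h' | h'
      · have : a = 3 := by omega
        subst this
        rw [c3]
        have := Sine_cos_lt (a := b) (by omega)
        intro hh
        linarith
      · have h3 := Sine_cos_mono (k := 4) (by norm_num) h'
        have h4 := Sine_cos_mono (k := 5) (a := b) (by norm_num) (by omega)
        rw [c4] at h3
        rw [c5] at h4
        have h5 : (0.705 : ℝ) ≤ Real.cos (Real.pi / a) := by linarith
        have h6 : (0.8 : ℝ) ≤ Real.cos (Real.pi / b) := by linarith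
        have h7 : (0.705 : ℝ) * 0.8 ≤ Real.cos (Real.pi / a) * Real.cos (Real.pi / b) :=
          mul_le_mul h5 h6 (by norm_num) (by linarith)
        intro hh
        nlinarith

private theorem Sine_double {a : ℕ} :
    Real.sin (Real.pi * (((1 : ℕ) : ℝ) + 1) / a) =
      2 * Real.sin (Real.pi * (((0 : ℕ) : ℝ) + 1) / a) * Real.cos (Real.pi / a) := by
  have h1 : Real.pi * (((1 : ℕ) : ℝ) + 1) / a = 2 * (Real.pi / a) := by
    push_cast
    ring
  have h2 : Real.pi * (((0 : ℕ) : ℝ) + 1) / a = Real.pi / a := by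
    push_cast
    ring
  rw [h1, h2, Real.sin_two_mul]

private theorem Sine_form {p : Finset ℕ} (hp : IsNode p) : 0 < w p 0 ∧ ∃ x : ℝ,
    w p 1 = - (w p 0 * x) ∧ (x = 0 ∨ (1.4 < x ∧ x ≠ 2)) := by
  obtain ⟨a, b, ha, hab, rfl⟩ := Sine_pair hp
  have hb : 2 ≤ b := by omega
  have h0 := Sine_w hab 0
  have h1 := Sine_w hab 1
  rw [Sine_double, Sine_double] at h1
  have pa := Sine_pos ha
  have pb := Sine_pos hb
  refine ⟨?_, _, ?_, Sine_X ha hab⟩
  · rw [h0, pow_zero, one_mul]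
    exact mul_pos pa pb
  · rw [h0, h1]
    ring

theorem w_zero_pos {p : Finset ℕ} (hp : IsNode p) : 0 < w p 0 := (Sine_form hp).1

theorem w_one_nonpos {p : Finset ℕ} (hp : IsNode p) : w p 1 ≤ 0 := by
  obtain ⟨h0, x, h1, h2⟩ := Sine_form hp
  rw [h1]
  rcases h2 with h2 | h2
  · rw [h2]
    simp
  · nlinarith [h2.1]

theorem abs_w_le (p : Finset ℕ) (m : ℕ) : |w p m| ≤ 1 := by
  unfold w
  rw [abs_mul, abs_pow, abs_neg, abs_one, one_pow, one_mul, Finset.abs_prod]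
  exact Finset.prod_le_one (fun _ _ => abs_nonneg _) (fun _ _ => Real.abs_sin_le_one _)

theorem w_sum_ne {p : Finset ℕ} (hp : IsNode p) : w p 0 + w p 1 ≠ 0 := by
  obtain ⟨h0, x, h1, h2⟩ := Sine_form hp
  rw [h1]
  intro h
  have h3 : w p 0 * (1 - x) = 0 := by linarith
  rcases mul_eq_zero.1 h3 with h4 | h4
  · exact h0.ne' h4
  · rcases h2 with h2 | h2
    · linarith
    · linarith [h2.1]

theorem w_sum_ne' {p q : Finset ℕ} (hp : IsNode p) (hq : IsNode q) :
    (w p 0 * w q 0 + w q 0 * w p 0) + (w p 0 * w q 1 + w q 0 * w p 1) ≠ 0 := by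
  obtain ⟨h0, x, h1, h2⟩ := Sine_form hp
  obtain ⟨g0, y, g1, g2⟩ := Sine_form hq
  rw [h1, g1]
  intro h
  have h3 : (w p 0 * w q 0) * (2 - x - y) = 0 := by linarith
  rcases mul_eq_zero.1 h3 with h4 | h4
  · exact (mul_pos h0 g0).ne' h4
  · rcases h2 with h2 | h2 <;> rcases g2 with g2 | g2
    · linarith
    · exact g2.2 (by linarith)
    · exact h2.2 (by linarith)
    · linarith [h2.1, g2.1]

theorem w_eq_zero_iff {p : Finset ℕ} (hp : IsNode p) (m : ℕ) : w p m = 0 ↔ ∃ k ∈ p, k ∣ m + 1 := by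
  unfold w
  rw [mul_eq_zero, Finset.prod_eq_zero_iff]
  have h0 : ((-1 : ℝ) ^ m = 0) ↔ False := by
    simp
  rw [h0, false_or]
  constructor
  · rintro ⟨k, hk, h⟩
    refine ⟨k, hk, ?_⟩
    have hk2 := hp.2.1 k hk
    have hk' : (0 : ℝ) < (k : ℝ) := by
      have : (2 : ℝ) ≤ k := by exact_mod_cast hk2
      linarith
    rw [Real.sin_eq_zero_iff] at h
    obtain ⟨n, hn⟩ := h
    have h1 : (n : ℝ) * k = (m : ℝ) + 1 := by
      have hpi := Real.pi_pos
      have h2 : (n : ℝ) * Real.pi * k = Real.pi * ((m : ℝ) + 1) := by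
        rw [hn]; field_simp
      have h3 : Real.pi * ((n : ℝ) * k - ((m : ℝ) + 1)) = 0 := by linarith
      rcases mul_eq_zero.mp h3 with h4 | h4
      · exact absurd h4 hpi.ne'
      · linarith
    have h2 : (n : ℤ) * k = (m : ℤ) + 1 := by exact_mod_cast h1
    have h3 : (k : ℤ) ∣ ((m + 1 : ℕ) : ℤ) := ⟨n, by push_cast; rw [← h2]; ring⟩
    exact_mod_cast h3
  · rintro ⟨k, hk, n, hn⟩
    refine ⟨k, hk, ?_⟩
    have hk2 := hp.2.1 k hk
    have hk' : (0 : ℝ) < (k : ℝ) := by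
      have : (2 : ℝ) ≤ k := by exact_mod_cast hk2
      linarith
    rw [Real.sin_eq_zero_iff]
    refine ⟨n, ?_⟩
    have h1 : (m : ℝ) + 1 = k * n := by exact_mod_cast hn
    rw [h1]
    push_cast
    field_simp

private theorem Sine_sub {p q : Finset ℕ} (hp : IsNode p) (hq : IsNode q)
    (h : ∀ m, (∃ k ∈ p, k ∣ m + 1) ↔ (∃ k ∈ q, k ∣ m + 1)) : p ⊆ q := by
  intro a ha
  have ha2 := hp.2.1 a ha
  obtain ⟨n, rfl⟩ : ∃ n, a = n + 1 := ⟨a - 1, by omega⟩
  obtain ⟨k, hk, hka⟩ := (h n).1 ⟨n + 1, ha, dvd_rfl⟩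
  have hk2 := hq.2.1 k hk
  obtain ⟨j, rfl⟩ : ∃ j, k = j + 1 := ⟨k - 1, by omega⟩
  obtain ⟨a', ha', hak⟩ := (h j).2 ⟨j + 1, hk, dvd_rfl⟩
  have haa : a' ∣ n + 1 := hak.trans hka
  have ha'2 := hp.2.1 a' ha'
  have heq : a' = n + 1 := by
    by_contra hne
    have hc := hp.2.2 ha' ha hne
    have h1 : a' ∣ 1 := by
      have h2 : Nat.Coprime a' (n + 1) := hc
      have h3 := Nat.dvd_gcd dvd_rfl haa
      rwa [Nat.Coprime.gcd_eq_one h2] at h3
    have := Nat.le_of_dvd one_pos h1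
    omega
  subst heq
  have : j + 1 = n + 1 := Nat.dvd_antisymm hka hak
  rw [← this]
  exact hk

theorem w_inj {p q : Finset ℕ} (hp : IsNode p) (hq : IsNode q) {t : ℝ} (ht : t ≠ 0)
    (h : ∀ m, w p m = t * w q m) : p = q := by
  have h1 : ∀ m, (∃ k ∈ p, k ∣ m + 1) ↔ (∃ k ∈ q, k ∣ m + 1) := by
    intro m
    rw [← w_eq_zero_iff hp, ← w_eq_zero_iff hq, h m, mul_eq_zero]
    simp [ht]
  exact Finset.Subset.antisymm (Sine_sub hp hq h1) (Sine_sub hq hp fun m => (h1 m).symm)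

end Pool.Agent.H99.Spl
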