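import Pool.Agent.H99.Spl.HalfMain
import Pool.Agent.H99.Spl.HalfSmall
import Pool.Agent.H99.Spl.Amp

open PowerSeries Finset
open Pool.Agent.H99.Seif

namespace Pool.Agent.H99.Spl

private lemma toptwo_split (a b c y s : ℝ) (f g : ℕ → ℝ) :
    Hf a b c f g = C (s * y⁻¹) * Hf a b c (fun i => y⁻¹ ^ i) g +
      Hf a b c (fun i => f i - s * y⁻¹ ^ (i + 1)) g := by
  ext n
  rw [map_add, coeff_C_mul]
  unfold Hf
  rw [coeff_mk, coeff_mk, coeff_mk, Finset.mul_sum, ← Finset.sum_add_distrib]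
  refine Finset.sum_congr rfl fun x _ => ?_
  ring

private lemma toptwo_half {a b c B : ℝ} (hb : 0 < b) (hc : 0 < c) (hca : c ≤ a)
    (hD : b ^ 2 < a * c) {c₁ c₂ : ℕ → ℝ} (h1 : ∀ m, |c₁ m| ≤ B) (h2 : ∀ m, |c₂ m| ≤ B) :
    HasExp (a / (4 * Real.pi ^ 2)) (Hf a b c (fc c₁) (fc c₂))
      (PowerSeries.mk fun k => a / (4 * Real.pi ^ 2) ^ 2 * nu k *
        ((c - b ^ 2 / a) / (4 * Real.pi ^ 2)) ^ k * (c₁ 0 * S c₂ (b / a) k)) 0 := by
  have ha : 0 < a := hc.trans_le hca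
  have hy0 : (0 : ℝ) < 4 * Real.pi ^ 2 := by positivity
  have hρ0 : 0 < b / a := div_pos hb ha
  have hρ1 : b / a < 1 := by
    rw [div_lt_one ha]
    by_contra h
    push Not at h
    nlinarith
  obtain ⟨G, hG⟩ := fc_le h2
  obtain ⟨F, hF⟩ := fc_rest h1
  have e1 := half_main hy0 hb hc hca hD hG
  have e2 := half_rest hy0 hb hc hca hD
    (f := fun i => fc c₁ i - c₁ 0 * (4 * Real.pi ^ 2)⁻¹ ^ (i + 1)) hF hG
  have e3 := hasExp_add (hasExp_C_mul e1 (c₁ 0 * (4 * Real.pi ^ 2)⁻¹)) e2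
  rw [← toptwo_split, mul_zero, add_zero, add_zero] at e3
  have e4 : C (c₁ 0 * (4 * Real.pi ^ 2)⁻¹) * (PowerSeries.mk fun k => 2 * a * ∑' l : ℕ,
        fc c₂ (k + l) * (4 * Real.pi ^ 2) ^ l * Dk (b / a) (c - b ^ 2 / a) k (k + l)) =
      PowerSeries.mk fun k => a / (4 * Real.pi ^ 2) ^ 2 * nu k *
        ((c - b ^ 2 / a) / (4 * Real.pi ^ 2)) ^ k * (c₁ 0 * S c₂ (b / a) k) := by
    ext k
    rw [coeff_C_mul, coeff_mk, coeff_mk]
    have e5 := amp_eval h2 hρ0 hρ1 (c - b ^ 2 / a) k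
    have e6 : 2 * a * ∑' l : ℕ, fc c₂ (k + l) * (4 * Real.pi ^ 2) ^ l *
        Dk (b / a) (c - b ^ 2 / a) k (k + l) = a * (2 * ∑' l : ℕ, fc c₂ (k + l) *
        (4 * Real.pi ^ 2) ^ l * Dk (b / a) (c - b ^ 2 / a) k (k + l)) := by ring
    rw [e6, e5]
    have e7 : a / (4 * Real.pi ^ 2) ^ 2 = a * (4 * Real.pi ^ 2)⁻¹ * (4 * Real.pi ^ 2)⁻¹ := by
      rw [div_eq_mul_inv, pow_two, mul_inv]
      ring
    rw [e7]
    ring
  rw [e4] at e3
  exact e3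

theorem top_two {a b c B : ℝ} (hb : 0 < b) (hc : 0 < c) (hca : c ≤ a) (hD : b ^ 2 < a * c)
    {c₁ c₂ : ℕ → ℝ} (h1 : ∀ m, |c₁ m| ≤ B) (h2 : ∀ m, |c₂ m| ≤ B) :
    HasExp (a / (4 * Real.pi ^ 2)) (Bf a b c (fc c₁) (fc c₂))
      (amp (a / (4 * Real.pi ^ 2) ^ 2) ((c - b ^ 2 / a) / (4 * Real.pi ^ 2))
        (fun m => c₁ 0 * c₂ m + (if c = a then c₂ 0 * c₁ m else 0)) (b / a)) 0 := by
  have ha : 0 < a := hc.trans_le hca
  have hy0 : (0 : ℝ) < 4 * Real.pi ^ 2 := by positivity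
  have hρ0 : 0 < b / a := div_pos hb ha
  have hρ1 : b / a < 1 := by
    rw [div_lt_one ha]
    by_contra h
    push Not at h
    nlinarith
  obtain ⟨F, hF⟩ := fc_le h1
  obtain ⟨G, hG⟩ := fc_le h2
  have t1 := toptwo_half hb hc hca hD h1 h2
  have t3 := diag_small hy0 hb hc hca hD hF hG
  rw [bf_split]
  by_cases hcase : c = a
  · subst hcase
    have t2 := toptwo_half hb hc le_rfl hD h2 h1
    have t := hasExp_add (hasExp_add t1 t2) t3
    rw [add_zero, add_zero, add_zero] at t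
    convert t using 1
    ext k
    unfold amp
    rw [map_add, coeff_mk, coeff_mk, coeff_mk]
    have e : (fun m => c₁ 0 * c₂ m + (if c = c then c₂ 0 * c₁ m else 0)) =
        fun m => c₁ 0 * c₂ m + c₂ 0 * c₁ m := by
      funext m
      rw [if_pos rfl]
    rw [e, S_add h2 h1 hρ0 hρ1]
    ring
  · have t2 := half_other hy0 hb hc (lt_of_le_of_ne hca hcase) hD hF hG
    have t := hasExp_add (hasExp_add t1 t2) t3
    rw [add_zero, add_zero, add_zero, add_zero] at t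
    convert t using 1
    ext k
    unfold amp
    rw [coeff_mk, coeff_mk]
    have e : (fun m => c₁ 0 * c₂ m + (if c = a then c₂ 0 * c₁ m else 0)) =
        fun m => c₁ 0 * c₂ m + 0 * c₁ m := by
      funext m
      rw [if_neg hcase, zero_mul]
    rw [e, S_add h2 h1 hρ0 hρ1]
    ring

end Pool.Agent.H99.Spl
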