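import Pool.Agent.H99.Spl.TopTwo
import Pool.Agent.H99.Spl.Delta
import Pool.Agent.H99.Spl.Pos
import Pool.Agent.H99.Spl.Decode
import Pool.Agent.H99.Spl.Sine
import Pool.Agent.H99.Spl.NoZD

/-!
# The Ohtsuki series separates the splices with two trivalent nodes
-/

open PowerSeries Finset
open Pool.Agent.H99.Seif

namespace Pool.Agent.H99.Spl

theorem exp_ne (κ : ℝ) : rescale κ (exp ℝ) ≠ 0 := exp_ne_zero κ

theorem hasExp_exp {A : ℝ} (hA : 0 < A) (κ : ℝ) : HasExp A (rescale κ (exp ℝ)) 0 0 :=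
  hasExp_of_hol hA one_pos (hol_exp κ)

/-- Multiplication by a convergent series. -/
theorem hasExp_hol_mul {A : ℝ} (hA : 0 < A) {h f a b : ℝ⟦X⟧} (hh : Hol 1 h)
    (hf : HasExp A f a b) : HasExp A (h * f) (h * a) (rescale (-1 : ℝ) h * b) := by
  have h1 := hasExp_mul hA (hasExp_of_hol hA one_pos hh) hf
  rwa [mul_zero, add_zero, mul_zero, add_zero] at h1

/-- The combined amplitude coefficients. -/
noncomputable def cc (a c : ℝ) (c₁ c₂ : ℕ → ℝ) (m : ℕ) : ℝ :=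
  c₁ 0 * c₂ m + (if c = a then c₂ 0 * c₁ m else 0)

theorem cc_le {a c : ℝ} {c₁ c₂ : ℕ → ℝ} (h1 : ∀ m, |c₁ m| ≤ 1) (h2 : ∀ m, |c₂ m| ≤ 1) (m : ℕ) :
    |cc a c c₁ c₂ m| ≤ 2 := by
  unfold cc
  have e : ∀ x y : ℝ, |x| ≤ 1 → |y| ≤ 1 → |x * y| ≤ 1 := by
    intro x y hx hy
    rw [abs_mul]
    exact mul_le_one₀ hx (abs_nonneg _) hy
  refine (abs_add_le _ _).trans ?_
  have e1 := e _ _ (h1 0) (h2 m)
  have e2 : |(if c = a then c₂ 0 * c₁ m else 0)| ≤ 1 := by
    split_ifs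
    · exact e _ _ (h2 0) (h1 m)
    · simp
  linarith

section core

variable {a b c a' b' c' : ℝ} {c₁ c₂ c₁' c₂' : ℕ → ℝ}

theorem amp_ne (hb : 0 < b) (hc : 0 < c) (hca : c ≤ a) (hD : b ^ 2 < a * c)
    (h1 : ∀ m, |c₁ m| ≤ 1) (h2 : ∀ m, |c₂ m| ≤ 1) (hcc : 0 < cc a c c₁ c₂ 0) {h : ℝ⟦X⟧}
    (hh : h ≠ 0) (hol : Hol 1 h) :
    ¬ Hol 1 (h * amp (a / (4 * Real.pi ^ 2) ^ 2) ((c - b ^ 2 / a) / (4 * Real.pi ^ 2))
      (cc a c c₁ c₂) (b / a)) := by
  have ha : 0 < a := lt_of_lt_of_le hc hca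
  have hpi := Real.pi_pos
  have hba : b < a := by nlinarith
  have hs : 0 < c - b ^ 2 / a := by
    rw [sub_pos, div_lt_iff₀ ha]
    linarith
  refine amp_ne_zero (B := 2) (by positivity) (by positivity) (by positivity)
    ((div_lt_one ha).2 hba) (cc_le h1 h2) hcc.ne' hh hol

theorem core_rate (hb : 0 < b) (hc : 0 < c) (hca : c ≤ a) (hD : b ^ 2 < a * c)
    (hb' : 0 < b') (hc' : 0 < c') (hca' : c' ≤ a') (hD' : b' ^ 2 < a' * c')
    (h1 : ∀ m, |c₁ m| ≤ 1) (h2 : ∀ m, |c₂ m| ≤ 1) (h1' : ∀ m, |c₁' m| ≤ 1) (h2' : ∀ m, |c₂' m| ≤ 1)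
    (hcc : 0 < cc a c c₁ c₂ 0) {κ κ' : ℝ}
    (heq : rescale κ (exp ℝ) * Bf a b c (fc c₁) (fc c₂) =
      rescale κ' (exp ℝ) * Bf a' b' c' (fc c₁') (fc c₂')) : a ≤ a' := by
  by_contra hlt
  push Not at hlt
  have hpi := Real.pi_pos
  have ha : 0 < a := lt_of_lt_of_le hc hca
  have ha' : 0 < a' := lt_of_lt_of_le hc' hca'
  have hA : 0 < a / (4 * Real.pi ^ 2) := by positivity
  have hA' : 0 < a' / (4 * Real.pi ^ 2) := by positivity
  have t1 := top_two hb hc hca hD h1 h2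
  have t2 := top_two hb' hc' hca' hD' h1' h2'
  have t3 := hasExp_mono hA' (A' := a / (4 * Real.pi ^ 2)) (by gcongr) t2
  have u1 := hasExp_hol_mul hA (hol_exp κ) t1
  have u2 := hasExp_hol_mul hA (hol_exp κ') t3
  rw [← heq] at u2
  have u3 := (hasExp_unique hA u1 u2).1
  refine amp_ne hb hc hca hD h1 h2 hcc (exp_ne κ) (hol_exp κ) ?_
  rw [mul_zero] at u3
  have u4 : rescale κ (exp ℝ) * amp (a / (4 * Real.pi ^ 2) ^ 2)
      ((c - b ^ 2 / a) / (4 * Real.pi ^ 2)) (cc a c c₁ c₂) (b / a) = 0 := u3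
  rw [u4]
  have := hol_C 1 0
  rwa [map_zero] at this

theorem core (hb : 0 < b) (hc : 0 < c) (hca : c ≤ a) (hD : b ^ 2 < a * c)
    (hb' : 0 < b') (hc' : 0 < c') (hca' : c' ≤ a') (hD' : b' ^ 2 < a' * c')
    (h1 : ∀ m, |c₁ m| ≤ 1) (h2 : ∀ m, |c₂ m| ≤ 1) (h1' : ∀ m, |c₁' m| ≤ 1) (h2' : ∀ m, |c₂' m| ≤ 1)
    (hcc : 0 < cc a c c₁ c₂ 0) (hcc' : 0 < cc a' c' c₁' c₂' 0)
    (hcd : cc a c c₁ c₂ 1 ≤ 0) (hcd' : cc a' c' c₁' c₂' 1 ≤ 0)
    (hs : cc a c c₁ c₂ 0 + cc a c c₁ c₂ 1 ≠ 0)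
    (hs' : cc a' c' c₁' c₂' 0 + cc a' c' c₁' c₂' 1 ≠ 0) {κ κ' : ℝ}
    (heq : rescale κ (exp ℝ) * Bf a b c (fc c₁) (fc c₂) =
      rescale κ' (exp ℝ) * Bf a' b' c' (fc c₁') (fc c₂')) :
    a = a' ∧ b = b' ∧ c = c' ∧ κ = κ' ∧ cc a c c₁ c₂ = cc a' c' c₁' c₂' := by
  have haa : a = a' := le_antisymm
    (core_rate hb hc hca hD hb' hc' hca' hD' h1 h2 h1' h2' hcc heq)
    (core_rate hb' hc' hca' hD' hb hc hca hD h1' h2' h1 h2 hcc' heq.symm)
  subst haa
  have hpi := Real.pi_pos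
  have ha : 0 < a := lt_of_lt_of_le hc hca
  have hA : 0 < a / (4 * Real.pi ^ 2) := by positivity
  have hba : b < a := by nlinarith
  have hba' : b' < a := by nlinarith
  have hσ : 0 < c - b ^ 2 / a := by
    rw [sub_pos, div_lt_iff₀ ha]
    linarith
  have hσ' : 0 < c' - b' ^ 2 / a := by
    rw [sub_pos, div_lt_iff₀ ha]
    linarith
  have t1 := top_two hb hc hca hD h1 h2
  have t2 := top_two hb' hc' hca' hD' h1' h2'
  have u1 := hasExp_hol_mul hA (hol_exp κ) t1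
  have u2 := hasExp_hol_mul hA (hol_exp κ') t2
  rw [← heq] at u2
  have u3 : rescale κ (exp ℝ) * amp (a / (4 * Real.pi ^ 2) ^ 2)
      ((c - b ^ 2 / a) / (4 * Real.pi ^ 2)) (cc a c c₁ c₂) (b / a) =
      rescale κ' (exp ℝ) * amp (a / (4 * Real.pi ^ 2) ^ 2)
      ((c' - b' ^ 2 / a) / (4 * Real.pi ^ 2)) (cc a c' c₁' c₂') (b' / a) :=
    (hasExp_unique hA u1 u2).1
  have u4 : rescale (κ - κ') (exp ℝ) * amp (a / (4 * Real.pi ^ 2) ^ 2)
      ((c - b ^ 2 / a) / (4 * Real.pi ^ 2)) (cc a c c₁ c₂) (b / a) =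
      amp (a / (4 * Real.pi ^ 2) ^ 2)
      ((c' - b' ^ 2 / a) / (4 * Real.pi ^ 2)) (cc a c' c₁' c₂') (b' / a) := by
    refine mul_left_cancel₀ (exp_ne κ') ?_
    rw [← mul_assoc, exp_mul_exp_eq_exp_add, ← u3]
    congr 3
    ring
  have hK : a / (4 * Real.pi ^ 2) ^ 2 ≠ 0 := by positivity
  have hδ : κ - κ' = 0 := delta hK (by positivity) (by positivity) ((div_lt_one ha).2 hba)
    (by positivity) (by positivity) ((div_lt_one ha).2 hba') (cc_le h1 h2) (cc_le h1' h2')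
    hcc.ne' hcc'.ne' u4
  have hκ : κ = κ' := by linarith
  subst hκ
  have u5 := mul_left_cancel₀ (exp_ne κ) u3
  have u6 : ∀ k : ℕ, 1 ≤ k → ((c - b ^ 2 / a) / (4 * Real.pi ^ 2)) ^ k * S (cc a c c₁ c₂) (b / a) k =
      ((c' - b' ^ 2 / a) / (4 * Real.pi ^ 2)) ^ k * S (cc a c' c₁' c₂') (b' / a) k := by
    intro k _
    have h3 := congrArg (coeff k) u5
    unfold amp at h3
    rw [coeff_mk, coeff_mk] at h3
    have hnu : nu k ≠ 0 := by
      unfold nu
      positivity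
    refine mul_left_cancel₀ (mul_ne_zero hK hnu) ?_
    linear_combination h3
  have u7 := pos_eq (by positivity) (by positivity) ((div_lt_one ha).2 hba)
    (by positivity) (by positivity) ((div_lt_one ha).2 hba') (cc_le h1 h2) (cc_le h1' h2') u6
  obtain ⟨e1, e2, e3⟩ := decode (by positivity) (by positivity) ((div_lt_one ha).2 hba)
    (by positivity) (by positivity) ((div_lt_one ha).2 hba') hcc hcc' hcd hcd' hs hs' u7
  have hbb : b = b' := by
    field_simp at e2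
    exact e2
  subst hbb
  have hcc2 : c = c' := by
    have h4 : (c - b ^ 2 / a) = (c' - b ^ 2 / a) := by
      have h5 : (4 * Real.pi ^ 2) ≠ 0 := by positivity
      exact (div_left_inj' h5).1 e1
    linarith
  exact ⟨rfl, rfl, hcc2, rfl, e3⟩

end core

/-- The product of the leaf weights. -/
noncomputable def Pr (p : Finset ℕ) : ℝ := ∏ k ∈ p, (k : ℝ)

theorem Pr_pos {p : Finset ℕ} (hp : IsNode p) : 0 < Pr p :=
  prod_pos fun k hk => by
    have := hp.2.1 k hk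
    exact_mod_cast (by omega : 0 < k)

/-- The splices with two trivalent nodes and positive edge determinant. -/
def IsTwo (p : Finset ℕ) (r : ℕ) (q : Finset ℕ) (s : ℕ) : Prop :=
  IsNode p ∧ IsNode q ∧ Nat.Coprime r (∏ k ∈ p, k) ∧ Nat.Coprime s (∏ k ∈ q, k) ∧
    (∏ k ∈ p, k) * (∏ k ∈ q, k) < r * s

theorem IsTwo.symm {p : Finset ℕ} {r : ℕ} {q : Finset ℕ} {s : ℕ} (h : IsTwo p r q s) :
    IsTwo q s p r :=
  ⟨h.2.1, h.1, h.2.2.2.1, h.2.2.1, by rw [mul_comm, mul_comm s r]; exact h.2.2.2.2⟩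

/-- The Gaussian part of the series. -/
noncomputable def UU (p : Finset ℕ) (r : ℕ) (q : Finset ℕ) (s : ℕ) : ℝ⟦X⟧ :=
  Bf (Pr p * r) (Pr p * Pr q) (Pr q * s) (fc (w p)) (fc (w q))

theorem UU_symm (p : Finset ℕ) (r : ℕ) (q : Finset ℕ) (s : ℕ) : UU p r q s = UU q s p r := by
  unfold UU
  rw [bf_symm, mul_comm (Pr p) (Pr q)]

theorem IsTwo.pos {p : Finset ℕ} {r : ℕ} {q : Finset ℕ} {s : ℕ} (h : IsTwo p r q s) :
    (0 : ℝ) < r ∧ (0 : ℝ) < s := by
  have h1 := h.2.2.2.2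
  have h2 : 0 < r * s := lt_of_le_of_lt (Nat.zero_le _) h1
  exact ⟨by exact_mod_cast Nat.pos_of_mul_pos_right h2, by
    exact_mod_cast Nat.pos_of_mul_pos_left h2⟩

theorem IsTwo.det {p : Finset ℕ} {r : ℕ} {q : Finset ℕ} {s : ℕ} (h : IsTwo p r q s) :
    (Pr p * Pr q) ^ 2 < (Pr p * r) * (Pr q * s) := by
  have h1 : Pr p * Pr q < r * s := by
    have h3 : ((∏ k ∈ p, k : ℕ) : ℝ) * ((∏ k ∈ q, k : ℕ) : ℝ) < (r : ℝ) * s := by
      exact_mod_cast h.2.2.2.2
    rw [Nat.cast_prod, Nat.cast_prod] at h3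
    exact h3
  have h2 : 0 < Pr p * Pr q := mul_pos (Pr_pos h.1) (Pr_pos h.2.1)
  nlinarith

theorem w_ne {p : Finset ℕ} (hp : IsNode p) : fc (w p) ≠ 0 := by
  intro h
  have h1 : fc (w p) = fc (fun _ => 0) := by
    rw [h]
    funext i
    unfold fc
    simp
  have h2 := fc_inj (B := 1) (abs_w_le p) (by simp) h1
  have h3 := w_zero_pos hp
  rw [h2] at h3
  exact lt_irrefl _ h3

theorem two_aux {p q p' q' : Finset ℕ} {r s r' s' : ℕ} (h : IsTwo p r q s) (h' : IsTwo p' r' q' s')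
    (hm : Pr q * s ≤ Pr p * r) (hm' : Pr q' * s' ≤ Pr p' * r') {κ κ' : ℝ}
    (heq : rescale κ (exp ℝ) * UU p r q s = rescale κ' (exp ℝ) * UU p' r' q' s') :
    (p = p' ∧ r = r' ∧ q = q' ∧ s = s') ∨ (p = q' ∧ r = s' ∧ q = p' ∧ s = r') := by
  obtain ⟨hr, hs⟩ := h.pos
  obtain ⟨hr', hs'⟩ := h'.pos
  have hP := Pr_pos h.1
  have hQ := Pr_pos h.2.1
  have hP' := Pr_pos h'.1
  have hQ' := Pr_pos h'.2.1
  have p0 := w_zero_pos h.1
  have q0 := w_zero_pos h.2.1
  have p0' := w_zero_pos h'.1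
  have q0' := w_zero_pos h'.2.1
  have p1 := w_one_nonpos h.1
  have q1 := w_one_nonpos h.2.1
  have p1' := w_one_nonpos h'.1
  have q1' := w_one_nonpos h'.2.1
  have key : ∀ {u v : Finset ℕ} (_ : IsNode u) (_ : IsNode v) (x y : ℝ),
      0 < cc x y (w u) (w v) 0 ∧ cc x y (w u) (w v) 1 ≤ 0 ∧
        cc x y (w u) (w v) 0 + cc x y (w u) (w v) 1 ≠ 0 := by
    intro u v hu hv x y
    have a0 := w_zero_pos hu
    have b0 := w_zero_pos hv
    have a1 := w_one_nonpos hu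
    have b1 := w_one_nonpos hv
    unfold cc
    split_ifs
    · refine ⟨by positivity, by nlinarith, ?_⟩
      exact w_sum_ne' hu hv
    · refine ⟨by positivity, by nlinarith, ?_⟩
      intro h0
      apply w_sum_ne hv
      have h1 : w u 0 * (w v 0 + w v 1) = 0 := by linear_combination h0
      exact (mul_eq_zero.1 h1).resolve_left a0.ne'
  obtain ⟨k1, k2, k3⟩ := key h.1 h.2.1 (Pr p * r) (Pr q * s)
  obtain ⟨k1', k2', k3'⟩ := key h'.1 h'.2.1 (Pr p' * r') (Pr q' * s')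
  obtain ⟨ea, eb, ec, eκ, ecc⟩ := core (by positivity) (by positivity) hm h.det (by positivity)
    (by positivity) hm' h'.det (abs_w_le p) (abs_w_le q) (abs_w_le p') (abs_w_le q')
    k1 k1' k2 k2' k3 k3' heq
  rw [eκ] at heq
  have hU := mul_left_cancel₀ (exp_ne κ') heq
  unfold UU at hU
  rw [← ea, ← eb, ← ec] at hU
  have cast_inj : ∀ {x y : ℕ}, (x : ℝ) = y → x = y := fun h => by exact_mod_cast h
  by_cases ht : Pr q * s = Pr p * r
  · -- the tie
    have ht' : Pr q' * s' = Pr p' * r' := by rw [← ea, ← ec]; exact ht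
    have hcm : ∀ m, w p 0 * w q m + w q 0 * w p m = w p' 0 * w q' m + w q' 0 * w p' m := by
      intro m
      have h1 := congrFun ecc m
      unfold cc at h1
      rw [if_pos ht, if_pos ht'] at h1
      exact h1
    have hS : w p 0 * w q 0 = w p' 0 * w q' 0 := by
      have h1 := hcm 0
      linarith
    set T : ℝ := w p 0 * w q 0 with hT
    have hT0 : T ≠ 0 := by positivity
    -- the normalised functions
    have lin : ∀ (u v : Finset ℕ), 0 < w u 0 → 0 < w v 0 → ∀ i,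
        fc (fun m => w u 0 * w v m + w v 0 * w u m) i = w u 0 * fc (w v) i + w v 0 * fc (w u) i :=
      fun u v _ _ i => fc_add (abs_w_le v) (abs_w_le u) (w u 0) (w v 0) i
    have hsum : ∀ i, w p 0 * fc (w q) i + w q 0 * fc (w p) i =
        w p' 0 * fc (w q') i + w q' 0 * fc (w p') i := by
      intro i
      rw [← lin p q p0 q0 i, ← lin p' q' p0' q0' i]
      congr 1
      funext m
      exact hcm m
    rw [ht] at hU
    have hB := bf_tie (a := Pr p * r) (b := Pr p * Pr q) (by positivity) (by positivity)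
      (f := fun i => (w p 0)⁻¹ * fc (w p) i + 0 * fc (w p) i)
      (g := fun i => (w q 0)⁻¹ * fc (w q) i + 0 * fc (w q) i)
      (f' := fun i => (w p' 0)⁻¹ * fc (w p') i + 0 * fc (w p') i)
      (g' := fun i => (w q' 0)⁻¹ * fc (w q') i + 0 * fc (w q') i) (by
        intro i
        have h1 := hsum i
        have h2 : (w p 0)⁻¹ * fc (w p) i + (w q 0)⁻¹ * fc (w q) i =
            T⁻¹ * (w p 0 * fc (w q) i + w q 0 * fc (w p) i) := by
          rw [hT]
          field_simp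
          ring
        have h3 : (w p' 0)⁻¹ * fc (w p') i + (w q' 0)⁻¹ * fc (w q') i =
            T⁻¹ * (w p' 0 * fc (w q') i + w q' 0 * fc (w p') i) := by
          rw [hS]
          field_simp
          ring
        have h4 : (w p 0)⁻¹ * fc (w p) i + 0 * fc (w p) i + ((w q 0)⁻¹ * fc (w q) i + 0 * fc (w q) i)
            = (w p 0)⁻¹ * fc (w p) i + (w q 0)⁻¹ * fc (w q) i := by ring
        have h5 : (w p' 0)⁻¹ * fc (w p') i + 0 * fc (w p') i +
            ((w q' 0)⁻¹ * fc (w q') i + 0 * fc (w q') i)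
            = (w p' 0)⁻¹ * fc (w p') i + (w q' 0)⁻¹ * fc (w q') i := by ring
        rw [h4, h5, h2, h3, h1]) (by
        have bi : ∀ (x y : ℝ) (f g : ℕ → ℝ) (α β γ : ℝ),
            Bf α β γ (fun i => x * f i + 0 * f i) (fun i => y * g i + 0 * g i) =
              C (x * y) * Bf α β γ f g := by
          intro x y f g α β γ
          rw [bf_add_left, bf_symm α β γ f, bf_add_left, bf_symm γ β α g f, map_zero, map_mul]
          ring
        rw [bi, bi, hU]
        congr 2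
        rw [← mul_inv, ← mul_inv, ← hT, hS])
    have prop : ∀ {u v : Finset ℕ}, IsNode u → IsNode v → 0 < w u 0 → 0 < w v 0 →
        ((fun i => (w u 0)⁻¹ * fc (w u) i + 0 * fc (w u) i) =
          (fun i => (w v 0)⁻¹ * fc (w v) i + 0 * fc (w v) i)) → u = v := by
      intro u v hu hv a0 b0 hf
      have h1 : fc (fun m => (w u 0)⁻¹ * w u m + 0 * w u m) =
          fc (fun m => (w v 0)⁻¹ * w v m + 0 * w v m) := by
        funext i
        rw [fc_add (abs_w_le u) (abs_w_le u), fc_add (abs_w_le v) (abs_w_le v)]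
        exact congrFun hf i
      have bd : ∀ (t : Finset ℕ) (m : ℕ), 0 < w t 0 → |(w t 0)⁻¹ * w t m + 0 * w t m| ≤
          max (w u 0)⁻¹ (w v 0)⁻¹ ∨ True := fun _ _ _ => Or.inr trivial
      have h2 := fc_inj (B := (w u 0)⁻¹ + (w v 0)⁻¹)
        (c := fun m => (w u 0)⁻¹ * w u m + 0 * w u m)
        (c' := fun m => (w v 0)⁻¹ * w v m + 0 * w v m) (by
          intro m
          rw [zero_mul, add_zero, abs_mul, abs_of_pos (inv_pos.2 a0)]
          have h3 := mul_le_mul_of_nonneg_left (abs_w_le u m) (inv_pos.2 a0).le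
          have h4 := (inv_pos.2 b0).le
          linarith) (by
          intro m
          rw [zero_mul, add_zero, abs_mul, abs_of_pos (inv_pos.2 b0)]
          have h3 := mul_le_mul_of_nonneg_left (abs_w_le v m) (inv_pos.2 b0).le
          have h4 := (inv_pos.2 a0).le
          linarith) h1
      refine w_inj hu hv (t := w u 0 * (w v 0)⁻¹) (by positivity) fun m => ?_
      have h3 := congrFun h2 m
      simp only [zero_mul, add_zero] at h3
      field_simp at h3 ⊢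
      linear_combination h3
    rcases hB with ⟨e1, e2⟩ | ⟨e1, e2⟩
    · left
      have f1 := prop h.1 h'.1 p0 p0' e1
      have f2 := prop h.2.1 h'.2.1 q0 q0' e2
      subst f1 f2
      exact ⟨rfl, cast_inj (mul_left_cancel₀ hP.ne' ea), rfl, cast_inj (mul_left_cancel₀ hQ.ne' ec)⟩
    · right
      have f1 := prop h.1 h'.2.1 p0 q0' e1
      have f2 := prop h.2.1 h'.1 q0 p0' e2
      subst f1 f2
      refine ⟨rfl, cast_inj (mul_left_cancel₀ hP.ne' ?_), rfl,
        cast_inj (mul_left_cancel₀ hQ.ne' ?_)⟩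
      · rw [← ht, ec]
      · rw [ht, ea]
  · -- different self-linking numbers
    have ht' : ¬ Pr q' * s' = Pr p' * r' := by rw [← ea, ← ec]; exact ht
    have hcm : ∀ m, w q m = ((w p 0)⁻¹ * w p' 0) * w q' m := by
      intro m
      have h1 := congrFun ecc m
      unfold cc at h1
      rw [if_neg ht, if_neg ht', add_zero, add_zero] at h1
      field_simp
      linear_combination h1
    have hq := w_inj h.2.1 h'.2.1 (t := (w p 0)⁻¹ * w p' 0) (by positivity) hcm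
    subst hq
    have hPP : Pr p = Pr p' := mul_right_cancel₀ hQ.ne' eb
    left
    have hz : Bf (Pr p * r) (Pr p * Pr q) (Pr q * s)
        (fun i => 1 * fc (w p) i + (-1) * fc (w p') i) (fc (w q)) = 0 := by
      rw [bf_add_left, hU, ← add_mul, ← map_add]
      norm_num
    have hz' := (bf_eq_zero (by positivity) (by positivity) (by positivity) hz).resolve_right
      (w_ne h.2.1)
    have hpp : fc (w p) = fc (w p') := by
      funext i
      have h1 := congrFun hz' i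
      simp only [Pi.zero_apply] at h1
      linarith
    have hw := fc_inj (abs_w_le p) (abs_w_le p') hpp
    have hp := w_inj h.1 h'.1 (t := 1) one_ne_zero fun m => by rw [one_mul, hw]
    subst hp
    exact ⟨rfl, cast_inj (mul_left_cancel₀ hP.ne' ea), rfl, cast_inj (mul_left_cancel₀ hQ.ne' ec)⟩

theorem two_sep {p q p' q' : Finset ℕ} {r s r' s' : ℕ} (h : IsTwo p r q s) (h' : IsTwo p' r' q' s')
    {κ κ' : ℝ} (heq : rescale κ (exp ℝ) * UU p r q s = rescale κ' (exp ℝ) * UU p' r' q' s') :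
    (p = p' ∧ r = r' ∧ q = q' ∧ s = s') ∨ (p = q' ∧ r = s' ∧ q = p' ∧ s = r') := by
  rcases le_total (Pr q * s) (Pr p * r) with h1 | h1
  · rcases le_total (Pr q' * s') (Pr p' * r') with h2 | h2
    · exact two_aux h h' h1 h2 heq
    · rw [UU_symm p'] at heq
      rcases two_aux h h'.symm h1 h2 heq with h3 | h3
      · exact Or.inr h3
      · exact Or.inl h3
  · rw [UU_symm p] at heq
    rcases le_total (Pr q' * s') (Pr p' * r') with h2 | h2
    · rcases two_aux h.symm h' h1 h2 heq with ⟨a, b, c, d⟩ | ⟨a, b, c, d⟩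
      · exact Or.inr ⟨c, d, a, b⟩
      · exact Or.inl ⟨c, d, a, b⟩
    · rw [UU_symm p'] at heq
      rcases two_aux h.symm h'.symm h1 h2 heq with ⟨a, b, c, d⟩ | ⟨a, b, c, d⟩
      · exact Or.inl ⟨c, d, a, b⟩
      · exact Or.inr ⟨c, d, a, b⟩

end Pool.Agent.H99.Spl
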