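import Pool.Agent.H99.Spl.Defs

open PowerSeries Finset
open Pool.Agent.H99.Seif

namespace Pool.Agent.H99.Spl

theorem uniq {ι : Type*} [Countable ι] {v g : ι → ℝ} (hv : ∀ i, 0 < v i)
    (hfin : ∀ R : ℝ, {i | v i ≤ R}.Finite) (hs : Summable fun i => |g i| * (v i)⁻¹ ^ 3)
    (h : ∀ k : ℕ, 1 ≤ k → ∑' i, g i * (v i)⁻¹ ^ (2 * k + 1) = 0) (x : ℝ) :
    ∑' i, (if v i = x then g i else 0) = 0 := by
  classical
  by_contra hx
  -- the weights as finite sums
  have hG : ∀ R y : ℝ, y ≤ R → ∑' i, (if v i = y then g i else 0) =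
      ∑ i ∈ (hfin R).toFinset, (if v i = y then g i else 0) := by
    intro R y hy
    apply tsum_eq_sum
    intro i hi
    rw [if_neg]
    intro h1
    apply hi
    rw [Set.Finite.mem_toFinset]
    show v i ≤ R
    rw [h1]; exact hy
  -- the smallest value with nonzero weight
  set Bad : Finset ℝ := ((hfin x).toFinset.image v).filter
    (fun y => ∑' i, (if v i = y then g i else 0) ≠ 0) with hBad
  have hxB : x ∈ Bad := by
    rw [hBad, mem_filter]
    refine ⟨?_, hx⟩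
    by_contra hcon
    apply hx
    rw [hG x x le_rfl]
    apply sum_eq_zero
    intro i hi
    rw [if_neg]
    intro h1
    exact hcon (mem_image.2 ⟨i, hi, h1⟩)
  obtain ⟨x₀, hx₀, hmin⟩ := Bad.exists_min_image id ⟨x, hxB⟩
  have hx₀2 : x₀ ∈ (hfin x).toFinset.image v := (mem_filter.1 hx₀).1
  have hGx₀ : ∑' i, (if v i = x₀ then g i else 0) ≠ 0 := (mem_filter.1 hx₀).2
  obtain ⟨i₀, hi₀, hvi₀⟩ := mem_image.1 hx₀2
  have hx₀pos : 0 < x₀ := by rw [← hvi₀]; exact hv i₀
  have hx₀x : x₀ ≤ x := by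
    rw [← hvi₀]
    rw [Set.Finite.mem_toFinset] at hi₀
    exact hi₀
  have hsmall : ∀ y, y < x₀ → ∑' i, (if v i = y then g i else 0) = 0 := by
    intro y hy
    by_contra hcon
    have hyB : y ∈ Bad := by
      rw [hBad, mem_filter]
      refine ⟨?_, hcon⟩
      by_contra hcon2
      apply hcon
      rw [hG x y (hy.le.trans hx₀x)]
      apply sum_eq_zero
      intro i hi
      rw [if_neg]
      intro h1
      exact hcon2 (mem_image.2 ⟨i, hi, h1⟩)
    exact absurd (hmin y hyB) (not_le.2 hy)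
  set T : Finset ι := (hfin x₀).toFinset with hT
  have hTmem : ∀ i, i ∈ T ↔ v i ≤ x₀ := by
    intro i
    rw [hT, Set.Finite.mem_toFinset]
    rfl
  -- the finite part
  have hfinpart : ∀ k : ℕ, ∑ i ∈ T, g i * (x₀ * (v i)⁻¹) ^ (2 * k + 1) =
      ∑' i, (if v i = x₀ then g i else 0) := by
    intro k
    have h1 : ∑ i ∈ T, g i * (x₀ * (v i)⁻¹) ^ (2 * k + 1) =
        ∑ y ∈ T.image v, ∑ i ∈ T.filter (fun i => v i = y), g i * (x₀ * (v i)⁻¹) ^ (2 * k + 1) := by
      rw [sum_fiberwise_of_maps_to]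
      intro i hi
      exact mem_image_of_mem v hi
    have h2 : ∀ y ∈ T.image v, ∑ i ∈ T.filter (fun i => v i = y), g i * (x₀ * (v i)⁻¹) ^ (2 * k + 1) =
        if y = x₀ then ∑' i, (if v i = x₀ then g i else 0) else 0 := by
      intro y hy
      obtain ⟨i, hi, hiy⟩ := mem_image.1 hy
      have hyx : y ≤ x₀ := by rw [← hiy]; exact (hTmem i).1 hi
      have h3 : ∑ i ∈ T.filter (fun i => v i = y), g i * (x₀ * (v i)⁻¹) ^ (2 * k + 1) =
          (x₀ * y⁻¹) ^ (2 * k + 1) * ∑' i, (if v i = y then g i else 0) := by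
        rw [hG x₀ y hyx, ← hT, ← sum_filter, mul_sum]
        apply sum_congr rfl
        intro j hj
        rw [(mem_filter.1 hj).2]
        ring
      rw [h3]
      by_cases hyx0 : y = x₀
      · rw [if_pos hyx0, hyx0, mul_inv_cancel₀ hx₀pos.ne', one_pow, one_mul]
      · rw [if_neg hyx0, hsmall y (lt_of_le_of_ne hyx hyx0), mul_zero]
    rw [h1, sum_congr rfl h2, sum_ite_eq']
    rw [if_pos]
    refine mem_image.2 ⟨i₀, ?_, hvi₀⟩
    rw [hTmem, hvi₀]
  -- the rest
  have hbound : ∀ k : ℕ, 1 ≤ k → ∀ i, ‖(if v i ≤ x₀ then 0 else g i * (x₀ * (v i)⁻¹) ^ (2 * k + 1) : ℝ)‖ ≤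
      x₀ ^ 3 * (|g i| * (v i)⁻¹ ^ 3) := by
    intro k hk i
    by_cases hi : v i ≤ x₀
    · rw [if_pos hi, norm_zero]
      have := (hv i).le
      positivity
    · rw [if_neg hi, norm_mul, Real.norm_eq_abs]
      have h1 : 0 ≤ x₀ * (v i)⁻¹ := by have := (hv i).le; positivity
      have h2 : x₀ * (v i)⁻¹ ≤ 1 := by
        rw [mul_inv_le_iff₀ (hv i)]
        linarith [not_le.1 hi]
      have h3 : ‖(x₀ * (v i)⁻¹) ^ (2 * k + 1)‖ ≤ (x₀ * (v i)⁻¹) ^ 3 := by
        rw [Real.norm_eq_abs, abs_of_nonneg (by positivity)]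
        exact pow_le_pow_of_le_one h1 h2 (by omega)
      calc |g i| * ‖(x₀ * (v i)⁻¹) ^ (2 * k + 1)‖ ≤ |g i| * (x₀ * (v i)⁻¹) ^ 3 := by gcongr
        _ = x₀ ^ 3 * (|g i| * (v i)⁻¹ ^ 3) := by ring
  have hsum3 : Summable fun i => x₀ ^ 3 * (|g i| * (v i)⁻¹ ^ 3) := hs.mul_left _
  have hrest : ∀ k : ℕ, 1 ≤ k →
      ∑' i, (if v i ≤ x₀ then 0 else g i * (x₀ * (v i)⁻¹) ^ (2 * k + 1) : ℝ) =
      - ∑' i, (if v i = x₀ then g i else 0) := by
    intro k hk
    have hs1 : Summable fun i => (if v i ≤ x₀ then 0 else g i * (x₀ * (v i)⁻¹) ^ (2 * k + 1) : ℝ) :=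
      Summable.of_norm_bounded hsum3 (hbound k hk)
    have hs2 : Summable fun i => (if v i ≤ x₀ then g i * (x₀ * (v i)⁻¹) ^ (2 * k + 1) else 0 : ℝ) := by
      apply summable_of_ne_finset_zero (s := T)
      intro i hi
      rw [if_neg]
      intro hc
      exact hi ((hTmem i).2 hc)
    have h1 : ∑' i, (if v i ≤ x₀ then g i * (x₀ * (v i)⁻¹) ^ (2 * k + 1) else 0 : ℝ) =
        ∑' i, (if v i = x₀ then g i else 0) := by
      rw [← hfinpart k, tsum_eq_sum (s := T)]
      · apply sum_congr rfl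
        intro i hi
        rw [if_pos ((hTmem i).1 hi)]
      · intro i hi
        rw [if_neg]
        intro hc
        exact hi ((hTmem i).2 hc)
    have h2 := hs2.tsum_add hs1
    have h3 : ∑' i, ((if v i ≤ x₀ then g i * (x₀ * (v i)⁻¹) ^ (2 * k + 1) else 0 : ℝ) +
        (if v i ≤ x₀ then 0 else g i * (x₀ * (v i)⁻¹) ^ (2 * k + 1) : ℝ)) = 0 := by
      have h4 : ∀ i, ((if v i ≤ x₀ then g i * (x₀ * (v i)⁻¹) ^ (2 * k + 1) else 0 : ℝ) +
        (if v i ≤ x₀ then 0 else g i * (x₀ * (v i)⁻¹) ^ (2 * k + 1) : ℝ)) =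
          x₀ ^ (2 * k + 1) * (g i * (v i)⁻¹ ^ (2 * k + 1)) := by
        intro i
        by_cases hi : v i ≤ x₀
        · rw [if_pos hi, if_pos hi]; ring
        · rw [if_neg hi, if_neg hi]; ring
      rw [tsum_congr h4, tsum_mul_left, h k hk, mul_zero]
    rw [h3, h1] at h2
    linarith
  have hlim : Filter.Tendsto (fun k : ℕ =>
      ∑' i, (if v i ≤ x₀ then 0 else g i * (x₀ * (v i)⁻¹) ^ (2 * k + 1) : ℝ)) Filter.atTop
      (nhds (∑' _ : ι, (0 : ℝ))) := by
    apply tendsto_tsum_of_dominated_convergence hsum3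
    · intro i
      by_cases hi : v i ≤ x₀
      · simp only [if_pos hi]
        exact tendsto_const_nhds
      · simp only [if_neg hi]
        have h1 : 0 ≤ x₀ * (v i)⁻¹ := by have := (hv i).le; positivity
        have h2 : x₀ * (v i)⁻¹ < 1 := by
          rw [mul_inv_lt_iff₀ (hv i)]
          linarith [not_le.1 hi]
        have h3 := tendsto_pow_atTop_nhds_zero_of_lt_one h1 h2
        have h4 : Filter.Tendsto (fun k : ℕ => 2 * k + 1) Filter.atTop Filter.atTop :=
          Filter.tendsto_atTop_mono (fun k => by simp only [id]; omega) Filter.tendsto_id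
        have h5 := (h3.comp h4).const_mul (g i)
        rw [mul_zero] at h5
        exact h5
    · filter_upwards [Filter.eventually_ge_atTop 1] with k hk i
      exact hbound k hk i
  rw [tsum_zero] at hlim
  have hlim2 : Filter.Tendsto (fun k : ℕ =>
      ∑' i, (if v i ≤ x₀ then 0 else g i * (x₀ * (v i)⁻¹) ^ (2 * k + 1) : ℝ)) Filter.atTop
      (nhds (- ∑' i, (if v i = x₀ then g i else 0))) := by
    apply tendsto_const_nhds.congr'
    filter_upwards [Filter.eventually_ge_atTop 1] with k hk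
    exact (hrest k hk).symm
  have := tendsto_nhds_unique hlim hlim2
  apply hGx₀
  linarith

end Pool.Agent.H99.Spl
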